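import Mathlib.RingTheory.Flat.TorsionFree
import Mathlib.Analysis.SpecialFunctions.PolarCoord
import Mathlib.RingTheory.TotallySplit
import Mathlib.RingTheory.Etale.Weakly
import Pool.Agent.MP_a421c2_co.Pack

-- ======== part 0: formerly Pool.Agent.MP_a421c2_co.Ex.Spec
section MrgPart0

/-! # Exactness of the Erdos-Soifer formula near squares of the same parity: definitions and
module statements -/

set_option autoImplicit false
open MeasureTheory Set Real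
open Finset (range)

namespace Pool.Agent.MP_a421c2_co.Ex
noncomputable section

/-! ## Tilted squares -/

/-- a square with centre `(X, Y)`, angle `θ` and side `d` -/
structure Tq where
  X : ℝ
  Y : ℝ
  θ : ℝ
  d : ℝ

/-- first own coordinate -/
def Tq.xi (q : Tq) (z : ℝ × ℝ) : ℝ := (z.1 - q.X) * cos q.θ + (z.2 - q.Y) * sin q.θ
/-- second own coordinate -/
def Tq.ze (q : Tq) (z : ℝ × ℝ) : ℝ := -((z.1 - q.X) * sin q.θ) + (z.2 - q.Y) * cos q.θ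
/-- the closed square, shrunk by `η` on each side -/
def Tq.cl (q : Tq) (η : ℝ) : Set (ℝ × ℝ) := {z | |q.xi z| ≤ q.d / 2 - η ∧ |q.ze z| ≤ q.d / 2 - η}
/-- the open square -/
def Tq.op (q : Tq) : Set (ℝ × ℝ) := {z | |q.xi z| < q.d / 2 ∧ |q.ze z| < q.d / 2}
/-- the `s`-neighbourhood of the four corners -/
def Tq.cn (q : Tq) (s : ℝ) : Set (ℝ × ℝ) :=
  {z | |(|q.xi z| - q.d / 2)| ≤ s ∧ |(|q.ze z| - q.d / 2)| ≤ s}

/-- the container -/
def box (ℓ : ℝ) : Set (ℝ × ℝ) := Icc 0 ℓ ×ˢ Icc 0 ℓ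
/-- the closed window of half side `ρ` -/
def win (p : ℝ × ℝ) (ρ : ℝ) : Set (ℝ × ℝ) := {z | |z.1 - p.1| ≤ ρ ∧ |z.2 - p.2| ≤ ρ}
/-- the corner scale -/
def s1 : ℝ := 1 / 400000

/-- a packing of squares of side about `3` in the container of side `ℓ` -/
structure Pack {I : Type} (ℓ : ℕ) (q : I → Tq) : Prop where
  ang : ∀ i, |(q i).θ| ≤ π / 4
  lo : ∀ i, 29 / 10 ≤ (q i).d
  hi : ∀ i, (q i).d ≤ 31 / 10
  sub : ∀ i, (q i).cl 0 ⊆ box ℓ
  dis : ∀ i j, i ≠ j → Disjoint (q i).op (q j).op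

/-- the uncovered area -/
def waste {I : Type} [Fintype I] (ℓ : ℕ) (q : I → Tq) : ℝ := (ℓ : ℝ) ^ 2 - ∑ i, (q i).d ^ 2
/-- the uncovered area away from the corners -/
def wmid {I : Type} (ℓ : ℕ) (q : I → Tq) : ℝ :=
  volume.real ((box ℓ \ ⋃ i, (q i).cl 0) \ ⋃ i, (q i).cn s1)

/-- WIN: two squares meeting a window that is almost covered have almost the same angle -/
def WinStmt : Prop :=
  ∀ (κ : Type) [Fintype κ] (q : κ → Tq) (Z : Set (ℝ × ℝ)) (p : ℝ × ℝ) (w : ℝ) (S : Finset κ),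
    (∀ k, 29 / 10 ≤ (q k).d) → (∀ k k', k ≠ k' → Disjoint (q k).op (q k').op) →
    MeasurableSet Z → win p 12 ⊆ ((⋃ k, (q k).cl 0) ∪ ⋃ k, (q k).cn s1) ∪ Z →
    S.card ≤ 1200 → (∀ k, ((q k).cn s1 ∩ win p 12).Nonempty → k ∈ S) →
    volume.real (Z ∩ win p 12) ≤ w → w ≤ 1 / 50 →
    ∀ k k', ((q k).cl 0 ∩ win p 8).Nonempty → ((q k').cl 0 ∩ win p 8).Nonempty →
      |sin (2 * ((q k).θ - (q k').θ))| ≤ 32000000 * w

/-- lattice indices at distance at most six -/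
def Near (a a' : ℕ) : Prop := a' ≤ a + 6 ∧ a ≤ a' + 6

/-- a lattice tilt field `t` with local oscillation `Ω` -/
structure Tilt {I : Type} (ℓ : ℕ) (q : I → Tq) (t Ω : ℕ → ℕ → ℝ) : Prop where
  nonneg : ∀ a b, 0 ≤ Ω a b
  zero : ∀ a b, a ≤ ℓ → b ≤ ℓ → (a = 0 ∨ a = ℓ ∨ b = 0 ∨ b = ℓ) → t a b = 0
  osc : ∀ a b a' b' a'' b'', a ≤ ℓ → b ≤ ℓ → a' ≤ ℓ → b' ≤ ℓ → a'' ≤ ℓ → b'' ≤ ℓ → Near a a' →
    Near b b' → Near a a'' → Near b b'' → |t a' b' - t a'' b''| ≤ Ω a b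
  ang : ∀ i a b a' b', a ≤ ℓ → b ≤ ℓ → a' ≤ ℓ → b' ≤ ℓ → |(q i).X - a| ≤ 6 → |(q i).Y - b| ≤ 6 →
    Near a a' → Near b b' → |(q i).θ - t a' b'| ≤ Ω a b

/-- TILT -/
def TiltStmt : Prop :=
  ∃ C w0 : ℝ, 1 ≤ C ∧ 0 < w0 ∧ ∀ (I : Type) [Fintype I] (ℓ : ℕ) (q : I → Tq), Pack ℓ q →
    waste ℓ q ≤ w0 → ∃ t Ω : ℕ → ℕ → ℝ, Tilt ℓ q t Ω ∧
      ∑ a ∈ range (ℓ + 1), ∑ b ∈ range (ℓ + 1), Ω a b ≤ C * wmid ℓ q

/-- the map from the straightened picture to the real picture -/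
def Phi (F1 F2 : ℝ × ℝ → ℝ) (p : ℝ × ℝ) : ℝ × ℝ := (p.1 + F1 p, p.2 + F2 p)

/-- mixed second difference on the grid of mesh `h` -/
def mix (F : ℝ × ℝ → ℝ) (h : ℝ) (a b : ℕ) : ℝ :=
  F ((a + 1) * h, (b + 1) * h) - F ((a + 1) * h, b * h) - F (a * h, (b + 1) * h) + F (a * h, b * h)

/-- a small displacement: sup norm, Lipschitz constant and mixed variation at most `e` -/
structure Small (F : ℝ × ℝ → ℝ) (e : ℝ) : Prop where
  bd : ∀ p, |F p| ≤ e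
  lip : ∀ p p', |F p - F p'| ≤ e * dist p p'
  var : ∀ (M : ℕ) (h : ℝ), 0 ≤ h → ∑ a ∈ range M, ∑ b ∈ range M, |mix F h a b| ≤ e

/-- straightening data -/
structure Shear {I : Type} [Fintype I] (ℓ : ℕ) (q : I → Tq) (F1 F2 : ℝ × ℝ → ℝ)
    (ε X' Y' : I → ℝ) (e : ℝ) : Prop where
  nonneg : ∀ i, 0 ≤ ε i
  sum : ∑ i, ε i ≤ e
  sm1 : Small F1 e
  sm2 : Small F2 e
  z1 : ∀ y, F1 (0, y) = 0 ∧ F1 (ℓ, y) = 0
  z2 : ∀ x, F2 (x, 0) = 0 ∧ F2 (x, ℓ) = 0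
  ang : ∀ i, |(q i).θ| ≤ e
  ctr : ∀ i, |X' i - (q i).X| ≤ e ∧ |Y' i - (q i).Y| ≤ e
  sl : ∀ i, ∀ p ∈ box ℓ, p ∈ win ((q i).X, (q i).Y) 3 →
    |F1 p - F1 (p.1, (q i).Y) + (q i).θ * (p.2 - (q i).Y)| ≤ ε i ∧
    |F2 p - F2 ((q i).X, p.2) - (q i).θ * (p.1 - (q i).X)| ≤ ε i
  loc : ∀ i, ∀ p ∈ box ℓ, p ∈ win ((q i).X, (q i).Y) 3 →
    |(q i).xi (Phi F1 F2 p) - (p.1 + F1 (p.1, (q i).Y) - X' i)| ≤ ε i ∧
    |(q i).ze (Phi F1 F2 p) - (p.2 + F2 ((q i).X, p.2) - Y' i)| ≤ ε i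

/-- SHEAR -/
def ShearStmt : Prop :=
  ∀ (I : Type) [Fintype I] (ℓ : ℕ) (q : I → Tq) (t Ω : ℕ → ℕ → ℝ) (e : ℝ), Pack ℓ q →
    Tilt ℓ q t Ω → ∑ a ∈ range (ℓ + 1), ∑ b ∈ range (ℓ + 1), Ω a b ≤ e → e ≤ 1 / 100 →
    ∃ (F1 F2 : ℝ × ℝ → ℝ) (ε X' Y' : I → ℝ), Shear ℓ q F1 F2 ε X' Y' (4 * e)

/-- the cell `(a, b)` lies in the integer rectangle number `i` -/
def InR {I : Type} (l r b t : I → ℕ) (i : I) (x y : ℕ) : Prop :=
  l i ≤ x ∧ x < r i ∧ b i ≤ y ∧ y < t i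

/-- disjoint nonempty integer rectangles in the `M × M` grid -/
structure Rects {I : Type} (M : ℕ) (l r b t : I → ℕ) : Prop where
  lr : ∀ i, l i < r i ∧ r i ≤ M
  bt : ∀ i, b i < t i ∧ t i ≤ M
  dis : ∀ i j x y, InR l r b t i x y → InR l r b t j x y → i = j

/-- the straightened squares on the grid of mesh `h` -/
structure Fit {I : Type} (ℓ : ℕ) (q : I → Tq) (F1 F2 : ℝ × ℝ → ℝ) (ε : I → ℝ) (h : ℝ)
    (l r b t : I → ℕ) : Prop where
  out : ∀ i, ∀ p ∈ box ℓ, Phi F1 F2 p ∈ (q i).cl (2 * ε i + 3 * h) →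
    l i * h ≤ p.1 ∧ p.1 < r i * h ∧ b i * h ≤ p.2 ∧ p.2 < t i * h
  cor : ∀ i, ∀ p ∈ box ℓ, ∀ (x y : ℕ) (ρ : ℝ), (x = l i ∨ x = r i) → (y = b i ∨ y = t i) → ρ ≤ 1 →
    |p.1 - x * h| ≤ ρ → |p.2 - y * h| ≤ ρ → Phi F1 F2 p ∈ (q i).cn (2 * ε i + 2 * h + 2 * ρ)
  wid : ∀ i, |(q i).d - (h * ((r i : ℝ) - l i) + F1 (r i * h, b i * h) - F1 (l i * h, b i * h))| ≤
    4 * ε i + 4 * h
  hgt : ∀ i, |(q i).d - (h * ((t i : ℝ) - b i) + F2 (l i * h, t i * h) - F2 (l i * h, b i * h))| ≤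
    4 * ε i + 4 * h

/-- RECT -/
def RectStmt : Prop :=
  ∀ (I : Type) [Fintype I] (ℓ m : ℕ) (q : I → Tq) (F1 F2 : ℝ × ℝ → ℝ) (ε X' Y' : I → ℝ) (e : ℝ),
    Pack ℓ q → Shear ℓ q F1 F2 ε X' Y' e → e ≤ 1 / 100 → 100 ≤ m →
    ∃ l r b t : I → ℕ, Rects (ℓ * m) l r b t ∧ Fit ℓ q F1 F2 ε (1 / m) l r b t

/-- AREA: area of a set of uncovered cells -/
def AreaStmt : Prop :=
  ∀ (I : Type) [Fintype I] (ℓ m : ℕ) (q : I → Tq) (F1 F2 : ℝ × ℝ → ℝ) (ε X' Y' : I → ℝ) (e : ℝ)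
    (l r b t : I → ℕ) (c : Finset (ℕ × ℕ)), Pack ℓ q → Shear ℓ q F1 F2 ε X' Y' e → e ≤ 1 / 100 →
    100 ≤ m → Fit ℓ q F1 F2 ε (1 / m) l r b t →
    (∀ x ∈ c, x.1 < ℓ * m ∧ x.2 < ℓ * m ∧ ∀ i, ¬ InR l r b t i x.1 x.2) →
    (1 / m : ℝ) ^ 2 * c.card ≤ (1 + 3 * e) * (waste ℓ q + 13 * ∑ i, (2 * ε i + 3 * (1 / m))) ∧
    ∀ s : ℝ, 0 ≤ s → s ≤ s1 →
      (∀ x ∈ c, ∀ p : ℝ × ℝ, x.1 * (1 / m : ℝ) ≤ p.1 → p.1 < (x.1 + 1) * (1 / m : ℝ) →
        x.2 * (1 / m : ℝ) ≤ p.2 → p.2 < (x.2 + 1) * (1 / m : ℝ) →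
        ∃ j, Phi F1 F2 p ∈ (q j).cn s) →
      (1 / m : ℝ) ^ 2 * c.card ≤
        (1 + 3 * e) * (waste ℓ q - wmid ℓ q + 32768 * s * ∑ i, (2 * ε i + 3 * (1 / m)))

/-! ## Networks -/

/-- a network with edge set `E`: nodes, identifications, end points, two poles -/
structure Side (E : Type) where
  V : Type
  rel : V → V → Prop
  l : E → V
  r : E → V
  a : V
  b : V

/-- admissible potentials -/
def Side.Adm {E : Type} (S : Side E) (U : S.V → ℝ) : Prop := ∀ x y, S.rel x y → U x = U y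
/-- potential difference along an edge -/
def Side.D {E : Type} (S : Side E) (U : S.V → ℝ) (k : E) : ℝ := U (S.r k) - U (S.l k)
/-- potential difference between the poles -/
def Side.tot {E : Type} (S : Side E) (U : S.V → ℝ) : ℝ := U S.b - U S.a

/-- the bilinear identity of two dual networks -/
def Orth {E : Type} [Fintype E] (A B : Side E) : Prop :=
  ∀ U W, A.Adm U → B.Adm W → ∑ k, A.D U k * B.D W k = A.tot U * B.tot W

/-- every vector orthogonal to the closed gradients of `A` is a gradient of `B` -/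
def Dual {E : Type} [Fintype E] (A B : Side E) : Prop :=
  ∀ v : E → ℝ, (∀ U, A.Adm U → A.tot U = 0 → ∑ k, A.D U k * v k = 0) →
    ∃ W, B.Adm W ∧ ∀ k, v k = B.D W k

/-- the vector `d` is almost a flow of total `ℓ` -/
def Leak {I J : Type} [Fintype I] [Fintype J] (S : Side (I ⊕ J)) (ℓ : ℝ) (d : I ⊕ J → ℝ)
    (L : ℝ) : Prop :=
  ∀ U M, S.Adm U → (∀ x, |U x| ≤ M) →
    |ℓ * S.tot U - ∑ k, S.D U k * d k| ≤ L * (M + ∑ j, |S.D U (.inr j)| * |d (.inr j)|)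

/-- indicator of the squares -/
def ind (I J : Type) : I ⊕ J → ℝ := Sum.elim (fun _ => 1) fun _ => 0

/-- HODGE: decomposition of the indicator of the squares, with bounded potentials -/
def HodgeStmt : Prop :=
  ∀ (I J : Type) [Fintype I] [Fintype J] (A B : Side (I ⊕ J)), Orth A B → Dual A B → Dual B A →
    ∃ (U UA : A.V → ℝ) (W WB : B.V → ℝ), A.Adm U ∧ A.Adm UA ∧ B.Adm W ∧ B.Adm WB ∧
      A.tot UA = 0 ∧ B.tot WB = 0 ∧ (∀ k, A.D U k = B.D W k) ∧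
      (∀ k, ind I J k = A.D U k + A.D UA k + B.D WB k) ∧
      (∀ x, |U x| ≤ |A.tot U|) ∧ (∀ x, |W x| ≤ |B.tot W|) ∧
      (∀ x, |UA x| ≤ ∑ k, A.D UA k ^ 2) ∧ ∀ x, |WB x| ≤ ∑ k, B.D WB k ^ 2

/-- ROUND: lattice rounding with parity; `σ` is the sign of `c` -/
def RoundStmt : Prop :=
  ∀ (I J : Type) [Fintype I] [Fintype J] (A B : Side (I ⊕ J)) (U : A.V → ℝ) (W : B.V → ℝ)
    (K : ℕ) (c : ℤ) (σ ν : ℝ), Orth A B → A.Adm U → B.Adm W → (∀ k, A.D U k = B.D W k) →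
    (Fintype.card I : ℤ) = K ^ 2 + 2 * c + 1 → 100 ≤ K → (σ = 1 ∨ σ = -1) →
    99 / 100 * (K : ℝ) ≤ σ * c → σ * c ≤ K → ν ≤ 1 / 20 → |A.tot U - (K + σ)| ≤ ν →
    |B.tot W - (K + σ)| ≤ ν → ∑ i, A.D U (.inl i) = A.tot U * B.tot W →
    ∑ i, (1 - A.D U (.inl i)) ^ 2 ≤ 1 / 1300 →
    A.tot U + B.tot W ≤ 2 * (K + c / K) + 2 * ν * |B.tot W - A.tot U| / K

/-- NET -/
def NetStmt : Prop :=
  ∀ κ : ℝ, 0 < κ → ∃ δ : ℝ, 0 < δ ∧ ∀ (K : ℕ) (c : ℤ), |c| < K → (K : ℝ) - |(c : ℝ)| ≤ δ * K →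
    ∀ (I J : Type) [Fintype I] [Fintype J] (A B : Side (I ⊕ J)) (d : I ⊕ J → ℝ) (L η : ℝ),
      Orth A B → Dual A B → Dual B A → (Fintype.card I : ℤ) = K ^ 2 + 2 * c + 1 → 0 ≤ L →
      0 ≤ η → η ≤ δ → Leak A (3 * K) d L → Leak B (3 * K) d L →
      ∑ k, d k ^ 2 ≤ (3 * K) ^ 2 - κ * L + η → ∑ i, d (.inl i) ≤ (K + c / K) * (3 * K) + η

/-! ## The grid network -/

/-- rectangles `I`, resistor cells `J`, vertex types `PU`, `PW`, contracted cells `Z`, `Z'` -/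
structure Grid (I J : Type) where
  M : ℕ
  l : I → ℕ
  r : I → ℕ
  b : I → ℕ
  t : I → ℕ
  px : J → ℕ
  py : J → ℕ
  PU : ℕ → ℕ → Prop
  PW : ℕ → ℕ → Prop
  Z : ℕ → ℕ → Prop
  Z' : ℕ → ℕ → Prop

/-- the transposed grid -/
def Grid.T {I J : Type} (G : Grid I J) : Grid I J :=
  ⟨G.M, G.b, G.t, G.l, G.r, G.py, G.px, fun x y => G.PW y x, fun x y => G.PU y x,
    fun x y => G.Z' y x, fun x y => G.Z y x⟩

/-- potentials live on the vertical grid edges: `(x, y)` joins the vertices `(x, y)`, `(x, y+1)` -/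
def Grid.side {I J : Type} (G : Grid I J) : Side (I ⊕ J) where
  V := ℕ × ℕ
  rel u v := (u.1 ≤ G.M ∧ u.2 + 1 < G.M ∧ v = (u.1, u.2 + 1) ∧
      (u.1 = 0 ∨ u.1 = G.M ∨ G.PU u.1 (u.2 + 1))) ∨
    (u.1 < G.M ∧ u.2 < G.M ∧ v = (u.1 + 1, u.2) ∧ G.Z u.1 u.2)
  l := Sum.elim (fun i => (G.l i, G.b i)) fun j => (G.px j, G.py j)
  r := Sum.elim (fun i => (G.r i, G.b i)) fun j => (G.px j + 1, G.py j)
  a := (0, 0)
  b := (G.M, 0)

/-- consistency of the grid data -/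
structure Grid.OK {I J : Type} (G : Grid I J) : Prop where
  pos : 0 < G.M
  rects : Rects G.M G.l G.r G.b G.t
  cell : ∀ j, G.px j < G.M ∧ G.py j < G.M ∧ ¬ G.Z (G.px j) (G.py j) ∧ ¬ G.Z' (G.px j) (G.py j) ∧
    ∀ i, ¬ InR G.l G.r G.b G.t i (G.px j) (G.py j)
  inj : ∀ j j', G.px j = G.px j' → G.py j = G.py j' → j = j'
  cover : ∀ x y, x < G.M → y < G.M → (∃ i, InR G.l G.r G.b G.t i x y) ∨
    (∃ j, G.px j = x ∧ G.py j = y) ∨ G.Z x y ∨ G.Z' x y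
  free : ∀ x y i, G.Z x y ∨ G.Z' x y → ¬ InR G.l G.r G.b G.t i x y
  excl : ∀ x y, ¬ (G.Z x y ∧ G.Z' x y)
  one : ∀ x y, G.PU x y ∨ G.PW x y
  both : ∀ x y, G.PU x y → G.PW x y → ∃ i, G.l i < x ∧ x < G.r i ∧ G.b i < y ∧ y < G.t i
  pu : ∀ i x y, G.l i ≤ x → x ≤ G.r i → G.b i < y → y < G.t i → G.PU x y
  pw : ∀ i x y, G.l i < x → x < G.r i → G.b i ≤ y → y ≤ G.t i → G.PW x y

/-- GRID -/
def GridStmt : Prop :=
  ∀ (I J : Type) [Fintype I] [Fintype J] (G : Grid I J), G.OK →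
    Orth G.side G.T.side ∧ Dual G.side G.T.side

/-- `χ` is a union of horizontal runs of at least `s` uncovered non-resistor cells that contains
every cell which is neither covered, nor a resistor, nor contracted -/
structure Runs {I J : Type} (G : Grid I J) (χ : Finset (ℕ × ℕ)) (s : ℕ) : Prop where
  sub : ∀ u ∈ χ, u.1 < G.M ∧ u.2 < G.M ∧ (G.Z u.1 u.2 ∨ G.Z' u.1 u.2)
  all : ∀ x y, x < G.M → y < G.M → G.Z' x y → (x, y) ∈ χ ∨ G.Z x y
  run : ∀ u ∈ χ, ∃ x1 x2, x1 ≤ u.1 ∧ u.1 < x2 ∧ x1 + s ≤ x2 ∧ ∀ x, x1 ≤ x → x < x2 → (x, u.2) ∈ χ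

/-- LEAK -/
def LeakStmt : Prop :=
  ∀ (I J : Type) [Fintype I] [Fintype J] (G : Grid I J) (χ : Finset (ℕ × ℕ)) (s : ℕ)
    (F : ℕ → ℕ → ℝ) (d ε : I → ℝ) (h e : ℝ), G.OK → Runs G χ s → 0 < s → 0 < h → e ≤ 1 →
    (∀ x, F x 0 = 0 ∧ F x G.M = 0) → (∀ x y, |F x (y + 1) - F x y| ≤ e * h) →
    ∑ x ∈ range G.M, ∑ y ∈ range G.M,
      |F (x + 1) (y + 1) - F (x + 1) y - F x (y + 1) + F x y| ≤ e →
    (∀ i, |d i - (h * ((G.t i : ℝ) - G.b i) + F (G.l i) (G.t i) - F (G.l i) (G.b i))| ≤ ε i) →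
    ∑ i, ε i ≤ e → h * χ.card ≤ e * s →
    Leak G.side (G.M * h) (Sum.elim d fun _ => h) (10 * e)

/-- CELL: classification of the uncovered cells -/
def CellStmt : Prop :=
  ∀ (I : Type) [Fintype I] (M s : ℕ) (l r b t : I → ℕ), Rects M l r b t → 0 < s → s ≤ M →
    ∃ (res wst χ χ' : Finset (ℕ × ℕ)) (G : Grid I res), G.OK ∧ G.M = M ∧ G.l = l ∧ G.r = r ∧
      G.b = b ∧ G.t = t ∧ Runs G χ s ∧ Runs G.T χ' s ∧
      (∀ u ∈ wst, u.1 < M ∧ u.2 < M ∧ ∀ i, ¬ InR l r b t i u.1 u.2) ∧ res ⊆ wst ∧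
      χ.card + res.card ≤ wst.card ∧ χ'.card + res.card ≤ wst.card ∧
      ∀ u ∈ res, ∃ i x y, (x = l i ∨ x = r i) ∧ (y = b i ∨ y = t i) ∧ u.1 ≤ x + s ∧ x ≤ u.1 + s ∧
        u.2 ≤ y + s ∧ y ≤ u.2 + s

/-- CORE: from a packing with small waste to a pair of dual networks -/
def CoreStmt : Prop :=
  ∃ κ w0 : ℝ, 0 < κ ∧ 0 < w0 ∧ ∀ (I : Type) [Fintype I] (ℓ : ℕ) (q : I → Tq), Pack ℓ q → 1 ≤ ℓ →
    waste ℓ q ≤ w0 → ∀ η : ℝ, 0 < η → ∃ (J : Type) (_ : Fintype J) (A B : Side (I ⊕ J))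
      (h L : ℝ), Orth A B ∧ Dual A B ∧ Dual B A ∧ 0 ≤ L ∧
      Leak A ℓ (Sum.elim (fun i => (q i).d) fun _ => h) L ∧
      Leak B ℓ (Sum.elim (fun i => (q i).d) fun _ => h) L ∧
      ∑ k : I ⊕ J, (Sum.elim (fun i => (q i).d) (fun _ => h) k : ℝ) ^ 2 ≤ (ℓ : ℝ) ^ 2 - κ * L + η

/-- MAIN -/
def MainStmt : Prop :=
  ∃ δ : ℝ, 0 < δ ∧ ∀ (K : ℕ) (c : ℤ) (r : ℕ), |c| < K → (K : ℝ) - |(c : ℝ)| ≤ δ * K →
    (r : ℤ) = K ^ 2 + 2 * c + 1 → f r = K + c / K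

end
end Pool.Agent.MP_a421c2_co.Ex

end MrgPart0

-- ======== part 1: formerly Pool.Agent.MP_a421c2_co.Ex.Basic
section MrgPart1

/-! # Shared lemmas -/

set_option autoImplicit false
open MeasureTheory Set Real
open Finset (range)

namespace Pool.Agent.MP_a421c2_co.Ex
noncomputable section

namespace Tq
variable (q : Tq)

/-- the point with own coordinates `(u, v)` -/
def pt (u v : ℝ) : ℝ × ℝ := (q.X + u * cos q.θ - v * sin q.θ, q.Y + u * sin q.θ + v * cos q.θ)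

@[simp] lemma xi_pt (u v : ℝ) : q.xi (q.pt u v) = u := by
  simp only [xi, pt]; linear_combination u * cos_sq_add_sin_sq q.θ

@[simp] lemma ze_pt (u v : ℝ) : q.ze (q.pt u v) = v := by
  simp only [ze, pt]; linear_combination v * cos_sq_add_sin_sq q.θ

lemma fst_eq (z : ℝ × ℝ) : z.1 = q.X + q.xi z * cos q.θ - q.ze z * sin q.θ := by
  simp only [xi, ze]; linear_combination (q.X - z.1) * cos_sq_add_sin_sq q.θ

lemma snd_eq (z : ℝ × ℝ) : z.2 = q.Y + q.xi z * sin q.θ + q.ze z * cos q.θ := by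
  simp only [xi, ze]; linear_combination (q.Y - z.2) * cos_sq_add_sin_sq q.θ

lemma pt_own (z : ℝ × ℝ) : q.pt (q.xi z) (q.ze z) = z :=
  Prod.ext (q.fst_eq z).symm (q.snd_eq z).symm

lemma abs_comb {a b c s : ℝ} (hc : |c| ≤ 1) (hs : |s| ≤ 1) : |a * c + b * s| ≤ |a| + |b| := by
  refine (abs_add_le _ _).trans ?_
  rw [abs_mul, abs_mul]
  exact add_le_add (mul_le_of_le_one_right (abs_nonneg _) hc)
    (mul_le_of_le_one_right (abs_nonneg _) hs)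

lemma xi_sub (z z' : ℝ × ℝ) : |q.xi z - q.xi z'| ≤ |z.1 - z'.1| + |z.2 - z'.2| := by
  rw [show q.xi z - q.xi z' = (z.1 - z'.1) * cos q.θ + (z.2 - z'.2) * sin q.θ by
    simp only [xi]; ring]
  exact abs_comb (abs_cos_le_one _) (abs_sin_le_one _)

lemma ze_sub (z z' : ℝ × ℝ) : |q.ze z - q.ze z'| ≤ |z.1 - z'.1| + |z.2 - z'.2| := by
  rw [show q.ze z - q.ze z' = (z.1 - z'.1) * (-sin q.θ) + (z.2 - z'.2) * cos q.θ by
    simp only [ze]; ring]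
  exact abs_comb (by rw [abs_neg]; exact abs_sin_le_one _) (abs_cos_le_one _)

lemma fst_sub (z z' : ℝ × ℝ) : |z.1 - z'.1| ≤ |q.xi z - q.xi z'| + |q.ze z - q.ze z'| := by
  rw [show z.1 - z'.1 = (q.xi z - q.xi z') * cos q.θ + (q.ze z - q.ze z') * (-sin q.θ) by
    linear_combination q.fst_eq z - q.fst_eq z']
  exact abs_comb (abs_cos_le_one _) (by rw [abs_neg]; exact abs_sin_le_one _)

lemma snd_sub (z z' : ℝ × ℝ) : |z.2 - z'.2| ≤ |q.xi z - q.xi z'| + |q.ze z - q.ze z'| := by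
  rw [show z.2 - z'.2 = (q.xi z - q.xi z') * sin q.θ + (q.ze z - q.ze z') * cos q.θ by
    linear_combination q.snd_eq z - q.snd_eq z']
  exact abs_comb (abs_sin_le_one _) (abs_cos_le_one _)

@[simp] lemma xi_ctr : q.xi (q.X, q.Y) = 0 := by simp [xi]
@[simp] lemma ze_ctr : q.ze (q.X, q.Y) = 0 := by simp [ze]

lemma fst_ctr (z : ℝ × ℝ) : |z.1 - q.X| ≤ |q.xi z| + |q.ze z| := by
  simpa using q.fst_sub z (q.X, q.Y)

lemma snd_ctr (z : ℝ × ℝ) : |z.2 - q.Y| ≤ |q.xi z| + |q.ze z| := by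
  simpa using q.snd_sub z (q.X, q.Y)

lemma continuous_xi : Continuous q.xi := by unfold xi; fun_prop
lemma continuous_ze : Continuous q.ze := by unfold ze; fun_prop

lemma isClosed_cl (η : ℝ) : IsClosed (q.cl η) :=
  (isClosed_le q.continuous_xi.abs continuous_const).inter
    (isClosed_le q.continuous_ze.abs continuous_const)

lemma isOpen_op : IsOpen q.op :=
  (isOpen_lt q.continuous_xi.abs continuous_const).inter
    (isOpen_lt q.continuous_ze.abs continuous_const)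

lemma isClosed_cn (s : ℝ) : IsClosed (q.cn s) :=
  (isClosed_le (q.continuous_xi.abs.sub continuous_const).abs continuous_const).inter
    (isClosed_le (q.continuous_ze.abs.sub continuous_const).abs continuous_const)

lemma op_sub : q.op ⊆ q.cl 0 := fun _ hz =>
  ⟨by rw [sub_zero]; exact hz.1.le, by rw [sub_zero]; exact hz.2.le⟩

lemma cl_mono {η η' : ℝ} (h : η ≤ η') : q.cl η' ⊆ q.cl η := fun _ hz =>
  ⟨by linarith [hz.1], by linarith [hz.2]⟩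

lemma cn_mono {s s' : ℝ} (h : s ≤ s') : q.cn s ⊆ q.cn s' := fun _ hz =>
  ⟨hz.1.trans h, hz.2.trans h⟩

lemma xi_comb (z z' : ℝ × ℝ) {a b : ℝ} (h : a + b = 1) :
    q.xi (a • z + b • z') = a * q.xi z + b * q.xi z' := by
  obtain rfl : b = 1 - a := by linarith
  simp only [xi, Prod.fst_add, Prod.snd_add, Prod.smul_fst, Prod.smul_snd, smul_eq_mul]; ring

lemma ze_comb (z z' : ℝ × ℝ) {a b : ℝ} (h : a + b = 1) :
    q.ze (a • z + b • z') = a * q.ze z + b * q.ze z' := by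
  obtain rfl : b = 1 - a := by linarith
  simp only [ze, Prod.fst_add, Prod.snd_add, Prod.smul_fst, Prod.smul_snd, smul_eq_mul]; ring

lemma convex_cl (η : ℝ) : Convex ℝ (q.cl η) := fun z hz z' hz' a b ha hb hab => by
  have k := convex_Icc (𝕜 := ℝ) (-(q.d / 2 - η)) (q.d / 2 - η)
  exact ⟨by rw [q.xi_comb z z' hab]; exact abs_le.2 (k (abs_le.1 hz.1) (abs_le.1 hz'.1) ha hb hab),
    by rw [q.ze_comb z z' hab]; exact abs_le.2 (k (abs_le.1 hz.2) (abs_le.1 hz'.2) ha hb hab)⟩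

lemma convex_op : Convex ℝ q.op := fun z hz z' hz' a b ha hb hab => by
  have k := convex_Ioo (𝕜 := ℝ) (-(q.d / 2)) (q.d / 2)
  exact ⟨by rw [q.xi_comb z z' hab]; exact abs_lt.2 (k (abs_lt.1 hz.1) (abs_lt.1 hz'.1) ha hb hab),
    by rw [q.ze_comb z z' hab]; exact abs_lt.2 (k (abs_lt.1 hz.2) (abs_lt.1 hz'.2) ha hb hab)⟩

/-- own coordinates preserve area -/
lemma vol_own (s : Set (ℝ × ℝ)) : volume {z | (q.xi z, q.ze z) ∈ s} = volume s := by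
  let R := Matrix.toLin (Module.Basis.finTwoProd ℝ) (Module.Basis.finTwoProd ℝ)
    !![cos q.θ, sin q.θ; -sin q.θ, cos q.θ]
  have hd : LinearMap.det R = 1 := by
    rw [LinearMap.det_toLin, Matrix.det_fin_two_of]
    linear_combination cos_sq_add_sin_sq q.θ
  have e : {z | (q.xi z, q.ze z) ∈ s} = (fun z => z + (-q.X, -q.Y)) ⁻¹' (R ⁻¹' s) := by
    ext z
    simp only [mem_ofPred_eq, mem_preimage, R, Matrix.toLin_finTwoProd_apply, xi, ze, Prod.fst_add,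
      Prod.snd_add, ← sub_eq_add_neg]
    rw [mul_comm (cos q.θ) (z.1 - q.X), mul_comm (sin q.θ) (z.2 - q.Y), neg_mul,
      mul_comm (sin q.θ) (z.1 - q.X), mul_comm (cos q.θ) (z.2 - q.Y)]
  rw [e, measure_preimage_add_right, Measure.addHaar_preimage_linearMap _ (by simp [hd]), hd]
  simp

lemma vol_rect (a b a' b' : ℝ) : volume {z | q.xi z ∈ Icc a b ∧ q.ze z ∈ Icc a' b'} =
    ENNReal.ofReal (b - a) * ENNReal.ofReal (b' - a') := by
  have := q.vol_own (Icc a b ×ˢ Icc a' b')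
  rwa [Measure.volume_eq_prod, Measure.prod_prod, volume_Icc, volume_Icc] at this

lemma vol_cl {η : ℝ} (h : 2 * η ≤ q.d) : volume (q.cl η) = ENNReal.ofReal ((q.d - 2 * η) ^ 2) := by
  have := q.vol_rect (-(q.d / 2 - η)) (q.d / 2 - η) (-(q.d / 2 - η)) (q.d / 2 - η)
  rw [← ENNReal.ofReal_mul (by linarith)] at this
  simp only [cl, abs_le]
  exact this.trans (congrArg _ (by ring))

lemma vol_op (h : 0 ≤ q.d) : volume q.op = ENNReal.ofReal (q.d ^ 2) := by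
  have := q.vol_own (Ioo (-(q.d / 2)) (q.d / 2) ×ˢ Ioo (-(q.d / 2)) (q.d / 2))
  rw [Measure.volume_eq_prod, Measure.prod_prod, volume_Ioo,
    ← ENNReal.ofReal_mul (by linarith)] at this
  simp only [op, abs_lt]
  exact this.trans (congrArg _ (by ring))

lemma ctr_mem (h : 0 ≤ q.d) : (q.X, q.Y) ∈ q.cl 0 := ⟨by simpa using by linarith, by
  simpa using by linarith⟩

end Tq

lemma vol_box (ℓ : ℝ) (h : 0 ≤ ℓ) : volume (box ℓ) = ENNReal.ofReal (ℓ ^ 2) := by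
  rw [box, Measure.volume_eq_prod, Measure.prod_prod, volume_Icc, sub_zero,
    ← ENNReal.ofReal_mul h, sq]

lemma measurableSet_box (ℓ : ℝ) : MeasurableSet (box ℓ) := measurableSet_Icc.prod measurableSet_Icc

lemma win_eq (p : ℝ × ℝ) (ρ : ℝ) :
    win p ρ = Icc (p.1 - ρ) (p.1 + ρ) ×ˢ Icc (p.2 - ρ) (p.2 + ρ) := by
  ext z
  simp only [win, mem_ofPred_eq, abs_le, Set.mem_prod, Set.mem_Icc]
  constructor <;> rintro ⟨⟨a, b⟩, c, d⟩ <;> refine ⟨⟨?_, ?_⟩, ?_, ?_⟩ <;> linarith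

lemma measurableSet_win (p : ℝ × ℝ) (ρ : ℝ) : MeasurableSet (win p ρ) := by
  rw [win_eq]; exact measurableSet_Icc.prod measurableSet_Icc

lemma vol_win (p : ℝ × ℝ) {ρ : ℝ} (h : 0 ≤ ρ) : volume (win p ρ) = ENNReal.ofReal (4 * ρ ^ 2) := by
  rw [win_eq, Measure.volume_eq_prod, Measure.prod_prod, volume_Icc, volume_Icc,
    ← ENNReal.ofReal_mul (by linarith)]
  exact congrArg _ (by ring)

/-- the uncovered part of the container has area at most `waste`, and `waste` is nonnegative;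
no size condition on the squares is needed -/
lemma waste_vol {I : Type} [Fintype I] (ℓ : ℝ) (hℓ : 0 ≤ ℓ) (q : I → Tq) (h0 : ∀ i, 0 ≤ (q i).d)
    (sub : ∀ i, (q i).cl 0 ⊆ box ℓ) (dis : ∀ i j, i ≠ j → Disjoint (q i).op (q j).op) :
    volume.real (box ℓ \ ⋃ i, (q i).cl 0) ≤ ℓ ^ 2 - ∑ i, (q i).d ^ 2 := by
  have fin : volume (box ℓ) ≠ ⊤ := by rw [vol_box ℓ hℓ]; exact ENNReal.ofReal_ne_top
  have s1 : (⋃ i, (q i).op) ⊆ box ℓ := iUnion_subset fun i => (q i).op_sub.trans (sub i)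
  have m1 : MeasurableSet (⋃ i, (q i).op) :=
    MeasurableSet.iUnion fun i => (q i).isOpen_op.measurableSet
  have e1 : volume.real (⋃ i, (q i).op) = ∑ i, (q i).d ^ 2 := by
    rw [measureReal_iUnion_fintype (fun i j hij => dis i j hij)
      (fun i => (q i).isOpen_op.measurableSet) fun i => by
        rw [(q i).vol_op (h0 i)]; exact ENNReal.ofReal_ne_top]
    exact Finset.sum_congr rfl fun i _ => by
      rw [measureReal_def, (q i).vol_op (h0 i), ENNReal.toReal_ofReal (sq_nonneg _)]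
  calc _ ≤ volume.real (box ℓ \ ⋃ i, (q i).op) :=
        measureReal_mono (sdiff_subset_sdiff_right (iUnion_mono fun i => (q i).op_sub))
          (measure_ne_top_of_subset sdiff_subset fin)
    _ = _ := by
        rw [measureReal_sdiff s1 m1 fin, e1, measureReal_def, vol_box ℓ hℓ,
          ENNReal.toReal_ofReal (sq_nonneg _)]

namespace Pack
variable {I : Type} {ℓ : ℕ} {q : I → Tq} (P : Pack ℓ q)
include P

lemma d_nonneg (i : I) : 0 ≤ (q i).d := by linarith [P.lo i]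

lemma vol_le [Fintype I] : volume.real (box ℓ \ ⋃ i, (q i).cl 0) ≤ waste ℓ q :=
  waste_vol ℓ (Nat.cast_nonneg _) q P.d_nonneg P.sub P.dis

lemma waste_nonneg [Fintype I] : 0 ≤ waste ℓ q := measureReal_nonneg.trans P.vol_le

omit P in
lemma wmid_nonneg : 0 ≤ wmid ℓ q := measureReal_nonneg

lemma wmid_le [Fintype I] : wmid ℓ q ≤ waste ℓ q :=
  (measureReal_mono sdiff_subset (measure_ne_top_of_subset sdiff_subset (by
    rw [vol_box _ (Nat.cast_nonneg _)]; exact ENNReal.ofReal_ne_top))).trans P.vol_le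

lemma ctr_box (i : I) : ((q i).X, (q i).Y) ∈ box ℓ := P.sub i ((q i).ctr_mem (P.d_nonneg i))

lemma op_sub (i : I) : (q i).op ⊆ Ioo (0 : ℝ) ℓ ×ˢ Ioo (0 : ℝ) ℓ := by
  have := interior_maximal ((q i).op_sub.trans (P.sub i)) (q i).isOpen_op
  rwa [box, interior_prod_eq, interior_Icc] at this

/-- two centres are at distance more than one in the sup norm -/
lemma far {i j : I} (h1 : |(q i).X - (q j).X| ≤ 1) (h2 : |(q i).Y - (q j).Y| ≤ 1) : i = j := by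
  by_contra hij
  let z : ℝ × ℝ := (((q i).X + (q j).X) / 2, ((q i).Y + (q j).Y) / 2)
  have k : ∀ k, |z.1 - (q k).X| ≤ 1 / 2 → |z.2 - (q k).Y| ≤ 1 / 2 → z ∈ (q k).op := fun k a b => by
    have a1 := (q k).xi_sub z ((q k).X, (q k).Y)
    have a2 := (q k).ze_sub z ((q k).X, (q k).Y)
    simp only [Tq.xi_ctr, Tq.ze_ctr, sub_zero] at a1 a2
    exact ⟨by linarith [P.lo k], by linarith [P.lo k]⟩
  rw [abs_le] at h1 h2
  exact Set.disjoint_left.1 (P.dis i j hij)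
    (k i (abs_le.2 ⟨by simp only [z]; linarith, by simp only [z]; linarith⟩)
      (abs_le.2 ⟨by simp only [z]; linarith, by simp only [z]; linarith⟩))
    (k j (abs_le.2 ⟨by simp only [z]; linarith, by simp only [z]; linarith⟩)
      (abs_le.2 ⟨by simp only [z]; linarith, by simp only [z]; linarith⟩))

lemma floor_inj : Function.Injective fun i => (⌊(q i).X⌋₊, ⌊(q i).Y⌋₊) := fun i j h => by
  simp only [Prod.mk.injEq] at h
  have k : ∀ x y : ℝ, 0 ≤ x → 0 ≤ y → ⌊x⌋₊ = ⌊y⌋₊ → |x - y| ≤ 1 := fun x y hx hy e => by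
    have a1 := Nat.floor_le hx
    have a2 := Nat.floor_le hy
    have a3 := Nat.lt_floor_add_one x
    have a4 := Nat.lt_floor_add_one y
    rw [e] at a1 a3
    exact abs_le.2 ⟨by linarith, by linarith⟩
  exact P.far (k _ _ (P.ctr_box i).1.1 (P.ctr_box j).1.1 h.1)
    (k _ _ (P.ctr_box i).2.1 (P.ctr_box j).2.1 h.2)

lemma floor_le (i : I) : ⌊(q i).X⌋₊ ≤ ℓ ∧ ⌊(q i).Y⌋₊ ≤ ℓ :=
  ⟨Nat.floor_le_of_le (P.ctr_box i).1.2, Nat.floor_le_of_le (P.ctr_box i).2.2⟩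

/-- few centres in a window -/
lemma count (p : ℝ × ℝ) (ρ : ℕ) (S : Finset I) (h : ∀ i ∈ S, ((q i).X, (q i).Y) ∈ win p ρ) :
    S.card ≤ (2 * ρ + 2) ^ 2 := by
  have k : ∀ x u : ℝ, |x - u| ≤ ρ → ⌊x⌋ ∈ Finset.Icc (⌊u⌋ - ρ) (⌊u⌋ + ρ) := fun x u hx => by
    rw [abs_le] at hx
    rw [Finset.mem_Icc, ← Int.floor_sub_natCast, ← Int.floor_add_natCast]
    exact ⟨Int.floor_mono (by linarith), Int.floor_mono (by linarith)⟩
  have := Finset.card_le_card_of_injOn (s := S) (fun i => (⌊(q i).X⌋, ⌊(q i).Y⌋))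
    (t := Finset.Icc (⌊p.1⌋ - ρ) (⌊p.1⌋ + ρ) ×ˢ Finset.Icc (⌊p.2⌋ - ρ) (⌊p.2⌋ + ρ))
    (fun i hi => Finset.mem_coe.2 (Finset.mem_product.2 ⟨k _ _ (h i hi).1, k _ _ (h i hi).2⟩))
    fun i _ j _ e => by
      simp only [Prod.mk.injEq] at e
      exact P.far (Int.abs_sub_lt_one_of_floor_eq_floor e.1).le
        (Int.abs_sub_lt_one_of_floor_eq_floor e.2).le
  rw [Finset.card_product, Int.card_Icc, Int.card_Icc] at this
  refine this.trans ?_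
  rw [sq]
  exact Nat.mul_le_mul (by omega) (by omega)

end Pack

lemma Small.nonneg {F : ℝ × ℝ → ℝ} {e : ℝ} (h : Small F e) : 0 ≤ e := (abs_nonneg _).trans (h.bd 0)

lemma Small.lipx {F : ℝ × ℝ → ℝ} {e : ℝ} (h : Small F e) (x x' y : ℝ) :
    |F (x, y) - F (x', y)| ≤ e * |x - x'| := by
  simpa [Prod.dist_eq, Real.dist_eq] using h.lip (x, y) (x', y)

lemma Small.lipy {F : ℝ × ℝ → ℝ} {e : ℝ} (h : Small F e) (x y y' : ℝ) :
    |F (x, y) - F (x, y')| ≤ e * |y - y'| := by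
  simpa [Prod.dist_eq, Real.dist_eq] using h.lip (x, y) (x, y')

namespace Shear
variable {I : Type} [Fintype I] {ℓ : ℕ} {q : I → Tq} {F1 F2 : ℝ × ℝ → ℝ} {ε X' Y' : I → ℝ} {e : ℝ}
  (S : Shear ℓ q F1 F2 ε X' Y' e)
include S

lemma eps_le (i : I) : ε i ≤ e :=
  (Finset.single_le_sum (fun j _ => S.nonneg j) (Finset.mem_univ i)).trans S.sum

lemma phi_box (he : e ≤ 1) {p : ℝ × ℝ} (hp : p ∈ box ℓ) : Phi F1 F2 p ∈ box ℓ := by
  obtain ⟨⟨a1, a2⟩, a3, a4⟩ := hp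
  have b1 := S.sm1.lipx p.1 0 p.2
  have b2 := S.sm1.lipx p.1 ℓ p.2
  have b3 := S.sm2.lipy p.1 p.2 0
  have b4 := S.sm2.lipy p.1 p.2 ℓ
  rw [(S.z1 _).1, sub_zero, sub_zero, abs_of_nonneg a1, abs_le] at b1
  rw [(S.z1 _).2, sub_zero, abs_of_nonpos (sub_nonpos.2 a2), abs_le] at b2
  rw [(S.z2 _).1, sub_zero, sub_zero, abs_of_nonneg a3, abs_le] at b3
  rw [(S.z2 _).2, sub_zero, abs_of_nonpos (sub_nonpos.2 a4), abs_le] at b4
  refine ⟨⟨?_, ?_⟩, ?_, ?_⟩ <;> simp only [Phi] <;> nlinarith [b1.1, b2.2, b3.1, b4.2]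

end Shear

lemma Rects.T {I : Type} {M : ℕ} {l r b t : I → ℕ} (h : Rects M l r b t) : Rects M b t l r :=
  ⟨h.bt, h.lr, fun i j x y a c => h.dis i j y x ⟨a.2.2.1, a.2.2.2, a.1, a.2.1⟩
    ⟨c.2.2.1, c.2.2.2, c.1, c.2.1⟩⟩

lemma InR.T {I : Type} {l r b t : I → ℕ} {i : I} {x y : ℕ} (h : InR l r b t i x y) :
    InR b t l r i y x := ⟨h.2.2.1, h.2.2.2, h.1, h.2.1⟩

lemma Orth.symm {E : Type} [Fintype E] {A B : Side E} (h : Orth A B) : Orth B A :=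
  fun W U hW hU => by
    rw [mul_comm, ← h U W hU hW]; exact Finset.sum_congr rfl fun _ _ => mul_comm _ _

lemma Side.Adm.comp {E : Type} {S : Side E} {U : S.V → ℝ} (h : S.Adm U) (φ : ℝ → ℝ) :
    S.Adm fun x => φ (U x) := fun x y hxy => congrArg φ (h x y hxy)

namespace Grid
variable {I J : Type} {G : Grid I J}

lemma T_T (G : Grid I J) : G.T.T = G := rfl

lemma OK.T (h : G.OK) : G.T.OK where
  pos := h.pos
  rects := h.rects.T
  cell j := ⟨(h.cell j).2.1, (h.cell j).1, (h.cell j).2.2.2.1, (h.cell j).2.2.1,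
    fun i k => (h.cell j).2.2.2.2 i k.T⟩
  inj j j' a b := h.inj j j' b a
  cover x y hx hy := by
    rcases h.cover y x hy hx with ⟨i, k⟩ | ⟨j, k⟩ | k | k
    exacts [.inl ⟨i, k.T⟩, .inr (.inl ⟨j, k.2, k.1⟩), .inr (.inr (.inr k)), .inr (.inr (.inl k))]
  free x y i k k' := h.free y x i k.symm k'.T
  excl x y k := h.excl y x k.symm
  one x y := (h.one y x).symm
  both x y a b := (h.both y x b a).imp fun _ k => ⟨k.2.2.1, k.2.2.2, k.1, k.2.1⟩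
  pu i x y a b c d := h.pw i y x c d a b
  pw i x y a b c d := h.pu i y x c d a b

lemma adm_up {U : ℕ × ℕ → ℝ} (hU : G.side.Adm U) {x y y' : ℕ} (hx : x ≤ G.M) (hy : y ≤ y')
    (hy' : y' < G.M) (h : ∀ w, y < w → w ≤ y' → x = 0 ∨ x = G.M ∨ G.PU x w) :
    U (x, y') = U (x, y) := by
  induction y', hy using Nat.le_induction with
  | base => rfl
  | succ w hw ih =>
    rw [← ih (by omega) fun v a b => h v a (by omega)]
    exact (hU (x, w) (x, w + 1) (.inl ⟨hx, hy', rfl, h _ (by omega) le_rfl⟩)).symm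

lemma adm_left {U : ℕ × ℕ → ℝ} (hU : G.side.Adm U) {y : ℕ} (hy : y < G.M) : U (0, y) = U (0, 0) :=
  adm_up hU (Nat.zero_le _) (Nat.zero_le _) hy fun _ _ _ => .inl rfl

lemma adm_right {U : ℕ × ℕ → ℝ} (hU : G.side.Adm U) {y : ℕ} (hy : y < G.M) :
    U (G.M, y) = U (G.M, 0) :=
  adm_up hU le_rfl (Nat.zero_le _) hy fun _ _ _ => .inr (.inl rfl)

lemma OK.adm_in (h : G.OK) {U : ℕ × ℕ → ℝ} (hU : G.side.Adm U) (i : I) {x y : ℕ} (h1 : G.l i ≤ x)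
    (h2 : x ≤ G.r i) (h3 : G.b i ≤ y) (h4 : y < G.t i) : U (x, y) = U (x, G.b i) :=
  adm_up hU (h2.trans (h.rects.lr i).2) h3 (h4.trans_le (h.rects.bt i).2) fun w a b =>
    .inr (.inr (h.pu i x w h1 h2 a (by omega)))

lemma adm_Z {U : ℕ × ℕ → ℝ} (hU : G.side.Adm U) {x y : ℕ} (hx : x < G.M) (hy : y < G.M)
    (h : G.Z x y) : U (x + 1, y) = U (x, y) :=
  (hU (x, y) (x + 1, y) (.inr ⟨hx, hy, rfl, h⟩)).symm

/-- splitting a sum over all cells into rectangles, resistor cells and a set `χ` of other cells -/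
lemma OK.split [Fintype I] [Fintype J] (h : G.OK) (φ : ℕ → ℕ → ℝ) (χ : Finset (ℕ × ℕ))
    (h1 : ∀ u ∈ χ, u.1 < G.M ∧ u.2 < G.M ∧ (G.Z u.1 u.2 ∨ G.Z' u.1 u.2))
    (h2 : ∀ x y, x < G.M → y < G.M → G.Z x y ∨ G.Z' x y → (x, y) ∉ χ → φ x y = 0) :
    ∑ x ∈ range G.M, ∑ y ∈ range G.M, φ x y =
      ∑ i, ∑ x ∈ Finset.Ico (G.l i) (G.r i), ∑ y ∈ Finset.Ico (G.b i) (G.t i), φ x y +
        ∑ j, φ (G.px j) (G.py j) + ∑ u ∈ χ, φ u.1 u.2 := by
  classical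
  let R : I → Finset (ℕ × ℕ) := fun i => Finset.Ico (G.l i) (G.r i) ×ˢ Finset.Ico (G.b i) (G.t i)
  have mR : ∀ i u, u ∈ R i ↔ InR G.l G.r G.b G.t i u.1 u.2 := fun i u => by
    simp only [R, Finset.mem_product, Finset.mem_Ico, InR, and_assoc]
  let C : Finset (ℕ × ℕ) := Finset.univ.image fun j => (G.px j, G.py j)
  have mC : ∀ u, u ∈ C ↔ ∃ j, (G.px j, G.py j) = u := fun u => by simp [C]
  have e1 : ∑ u ∈ Finset.univ.biUnion R, φ u.1 u.2 =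
      ∑ i, ∑ x ∈ Finset.Ico (G.l i) (G.r i), ∑ y ∈ Finset.Ico (G.b i) (G.t i), φ x y := by
    rw [Finset.sum_biUnion fun i _ j _ hij => Finset.disjoint_left.2 fun u a b =>
      hij (h.rects.dis i j _ _ ((mR i u).1 a) ((mR j u).1 b))]
    exact Finset.sum_congr rfl fun i _ => Finset.sum_product' _ _ φ
  have e2 : ∑ u ∈ C, φ u.1 u.2 = ∑ j, φ (G.px j) (G.py j) :=
    Finset.sum_image fun j _ j' _ e => h.inj j j' (congrArg Prod.fst e) (congrArg Prod.snd e)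
  have d1 : Disjoint (Finset.univ.biUnion R) C := Finset.disjoint_left.2 fun u a b => by
    obtain ⟨i, -, a⟩ := Finset.mem_biUnion.1 a
    obtain ⟨j, rfl⟩ := (mC u).1 b
    exact (h.cell j).2.2.2.2 i ((mR i _).1 a)
  have d2 : Disjoint (Finset.univ.biUnion R ∪ C) χ := Finset.disjoint_left.2 fun u a b => by
    rcases Finset.mem_union.1 a with a | a
    · obtain ⟨i, -, a⟩ := Finset.mem_biUnion.1 a
      exact h.free _ _ i (h1 u b).2.2 ((mR i _).1 a)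
    · obtain ⟨j, rfl⟩ := (mC u).1 a
      exact (h1 _ b).2.2.elim (h.cell j).2.2.1 (h.cell j).2.2.2.1
  rw [← e1, ← e2, ← Finset.sum_union d1, ← Finset.sum_union d2, ← Finset.sum_product' _ _ φ]
  refine (Finset.sum_subset (fun u a => ?_) fun u a b => ?_).symm
  · simp only [Finset.mem_product, Finset.mem_range]
    rcases Finset.mem_union.1 a with a | a
    · rcases Finset.mem_union.1 a with a | a
      · obtain ⟨i, -, a⟩ := Finset.mem_biUnion.1 a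
        have := (mR i _).1 a
        exact ⟨this.2.1.trans_le (h.rects.lr i).2, this.2.2.2.trans_le (h.rects.bt i).2⟩
      · obtain ⟨j, rfl⟩ := (mC u).1 a
        exact ⟨(h.cell j).1, (h.cell j).2.1⟩
    · exact ⟨(h1 u a).1, (h1 u a).2.1⟩
  · simp only [Finset.mem_product, Finset.mem_range] at a
    simp only [Finset.mem_union, not_or] at b
    rcases h.cover _ _ a.1 a.2 with ⟨i, k⟩ | ⟨j, k⟩ | k
    · exact absurd (Finset.mem_biUnion.2 ⟨i, Finset.mem_univ _, (mR i u).2 k⟩) b.1.1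
    · exact absurd ((mC u).2 ⟨j, Prod.ext k.1 k.2⟩) b.1.2
    · exact h2 _ _ a.1 a.2 k b.2

end Grid

end
end Pool.Agent.MP_a421c2_co.Ex

end MrgPart1

-- ======== part 2: formerly Pool.Agent.MP_a421c2_co.Ex.Cell
section MrgPart2

/-! # CELL: classification of the uncovered cells -/

set_option autoImplicit false
open MeasureTheory Set Real
open Finset (range)

namespace Pool.Agent.MP_a421c2_co.Ex

namespace CellM
variable {I : Type} {M s : ℕ} {l r b t : I → ℕ}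

/-- the cell `(x, y)` lies in a horizontal run of at least `s` uncovered cells -/
def H (M s : ℕ) (l r b t : I → ℕ) (x y : ℕ) : Prop :=
  y < M ∧ ∃ x1 x2, x1 ≤ x ∧ x < x2 ∧ x2 ≤ M ∧ x1 + s ≤ x2 ∧
    ∀ x', x1 ≤ x' → x' < x2 → ∀ i, ¬ InR l r b t i x' y

lemma H.lt {x y : ℕ} (h : H M s l r b t x y) : x < M ∧ y < M := by
  obtain ⟨a, x1, x2, -, c, d, -⟩ := h
  exact ⟨c.trans_le d, a⟩

lemma H.free {x y : ℕ} (h : H M s l r b t x y) (i : I) : ¬ InR l r b t i x y := by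
  obtain ⟨-, x1, x2, a, c, -, -, e⟩ := h
  exact e x a c i

lemma H.run {x y : ℕ} (h : H M s l r b t x y) : ∃ x1 x2, x1 ≤ x ∧ x < x2 ∧ x1 + s ≤ x2 ∧
    ∀ x', x1 ≤ x' → x' < x2 → H M s l r b t x' y := by
  obtain ⟨a, x1, x2, c, d, e, f, g⟩ := h
  exact ⟨x1, x2, c, d, f, fun x' p q => ⟨a, x1, x2, p, q, e, f, g⟩⟩

/-- a cell in no long run is close to a covered cell of its row -/
lemma near {x y : ℕ} (h0 : 0 < s) (hs : s ≤ M) (hx : x < M) (hy : y < M)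
    (h : ¬ H M s l r b t x y) : ∃ i x', InR l r b t i x' y ∧ x' < x + s ∧ x < x' + s := by
  by_contra hc
  refine h ⟨hy, min x (M - s), min x (M - s) + s, min_le_left _ _, by omega, by omega, le_rfl,
    fun x' p q i k => hc ⟨i, x', k, by omega, by omega⟩⟩

/-- an uncovered cell in no long run is close to a corner -/
lemma corner (hR : Rects M l r b t) {x y x' y' : ℕ} {i j : I} (hf : ∀ k, ¬ InR l r b t k x y)
    (hi : InR l r b t i x' y) (hj : InR l r b t j x y') (a1 : x' < x + s) (a2 : x < x' + s)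
    (a3 : y' < y + s) (a4 : y < y' + s) :
    ∃ k X Y, (X = l k ∨ X = r k) ∧ (Y = b k ∨ Y = t k) ∧ x ≤ X + s ∧ X ≤ x + s ∧
      y ≤ Y + s ∧ Y ≤ y + s := by
  have hne : i ≠ j := by
    rintro rfl
    exact hf i ⟨hj.1, hj.2.1, hi.2.2.1, hi.2.2.2⟩
  have hd : ∀ u v, ¬ (InR l r b t i u v ∧ InR l r b t j u v) := fun u v k =>
    hne (hR.dis i j u v k.1 k.2)
  have fi := hf i
  have fj := hf j
  simp only [InR] at hi hj fi fj hd
  have li := (hR.lr i).1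
  have bj := (hR.bt j).1
  rcases lt_or_ge x (l i) with p | p <;> rcases lt_or_ge y (b j) with q | q
  · have := hd (l i) (b j)
    rcases le_or_gt (t i) (y + s) with c | c
    · exact ⟨i, l i, t i, .inl rfl, .inr rfl, by omega, by omega, by omega, by omega⟩
    · exact ⟨j, r j, b j, .inr rfl, .inl rfl, by omega, by omega, by omega, by omega⟩
  · have := hd (l i) (t j - 1)
    rcases le_or_gt y (b i + s) with c | c
    · exact ⟨i, l i, b i, .inl rfl, .inl rfl, by omega, by omega, by omega, by omega⟩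
    · exact ⟨j, r j, t j, .inr rfl, .inr rfl, by omega, by omega, by omega, by omega⟩
  · have := hd (r i - 1) (b j)
    rcases le_or_gt (t i) (y + s) with c | c
    · exact ⟨i, r i, t i, .inr rfl, .inr rfl, by omega, by omega, by omega, by omega⟩
    · exact ⟨j, l j, b j, .inl rfl, .inl rfl, by omega, by omega, by omega, by omega⟩
  · have := hd (r i - 1) (t j - 1)
    rcases le_or_gt y (b i + s) with c | c
    · exact ⟨i, r i, b i, .inr rfl, .inl rfl, by omega, by omega, by omega, by omega⟩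
    · exact ⟨j, l j, t j, .inl rfl, .inr rfl, by omega, by omega, by omega, by omega⟩

lemma both (hR : Rects M l r b t) {x y : ℕ} {i j : I}
    (hi : l i ≤ x ∧ x ≤ r i ∧ b i < y ∧ y < t i) (hj : l j < x ∧ x < r j ∧ b j ≤ y ∧ y ≤ t j) :
    i = j := by
  have li := (hR.lr i).1
  have bj := (hR.bt j).1
  refine hR.dis i j (min x (r i - 1)) (min y (t j - 1)) ⟨?_, ?_, ?_, ?_⟩ ⟨?_, ?_, ?_, ?_⟩ <;> omega

end CellM

open CellM in
theorem cell_of : CellStmt := by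
  classical
  intro I _ M s l r b t hR h0 hs
  let wst : Finset (ℕ × ℕ) := (range M ×ˢ range M).filter fun u => ∀ i, ¬ InR l r b t i u.1 u.2
  have mw : ∀ u, u ∈ wst ↔ u.1 < M ∧ u.2 < M ∧ ∀ i, ¬ InR l r b t i u.1 u.2 := fun u => by
    simp only [wst, Finset.mem_filter, Finset.mem_product, Finset.mem_range, and_assoc]
  let res : Finset (ℕ × ℕ) := wst.filter fun u => ¬ H M s l r b t u.1 u.2 ∧ ¬ H M s b t l r u.2 u.1
  have mr : ∀ u, u ∈ res ↔ u ∈ wst ∧ ¬ H M s l r b t u.1 u.2 ∧ ¬ H M s b t l r u.2 u.1 := fun u =>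
    Finset.mem_filter
  let χ : Finset (ℕ × ℕ) := (range M ×ˢ range M).filter fun u => H M s l r b t u.1 u.2
  have mc : ∀ u, u ∈ χ ↔ H M s l r b t u.1 u.2 := fun u => by
    simp only [χ, Finset.mem_filter, Finset.mem_product, Finset.mem_range]
    exact ⟨fun k => k.2, fun k => ⟨k.lt, k⟩⟩
  let χ' : Finset (ℕ × ℕ) := (range M ×ˢ range M).filter fun u => H M s b t l r u.1 u.2
  have mc' : ∀ u, u ∈ χ' ↔ H M s b t l r u.1 u.2 := fun u => by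
    simp only [χ', Finset.mem_filter, Finset.mem_product, Finset.mem_range]
    exact ⟨fun k => k.2, fun k => ⟨k.lt, k⟩⟩
  have sub : res ⊆ wst := Finset.filter_subset _ _
  have card : ∀ c : Finset (ℕ × ℕ), c ⊆ wst → Disjoint c res → c.card + res.card ≤ wst.card :=
    fun c a d => by
      rw [← Finset.card_union_of_disjoint d]
      exact Finset.card_le_card (Finset.union_subset a sub)
  let PU : ℕ → ℕ → Prop := fun x y => ∃ i, l i ≤ x ∧ x ≤ r i ∧ b i < y ∧ y < t i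
  let G : Grid I res := ⟨M, l, r, b, t, fun j => j.1.1, fun j => j.1.2, PU,
    fun x y => (∃ i, l i < x ∧ x < r i ∧ b i ≤ y ∧ y ≤ t i) ∨ ¬ PU x y,
    fun x y => H M s b t l r y x ∧ ¬ H M s l r b t x y, fun x y => H M s l r b t x y⟩
  refine ⟨res, wst, χ, χ', G, ⟨h0.trans_le hs, hR, fun j => ?_, fun j j' p q => ?_,
    fun x y hx hy => ?_, fun x y i k => ?_, fun x y k => k.1.2 k.2, fun x y => ?_,
    fun x y p q => ?_, fun i x y p q u v => ⟨i, p, q, u, v⟩,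
    fun i x y p q u v => .inl ⟨i, p, q, u, v⟩⟩, rfl, rfl, rfl, rfl, rfl,
    ⟨fun u k => ?_, fun x y _ _ k => .inl ((mc _).2 k), fun u k => ?_⟩,
    ⟨fun u k => ?_, fun x y _ _ k => .inl ((mc' _).2 k.1), fun u k => ?_⟩,
    fun u k => (mw u).1 k, sub, card _ (fun u k => ?_) ?_, ?_, fun u k => ?_⟩
  · obtain ⟨a, c, d⟩ := (mr _).1 j.2
    obtain ⟨e, f, g⟩ := (mw _).1 a
    exact ⟨e, f, fun k => d k.1, c, g⟩
  · exact Subtype.ext (Prod.ext p q)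
  · by_cases a : ∃ i, InR l r b t i x y
    · exact .inl a
    by_cases c : H M s l r b t x y
    · exact .inr (.inr (.inr c))
    by_cases d : H M s b t l r y x
    · exact .inr (.inr (.inl ⟨d, c⟩))
    exact .inr (.inl ⟨⟨(x, y), (mr _).2 ⟨(mw _).2 ⟨hx, hy, fun i k => a ⟨i, k⟩⟩, c, d⟩⟩, rfl, rfl⟩)
  · rcases k with k | k
    exacts [fun a => k.1.free i a.T, k.free i]
  · exact (em (PU x y)).imp_right .inr
  · obtain ⟨j, hj⟩ := q.resolve_right (not_not.2 p)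
    obtain ⟨i, hi⟩ := p
    obtain rfl := both hR hi hj
    exact ⟨i, hj.1, hj.2.1, hi.2.2.1, hi.2.2.2⟩
  · have a := (mc u).1 k
    exact ⟨a.lt.1, a.lt.2, .inr a⟩
  · obtain ⟨x1, x2, a, c, d, e⟩ := ((mc u).1 k).run
    exact ⟨x1, x2, a, c, d, fun x p q => (mc _).2 (e x p q)⟩
  · have a := (mc' u).1 k
    exact ⟨a.lt.1, a.lt.2, (em (H M s l r b t u.2 u.1)).imp_right fun c => ⟨a, c⟩⟩
  · obtain ⟨x1, x2, a, c, d, e⟩ := ((mc' u).1 k).run
    exact ⟨x1, x2, a, c, d, fun x p q => (mc' _).2 (e x p q)⟩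
  · have a := (mc u).1 k
    exact (mw u).2 ⟨a.lt.1, a.lt.2, a.free⟩
  · exact Finset.disjoint_left.2 fun u a c => ((mr u).1 c).2.1 ((mc u).1 a)
  · rw [← Finset.card_image_of_injective χ' Prod.swap_injective]
    refine card _ (fun u k => ?_) (Finset.disjoint_left.2 fun u k c => ?_)
    · obtain ⟨v, a, rfl⟩ := Finset.mem_image.1 k
      have a := (mc' v).1 a
      exact (mw _).2 ⟨a.lt.2, a.lt.1, fun i c => a.free i c.T⟩
    · obtain ⟨v, a, rfl⟩ := Finset.mem_image.1 k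
      exact ((mr _).1 c).2.2 ((mc' v).1 a)
  · obtain ⟨a, c, d⟩ := (mr _).1 k
    obtain ⟨e, f, g⟩ := (mw _).1 a
    obtain ⟨i, x', hi, a1, a2⟩ := near h0 hs e f c
    obtain ⟨j, y', hj, a3, a4⟩ := near h0 hs f e d
    exact corner hR g hi hj.T a1 a2 a3 a4

end Pool.Agent.MP_a421c2_co.Ex

end MrgPart2

-- marker of a merged file
example : 731051 + 740906 = 731051 + 740906 := rfl
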