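import Mathlib.Topology.Sheaves.Presheaf
import Mathlib.Data.Int.Star
import Mathlib.Algebra.Order.Ring.Star
import Mathlib.Analysis.CStarAlgebra.Classes
import Mathlib.Analysis.SpecialFunctions.Trigonometric.Bounds
import Mathlib.MeasureTheory.Measure.Hausdorff
import Mathlib.RingTheory.PiTensorProduct
import Pool.Agent.MP_a421c2_co.Ex.Cell

-- ======== part 0: formerly Pool.Agent.MP_a421c2_co.Ex.Main
section MrgPart0

/-! # Assembly: CORE and MAIN -/

set_option autoImplicit false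
open MeasureTheory Set Real
open Finset (range)

namespace Pool.Agent.MP_a421c2_co.Ex
noncomputable section

namespace Main

lemma sum_lin {I : Type} [Fintype I] (ε : I → ℝ) (a b : ℝ) :
    ∑ i, (a * ε i + b) = a * ∑ i, ε i + Fintype.card I * b := by
  rw [Finset.sum_add_distrib, ← Finset.mul_sum, Finset.sum_const, Finset.card_univ, nsmul_eq_mul]

/-- the numerical part of CORE -/
lemma core_num {C s0 W wm e u A At S : ℝ} (hC : 1 ≤ C) (hs : s0 = 1 / (10 ^ 8 * C))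
    (hW : W ≤ s0 / (1000 * C)) (hwm0 : 0 ≤ wm) (hwm : wm ≤ W) (he : e = 4 * (C * wm))
    (hu0 : 0 ≤ u) (hu : u ≤ s0 / (1000 * C)) (hS0 : 0 ≤ S) (hS : S ≤ 2 * e + 3 * u) (hA0 : 0 ≤ A)
    (hA : A ≤ (1 + 3 * e) * (W - wm + 32768 * (8 * s0) * S)) (hAt : At ≤ (1 + 3 * e) * (W + 13 * S)) :
    4 * e + 4 * u ≤ 257 * C * (W - A + 2 * u) ∧ At - A ≤ 257 * C * (W - A + 2 * u) ∧
      257 * C * (W - A + 2 * u) ≤ s0 := by
  have C0 : 0 < C := by linarith
  have s00 : 0 < s0 := by rw [hs]; positivity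
  have sC : s0 * C = 1 / 10 ^ 8 := by rw [hs]; field_simp
  have s1' : s0 ≤ 1 / 10 ^ 8 := by linarith [le_mul_of_one_le_right s00.le hC]
  have W1 : C * W ≤ s0 / 1000 := by
    rw [le_div_iff₀ (by positivity)] at hW; linarith
  have u1 : C * u ≤ s0 / 1000 := by
    rw [le_div_iff₀ (by positivity)] at hu; linarith
  have W0 : 0 ≤ W := hwm0.trans hwm
  have e0 : 0 ≤ e := by rw [he]; positivity
  have e1 : e ≤ 1 / 100 := by linarith [mul_le_mul_of_nonneg_left hwm C0.le]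
  obtain ⟨y, hy⟩ : ∃ y, y = 32768 * (8 * s0) * S := ⟨_, rfl⟩
  rw [← hy] at hA
  have y0 : 0 ≤ y := by rw [hy]; positivity
  have y1 : C * y ≤ (2 * e + 3 * u) / 300 := by
    have : C * y = 262144 * (s0 * C) * S := by rw [hy]; ring
    rw [this, sC]; linarith
  have a1 : A ≤ W - wm + 103 / 100 * y + 3 * e * W := by
    linarith [mul_le_mul_of_nonneg_right e1 y0, mul_nonneg e0 hwm0]
  have a2 : C * W ≤ 1 / 300 := by linarith
  have a5 : u ≤ C * u := le_mul_of_one_le_left hu0 hC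
  have a3 : e ≤ 8 * (C * (W - A + u)) := by
    linarith [mul_le_mul_of_nonneg_left a1 C0.le, mul_le_mul_of_nonneg_left a2 e0]
  have a6 : 0 ≤ W - A + u := nonneg_of_mul_nonneg_right (by linarith) C0
  have a7 : W - A + u ≤ C * (W - A + u) := le_mul_of_one_le_left a6 hC
  have W2 : W ≤ 1 / 3 := by linarith [le_mul_of_one_le_left W0 hC]
  refine ⟨by linarith, ?_, by linarith [mul_nonneg C0.le hA0]⟩
  linarith [mul_le_mul_of_nonneg_left W2 e0, mul_le_mul_of_nonneg_right e1 hS0]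

lemma cell_pt {ℓ h s0 w : ℝ} {M s v v' : ℕ} (h0 : 0 < h) (lm : (M : ℝ) * h = ℓ) (hs : h ≤ s0 / 2)
    (c6 : s * h ≤ s0 + h) (b1 : v < M) (b2 : v ≤ v' + s) (b3 : v' ≤ v + s) (b4 : v * h ≤ w)
    (b5 : w < (v + 1) * h) : w ∈ Icc (0 : ℝ) ℓ ∧ |w - v' * h| ≤ 2 * s0 := by
  have b1' : (v : ℝ) + 1 ≤ M := by exact_mod_cast b1
  have b2' : (v : ℝ) ≤ v' + s := by exact_mod_cast b2
  have b3' : (v' : ℝ) ≤ v + s := by exact_mod_cast b3
  have b6 : 0 ≤ (v : ℝ) * h := by positivity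
  have b7 := mul_le_mul_of_nonneg_right b1' h0.le
  have b8 := mul_le_mul_of_nonneg_right b2' h0.le
  have b9 := mul_le_mul_of_nonneg_right b3' h0.le
  exact ⟨⟨by linarith, by linarith⟩, abs_le.2 ⟨by linarith, by linarith⟩⟩

end Main

open Main in
theorem core_of (h1 : TiltStmt) (h2 : ShearStmt) (h3 : RectStmt) (h4 : AreaStmt) (h5 : CellStmt)
    (h6 : GridStmt) (h7 : LeakStmt) : CoreStmt := by
  obtain ⟨C, w0, hC, hw0, h1⟩ := h1
  have C0 : 0 < C := by linarith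
  obtain ⟨s0, hs⟩ : ∃ s0 : ℝ, s0 = 1 / (10 ^ 8 * C) := ⟨_, rfl⟩
  have s00 : 0 < s0 := by rw [hs]; positivity
  have sC : s0 * C = 1 / 10 ^ 8 := by rw [hs]; field_simp
  have s1' : s0 ≤ 1 / 10 ^ 8 := by linarith [le_mul_of_one_le_right s00.le hC]
  refine ⟨s0 / (2570 * C), min w0 (s0 / (1000 * C)), by positivity, by positivity,
    fun I _ ℓ q P hℓ hW η hη => ?_⟩
  obtain ⟨t, Ω, hT, hΩ⟩ := h1 I ℓ q P (hW.trans (min_le_left _ _))
  replace hW := hW.trans (min_le_right _ _)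
  have wm0 : 0 ≤ wmid ℓ q := Pack.wmid_nonneg
  have wm1 := P.wmid_le
  have W1 : C * waste ℓ q ≤ s0 / 1000 := by
    rw [le_div_iff₀ (by positivity)] at hW; linarith
  have e1 : 4 * (C * wmid ℓ q) ≤ s0 := by linarith [mul_le_mul_of_nonneg_left wm1 C0.le]
  obtain ⟨F1, F2, ε, X', Y', S⟩ := h2 I ℓ q t Ω _ P hT hΩ (by linarith)
  obtain ⟨e, he⟩ : ∃ e, e = 4 * (C * wmid ℓ q) := ⟨_, rfl⟩
  rw [← he] at S e1
  have e2 : e ≤ 1 / 100 := by linarith
  obtain ⟨u0, hu0, hu1, hu2⟩ : ∃ u0 : ℝ, 0 < u0 ∧ u0 ≤ η / 2 ∧ u0 ≤ s0 / (1000 * C) :=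
    ⟨min _ _, by positivity, min_le_left _ _, min_le_right _ _⟩
  obtain ⟨m, hm⟩ := exists_nat_ge (100 + 2 / s0 + Fintype.card I / u0)
  have p1 : 0 < 2 / s0 := by positivity
  have p2 : 0 ≤ Fintype.card I / u0 := by positivity
  have m1 : (100 : ℝ) ≤ m := by linarith
  have m0 : (0 : ℝ) < m := by linarith
  have hm1 : 100 ≤ m := by exact_mod_cast m1
  obtain ⟨l, r, b, t', R, Ft⟩ := h3 I ℓ m q F1 F2 ε X' Y' e P S e2 hm1
  obtain ⟨h, hh⟩ : ∃ h : ℝ, h = 1 / m := ⟨_, rfl⟩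
  have h0 : 0 < h := by rw [hh]; positivity
  have hm2 : m * h = 1 := by rw [hh]; field_simp
  have hs2 : h ≤ s0 / 2 := by
    have : 2 / s0 ≤ m := by linarith
    rw [div_le_iff₀ s00] at this
    linarith [mul_le_mul_of_nonneg_right this h0.le, congrArg (· * s0) hm2]
  have hu : Fintype.card I * h ≤ u0 := by
    have : Fintype.card I / u0 ≤ m := by linarith
    rw [div_le_iff₀ hu0] at this
    linarith [mul_le_mul_of_nonneg_right this h0.le, congrArg (· * u0) hm2]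
  have l1 : (1 : ℝ) ≤ ℓ := by exact_mod_cast hℓ
  have c1 : s0 * m ≤ ⌈s0 * m⌉₊ := Nat.le_ceil _
  have c2 : (⌈s0 * m⌉₊ : ℝ) < s0 * m + 1 := Nat.ceil_lt_add_one (by positivity)
  have c3 : 0 < ⌈s0 * m⌉₊ := Nat.ceil_pos.2 (by positivity)
  have c4 : ⌈s0 * m⌉₊ ≤ ℓ * m := Nat.ceil_le.2 (by push_cast; gcongr; linarith)
  generalize ⌈s0 * m⌉₊ = s at c1 c2 c3 c4
  have c7 : s0 * (m * h) = s0 := by rw [hm2, mul_one]
  have c5 : s0 ≤ s * h := by linarith [mul_le_mul_of_nonneg_right c1 h0.le]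
  have c6 : s * h ≤ s0 + h := by linarith [mul_le_mul_of_nonneg_right c2.le h0.le]
  obtain ⟨res, wst, χ, χ', G, ok, gM, rfl, rfl, rfl, rfl, r1, r2, w1, w2, k1, k2, cor⟩ :=
    h5 I (ℓ * m) s l r b t' R c3 c4
  have lm : ((ℓ * m : ℕ) : ℝ) * h = ℓ := by push_cast; rw [mul_assoc, hm2, mul_one]
  have a1 := (h4 I ℓ m q F1 F2 ε X' Y' e _ _ _ _ wst P S e2 hm1 Ft w1).1
  have a2 := (h4 I ℓ m q F1 F2 ε X' Y' e _ _ _ _ res P S e2 hm1 Ft fun x hx => w1 x (w2 hx)).2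
    (8 * s0) (by positivity) (by rw [s1]; linarith) fun x hx p q1 q2 q3 q4 => by
      rw [← hh] at q1 q2 q3 q4 Ft
      obtain ⟨i, x', y', o1, o2, o3, o4, o5, o6⟩ := cor x hx
      have k1 := cell_pt h0 lm hs2 c6 (w1 x (w2 hx)).1 o3 o4 q1 q2
      have k2 := cell_pt h0 lm hs2 c6 (w1 x (w2 hx)).2.1 o5 o6 q3 q4
      exact ⟨i, (q i).cn_mono (by linarith [S.eps_le i])
        (Ft.cor i p ⟨k1.1, k2.1⟩ x' y' (2 * s0) o1 o2 (by linarith) k1.2 k2.2)⟩
  rw [← hh] at a1 a2 Ft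
  have sm := S.sum
  have e0 := S.sm1.nonneg
  have se : 0 ≤ ∑ i, ε i := Finset.sum_nonneg fun i _ => S.nonneg i
  obtain ⟨n1, n2, n3⟩ := core_num (u := Fintype.card I * h) hC hs hW wm0 wm1 he (by positivity)
    (hu.trans hu2) (Finset.sum_nonneg fun i _ => by linarith [S.nonneg i])
    (by rw [sum_lin]; linarith) (by positivity) a2 a1
  obtain ⟨e', he'⟩ : ∃ e', e' * s0 =
      257 * C * (waste ℓ q - h ^ 2 * res.card + 2 * (Fintype.card I * h)) :=
    ⟨_, div_mul_cancel₀ _ s00.ne'⟩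
  rw [← he'] at n1 n2 n3
  have u00 : 0 ≤ Fintype.card I * h := by positivity
  have f0 : 0 ≤ e' := nonneg_of_mul_nonneg_left (by linarith) s00
  have f1 : e' ≤ 1 := le_of_mul_le_mul_right (by linarith) s00
  have f2 : e' * s0 ≤ e' := mul_le_of_le_one_right f0 (by linarith)
  have f3 : e ≤ e' := by linarith
  have f4 : ∑ i, (4 * ε i + 4 * h) ≤ e' := by rw [sum_lin]; linarith
  have f5 : ∀ c : Finset (ℕ × ℕ), c.card + res.card ≤ wst.card → h * c.card ≤ e' * s := fun c hc => by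
    have hc' : (c.card : ℝ) + res.card ≤ wst.card := by exact_mod_cast hc
    have : h * (h * c.card) ≤ h * (e' * s) := by
      linarith [mul_le_mul_of_nonneg_left hc' (sq_nonneg h), mul_le_mul_of_nonneg_left c5 f0]
    exact le_of_mul_le_mul_left this h0
  have lp : ∀ y : ℕ, |((y + 1 : ℕ) : ℝ) * h - y * h| = h := fun y => by
    push_cast; rw [add_mul, one_mul, add_sub_cancel_left, abs_of_pos h0]
  have L1 := h7 I res G χ s (fun x y => F2 (x * h, y * h)) (fun i => (q i).d) _ h e' ok r1 c3 h0 f1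
    (fun x => by simp only [gM, lm, Nat.cast_zero, zero_mul]; exact S.z2 _)
    (fun x y => (S.sm2.lipy _ _ _).trans (by rw [lp]; gcongr))
    (by simpa only [mix, Nat.cast_succ] using (S.sm2.var G.M h h0.le).trans f3) Ft.hgt f4 (f5 _ k1)
  have L2 := h7 I res G.T χ' s (fun x y => F1 (y * h, x * h)) (fun i => (q i).d) _ h e' ok.T r2 c3 h0
    f1 (fun x => by simp only [show G.T.M = ℓ * m from gM, lm, Nat.cast_zero, zero_mul]; exact S.z1 _)
    (fun x y => (S.sm1.lipx _ _ _).trans (by rw [lp]; gcongr))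
    (by
      rw [Finset.sum_comm]
      refine le_trans (le_of_eq ?_) ((S.sm1.var G.M h h0.le).trans f3)
      refine Finset.sum_congr rfl fun x _ => Finset.sum_congr rfl fun y _ => congrArg _ ?_
      simp only [mix, Nat.cast_succ]; ring) Ft.wid f4 (f5 _ k2)
  rw [gM, lm] at L1
  rw [show G.T.M = ℓ * m from gM, lm] at L2
  refine ⟨res, inferInstance, G.side, G.T.side, h, 10 * e', (h6 I res G ok).1, (h6 I res G ok).2,
    (h6 I res G.T ok.T).2, by positivity, L1, L2, ?_⟩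
  have : s0 / (2570 * C) * (10 * e') =
      waste ℓ q - h ^ 2 * res.card + 2 * (Fintype.card I * h) := by
    have : s0 / (2570 * C) * (10 * e') = e' * s0 / (257 * C) := by field_simp; ring
    rw [this, he']; field_simp
  rw [this, Fintype.sum_sum_type, waste]
  simp only [Sum.elim_inl, Sum.elim_inr, Finset.sum_const, Finset.card_univ, Fintype.card_coe,
    nsmul_eq_mul]
  linarith

namespace Main

/-- rotation of the own frame by `k` right angles -/
def rot (q : Tq) (k : ℤ) : Tq := ⟨q.X, q.Y, q.θ + k * (π / 2), q.d⟩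

lemma rot_succ (q : Tq) (k : ℤ) : (rot q (k + 1)).cl 0 = (rot q k).cl 0 := by
  have e : q.θ + ((k + 1 : ℤ) : ℝ) * (π / 2) = q.θ + k * (π / 2) + π / 2 := by push_cast; ring
  have e1 : ∀ z, (rot q (k + 1)).xi z = (rot q k).ze z := fun z => by
    simp only [rot, Tq.xi, Tq.ze, e, cos_add_pi_div_two, sin_add_pi_div_two]; ring
  have e2 : ∀ z, (rot q (k + 1)).ze z = -(rot q k).xi z := fun z => by
    simp only [rot, Tq.xi, Tq.ze, e, cos_add_pi_div_two, sin_add_pi_div_two]; ring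
  ext z
  simp only [Tq.cl, mem_ofPred_eq, e1, e2, abs_neg]
  exact and_comm

lemma rot_cl (q : Tq) (k : ℤ) : (rot q k).cl 0 = q.cl 0 := by
  induction k using Int.induction_on with
  | zero => simp [rot]
  | succ k ih => rw [rot_succ, ih]
  | pred k ih => rw [← rot_succ, sub_add_cancel, ih]

lemma normal {t : ℝ} (ht : 0 < t) (x y θ s : ℝ) : ∃ q : Tq, q.d = t * s ∧ |q.θ| ≤ π / 4 ∧
    ∀ z ∈ q.cl 0, t⁻¹ • z ∈ square x y θ s := by
  let q : Tq := ⟨t * x + t * s / 2 * (cos θ - sin θ), t * y + t * s / 2 * (sin θ + cos θ), θ, t * s⟩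
  refine ⟨rot q (-round (θ / (π / 2))), rfl, ?_, fun z hz => ?_⟩
  · have h1 := abs_sub_round (θ / (π / 2))
    have h2 : (0 : ℝ) < π / 2 := by positivity
    have e : (rot q (-round (θ / (π / 2)))).θ = (θ / (π / 2) - round (θ / (π / 2))) * (π / 2) := by
      simp only [rot, q]; push_cast; field_simp; ring
    rw [e, abs_mul, abs_of_pos h2]
    linarith [mul_le_mul_of_nonneg_right h1 h2.le]
  · rw [rot_cl] at hz
    obtain ⟨h1, h2⟩ := hz
    rw [sub_zero, abs_le, show q.d = t * s from rfl] at h1 h2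
    refine ⟨(q.xi z + t * s / 2) / t, ⟨div_nonneg (by linarith [h1.1]) ht.le,
      (div_le_iff₀' ht).2 (by linarith [h1.2])⟩, (q.ze z + t * s / 2) / t,
      ⟨div_nonneg (by linarith [h2.1]) ht.le, (div_le_iff₀' ht).2 (by linarith [h2.2])⟩, ?_⟩
    have a1 := q.fst_eq z
    have a2 := q.snd_eq z
    generalize q.xi z = u at a1 a2 ⊢
    generalize q.ze z = v at a1 a2 ⊢
    simp only [q] at a1 a2
    refine Prod.ext ?_ ?_
    · simp only [Prod.smul_fst, smul_eq_mul, a1]; field_simp; ring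
    · simp only [Prod.smul_snd, smul_eq_mul, a2]; field_simp; ring

/-- a block of `v * v` equal squares in the corner of side `u`, unit squares elsewhere -/
lemma lower (u v l : ℕ) (hv : 0 < v) (hK : 0 < u + l) :
    ((u * v : ℝ) + l * (2 * u + l)) / (u + l) ≤ f (v * v + l * (2 * u + l)) := by
  have v0 : (0 : ℝ) < v := by exact_mod_cast hv
  have K0 : (0 : ℝ) < u + l := by exact_mod_cast hK
  have p0 := grid 0 0 ((u : ℝ) / v) (by positivity) v v
  rw [zero_add, mul_div_cancel₀ _ v0.ne'] at p0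
  have p1 := (p0.embed (l := l)).scale (t := 1 / (u + l)) (by positivity)
  rw [one_div_mul_cancel K0.ne'] at p1
  exact le_trans (le_of_eq (by field_simp)) p1.le_f

lemma es_le (K : ℕ) (c : ℤ) (r : ℕ) (hc : |c| < K) (h2 : 2 ≤ |c|) (hr : (r : ℤ) = K ^ 2 + 2 * c + 1) :
    (K : ℝ) + c / K ≤ f r := by
  obtain ⟨u, rfl | rfl⟩ := c.eq_nat_or_neg
  · rw [Nat.abs_cast] at hc h2
    obtain ⟨l, rfl⟩ : ∃ l, K = u + l := ⟨K - u, by omega⟩
    obtain rfl : r = (u + 1) * (u + 1) + l * (2 * u + l) := by zify; push_cast at hr; linarith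
    have K0 : (0 : ℝ) < u + l := by exact_mod_cast (by omega : 0 < u + l)
    exact le_trans (le_of_eq (by push_cast; field_simp; ring))
      (lower u (u + 1) l (by omega) (by omega))
  · rw [abs_neg, Nat.abs_cast] at hc h2
    obtain ⟨l, rfl⟩ : ∃ l, K = u + l := ⟨K - u, by omega⟩
    obtain ⟨v, rfl⟩ : ∃ v, u = v + 1 := ⟨u - 1, by omega⟩
    obtain rfl : r = v * v + l * (2 * (v + 1) + l) := by zify; push_cast at hr; linarith
    have K0 : (0 : ℝ) < v + 1 + l := by positivity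
    exact le_trans (le_of_eq (by push_cast; field_simp; ring))
      (lower (v + 1) v l (by omega) (by omega))

end Main

open Main in
theorem main_of (h1 : CoreStmt) (h2 : NetStmt) : MainStmt := by
  obtain ⟨κ, w0, hκ, hw0, h1⟩ := h1
  obtain ⟨δ0, hδ0, h2⟩ := h2 κ hκ
  obtain ⟨δ, d0, d1, d2, d3⟩ : ∃ δ : ℝ, 0 < δ ∧ δ ≤ δ0 ∧ δ ≤ w0 / 20 ∧ δ ≤ 1 / 10000 :=
    ⟨min δ0 (min _ _), by positivity, min_le_left _ _, (min_le_right _ _).trans (min_le_left _ _),
      (min_le_right _ _).trans (min_le_right _ _)⟩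
  refine ⟨δ, d0, fun K c r hc hK hr => ?_⟩
  have c1 : |(c : ℝ)| + 1 ≤ K := by exact_mod_cast hc
  have c0 := abs_nonneg (c : ℝ)
  have K0 : (0 : ℝ) < K := by linarith
  have K1 : (10000 : ℝ) ≤ K := by linarith [mul_le_mul_of_nonneg_right d3 K0.le]
  have c2 : (2 : ℝ) ≤ |(c : ℝ)| := by linarith [mul_le_mul_of_nonneg_right d3 K0.le]
  have g1 : |(c : ℝ) / K| ≤ 1 := by rw [abs_div, abs_of_pos K0, div_le_one K0]; linarith
  have g2 : 1 - δ ≤ |(c : ℝ) / K| := by rw [abs_div, abs_of_pos K0, le_div_iff₀ K0]; linarith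
  have g3 : 1 - ((c : ℝ) / K) ^ 2 ≤ 2 * δ := by rw [← sq_abs]; nlinarith
  rw [abs_le] at g1
  refine le_antisymm (Real.sSup_le ?_ (by linarith)) (es_le K c r hc (by exact_mod_cast c2) hr)
  rintro _ ⟨x, y, θ, s, s0, s1, s2, rfl⟩
  by_contra! hS
  have l0 : (0 : ℝ) < 3 * K := by linarith
  choose q q1 q2 q3 using fun i => normal l0 (x i) (y i) (θ i) (s i)
  have sub : ∀ i, (q i).cl 0 ⊆ box (3 * K) := fun i z hz => by
    obtain ⟨⟨a1, a2⟩, a3, a4⟩ := s1 i (q3 i z hz)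
    simp only [Prod.smul_fst, Prod.smul_snd, smul_eq_mul] at a1 a2 a3 a4
    rw [inv_mul_le_iff₀ l0, mul_one] at a2 a4
    exact ⟨⟨nonneg_of_mul_nonneg_right a1 (inv_pos.2 l0), a2⟩,
      nonneg_of_mul_nonneg_right a3 (inv_pos.2 l0), a4⟩
  have int : ∀ i, ∀ z ∈ (q i).op, (3 * K : ℝ)⁻¹ • z ∈ interior (square (x i) (y i) (θ i) (s i)) :=
    fun i z hz => interior_maximal (t := (fun w => (3 * K : ℝ) • w) ⁻¹' (q i).op)
      (fun w hw => by simpa only [inv_smul_smul₀ l0.ne'] using q3 i _ ((q i).op_sub hw))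
      ((q i).isOpen_op.preimage (continuous_const_smul _))
      (by simpa only [mem_preimage, smul_inv_smul₀ l0.ne'] using hz)
  have dis : ∀ i j, i ≠ j → Disjoint (q i).op (q j).op := fun i j hij =>
    Set.disjoint_left.2 fun z a b => Set.disjoint_left.1 (s2 i j hij) (int i z a) (int j z b)
  have w1 := measureReal_nonneg.trans (waste_vol _ l0.le q
    (fun i => by rw [q1]; exact mul_nonneg l0.le (s0 i)) sub dis)
  have sd : ∑ i, (q i).d = 3 * K * ∑ i, s i := by simp only [q1, Finset.mul_sum]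
  obtain ⟨T, hT⟩ : ∃ T : ℝ, T = K + c / K := ⟨_, rfl⟩
  have nT : (r : ℝ) - T ^ 2 = 1 - ((c : ℝ) / K) ^ 2 := by
    have : (r : ℝ) = K ^ 2 + 2 * c + 1 := by exact_mod_cast hr
    rw [this, hT]; field_simp; ring
  rw [← hT] at hS
  have T0 : 0 < T := by linarith
  obtain ⟨μ, hμ⟩ : ∃ μ : ℝ, μ * T = 3 * K := ⟨_, div_mul_cancel₀ _ T0.ne'⟩
  have m1 : 297 / 100 ≤ μ := le_of_mul_le_mul_right (by linarith) T0
  have m2 : μ ≤ 303 / 100 := le_of_mul_le_mul_right (by linarith) T0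
  have sd' : T * (3 * K) < ∑ i, (q i).d := by rw [sd, mul_comm]; gcongr
  have var : (3 * K) ^ 2 - ∑ i, (q i).d ^ 2 + ∑ i, ((q i).d - μ) ^ 2 ≤ 20 * δ := by
    have e : ∑ i, ((q i).d - μ) ^ 2 = ∑ i, (q i).d ^ 2 - 2 * μ * ∑ i, (q i).d + r * μ ^ 2 := by
      simp only [sub_sq, Finset.sum_add_distrib, Finset.sum_sub_distrib, Finset.mul_sum,
        Finset.sum_const, Finset.card_univ, Fintype.card_fin, nsmul_eq_mul]
      congr 2
      exact Finset.sum_congr rfl fun i _ => by ring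
    have a1 : μ ^ 2 ≤ 10 := by nlinarith
    have a2 : μ ^ 2 * ((r : ℝ) - T ^ 2) ≤ 10 * (2 * δ) :=
      (mul_le_mul_of_nonneg_left (nT.le.trans g3) (sq_nonneg _)).trans (by gcongr)
    rw [e, ← hμ]
    rw [← hμ] at sd'
    linarith [mul_le_mul_of_nonneg_left sd'.le (by linarith : 0 ≤ μ)]
  have one : ∀ i, |(q i).d - μ| ≤ 6 / 100 := fun i => abs_le_of_sq_le_sq' (by
    linarith [Finset.single_le_sum (f := fun i => ((q i).d - μ) ^ 2) (fun j _ => sq_nonneg _)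
      (Finset.mem_univ i)]) (by norm_num) |> abs_le.2
  have P : Pack (3 * K) q := ⟨q2, fun i => by linarith [(abs_le.1 (one i)).1],
    fun i => by linarith [(abs_le.1 (one i)).2], by exact_mod_cast sub, dis⟩
  have hw : waste (3 * K) q ≤ w0 := by
    rw [waste]; push_cast
    linarith [Finset.sum_nonneg fun i (_ : i ∈ Finset.univ) => sq_nonneg ((q i).d - μ)]
  refine absurd (le_of_forall_pos_le_add fun η hη => ?_) sd'.not_ge
  obtain ⟨J, _, A, B, h, L, o1, o2, o3, o4, o5, o6, o7⟩ :=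
    h1 _ (3 * K) q P (by exact_mod_cast (by linarith : (1 : ℝ) ≤ 3 * K)) hw (min η δ0) (by positivity)
  push_cast at o5 o6 o7
  have := h2 K c hc (hK.trans (by gcongr)) _ J A B _ L _ o1 o2 o3 (by rw [Fintype.card_fin, hr]) o4
    (by positivity) (min_le_right _ _) o5 o6 o7
  simp only [Sum.elim_inl, ← hT] at this
  linarith [min_le_left η δ0]

end
end Pool.Agent.MP_a421c2_co.Ex

end MrgPart0

-- ======== part 1: formerly Pool.Agent.MP_a421c2_co.Ex.Win
section MrgPart1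

/-! # WIN: squares meeting an almost covered window have almost the same angle -/

set_option autoImplicit false
open MeasureTheory Set Real
open Finset (range)

namespace Pool.Agent.MP_a421c2_co.Ex

namespace Win

lemma sgn (A : ℝ) {r : ℝ} (hr : 0 ≤ r) : ∃ u, |u| = r ∧ A * u = r * |A| := by
  rcases le_total 0 A with h | h
  · exact ⟨r, abs_of_nonneg hr, by rw [abs_of_nonneg h, mul_comm]⟩
  · exact ⟨-r, by rw [abs_neg, abs_of_nonneg hr], by rw [abs_of_nonpos h]; ring⟩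

/-- a point of a square away from the corners is far from a tilted supporting line -/
lemma half {A B D κ s x y : ℝ} (hA : |A| ≤ 1) (hB : |B| ≤ 1) (hD : 0 < D) (hs : 0 ≤ s)
    (h : ∀ u v, |u| < D → |v| < D → A * u + B * v < κ) (hx : |x| ≤ D) (hy : |y| ≤ D)
    (hc : ¬ (|(|x| - D)| ≤ s ∧ |(|y| - D)| ≤ s)) : s * (|A| * |B|) ≤ κ - (A * x + B * y) := by
  have a0 := abs_nonneg A
  have b0 := abs_nonneg B
  have k : ∀ r, 0 ≤ r → r < D → r * (|A| + |B|) < κ := fun r r0 rD => by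
    obtain ⟨u, hu, e1⟩ := sgn A r0
    obtain ⟨v, hv, e2⟩ := sgn B r0
    have := h u v (hu ▸ rD) (hv ▸ rD)
    linarith
  have k0 : 0 < κ := by simpa using k 0 le_rfl hD
  have k1 : D * (|A| + |B|) ≤ κ := by
    by_contra h1
    rw [not_le] at h1
    have S0 : 0 < |A| + |B| := (mul_pos_iff_of_pos_left hD).1 (k0.trans h1)
    have := k (κ / (|A| + |B|)) (by positivity) ((div_lt_iff₀ S0).2 h1)
    rw [div_mul_cancel₀ _ S0.ne'] at this
    exact lt_irrefl _ this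
  have e1 : A * x ≤ |A| * |x| := abs_mul A x ▸ le_abs_self _
  have e2 : B * y ≤ |B| * |y| := abs_mul B y ▸ le_abs_self _
  rw [abs_of_nonpos (sub_nonpos.2 hx), abs_of_nonpos (sub_nonpos.2 hy), not_and_or, not_le,
    not_le] at hc
  have f1 := mul_nonneg a0 (sub_nonneg.2 hx)
  have f2 := mul_nonneg b0 (sub_nonneg.2 hy)
  rcases hc with hc | hc
  · have g1 : s * (|A| * |B|) ≤ s * |A| :=
      mul_le_mul_of_nonneg_left (mul_le_of_le_one_right a0 hB) hs
    have g2 := mul_le_mul_of_nonneg_right hc.le a0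
    linarith
  · have g1 : s * (|A| * |B|) ≤ s * |B| :=
      mul_le_mul_of_nonneg_left (mul_le_of_le_one_left b0 hA) hs
    have g2 := mul_le_mul_of_nonneg_right hc.le b0
    linarith

/-- separation of two squares by a line with a unit normal -/
lemma sep {q q' : Tq} (hd : 0 < q.d) (hd' : 0 < q'.d) (h : Disjoint q.op q'.op) :
    ∃ α κ : ℝ, (∀ z ∈ q.op, z.1 * cos α + z.2 * sin α < κ) ∧
      ∀ z ∈ q'.op, κ < z.1 * cos α + z.2 * sin α := by
  obtain ⟨f, u, h1, h2⟩ :=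
    geometric_hahn_banach_open_open q.convex_op q.isOpen_op q'.convex_op q'.isOpen_op h
  set n : ℂ := ⟨f (1, 0), f (0, 1)⟩ with hn
  have e : ∀ z : ℝ × ℝ, f z = ‖n‖ * (z.1 * cos n.arg + z.2 * sin n.arg) := fun z => by
    have e1 : z = z.1 • ((1, 0) : ℝ × ℝ) + z.2 • ((0, 1) : ℝ × ℝ) := by simp
    have e2 : ‖n‖ * cos n.arg = f (1, 0) := Complex.norm_mul_cos_arg n
    have e3 : ‖n‖ * sin n.arg = f (0, 1) := Complex.norm_mul_sin_arg n
    rw [e1, map_add, map_smul, map_smul, ← e1, ← e2, ← e3, smul_eq_mul, smul_eq_mul]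
    ring
  have c : ∀ q : Tq, 0 < q.d → (q.X, q.Y) ∈ q.op := fun q hq =>
    ⟨by simpa using hq, by simpa using hq⟩
  have n0 : 0 < ‖n‖ := by
    refine (norm_nonneg n).lt_of_ne fun e0 => ?_
    have a1 := h1 _ (c q hd)
    have a2 := h2 _ (c q' hd')
    rw [e, ← e0, zero_mul] at a1 a2
    linarith
  refine ⟨n.arg, u / ‖n‖, fun z hz => ?_, fun z hz => ?_⟩
  · rw [lt_div_iff₀' n0, ← e]
    exact h1 z hz
  · rw [div_lt_iff₀' n0, ← e]
    exact h2 z hz

lemma lin_eq (q : Tq) (α : ℝ) (z : ℝ × ℝ) : z.1 * cos α + z.2 * sin α =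
    q.X * cos α + q.Y * sin α + (cos (α - q.θ) * q.xi z + sin (α - q.θ) * q.ze z) := by
  rw [cos_sub, sin_sub]
  linear_combination cos α * q.fst_eq z + sin α * q.snd_eq z

lemma abs_sin_add (x y : ℝ) : |sin (x + y)| ≤ |sin x| + |sin y| := by
  rw [sin_add, mul_comm (cos x)]
  exact Tq.abs_comb (abs_cos_le_one _) (abs_cos_le_one _)

/-- PAIR -/
lemma pair {q q' : Tq} (hd : 0 < q.d) (hd' : 0 < q'.d) (h : Disjoint q.op q'.op) {s g : ℝ}
    (hs : 0 ≤ s) {P P' : ℝ × ℝ} (hP : P ∈ q.cl 0) (nP : P ∉ q.cn s) (hP' : P' ∈ q'.cl 0)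
    (nP' : P' ∉ q'.cn s) (hg : ∀ α, (P'.1 - P.1) * cos α + (P'.2 - P.2) * sin α ≤ g) :
    s * |sin (2 * (q.θ - q'.θ))| ≤ 2 * g := by
  obtain ⟨α, κ, h1, h2⟩ := sep hd hd' h
  have a1 := half (κ := κ - (q.X * cos α + q.Y * sin α)) (abs_cos_le_one (α - q.θ))
    (abs_sin_le_one (α - q.θ)) (half_pos hd) hs (fun u v hu hv => by
      have := h1 (q.pt u v) ⟨by rwa [Tq.xi_pt], by rwa [Tq.ze_pt]⟩
      rw [lin_eq q, Tq.xi_pt, Tq.ze_pt] at this
      linarith) (sub_zero (q.d / 2) ▸ hP.1) (sub_zero (q.d / 2) ▸ hP.2) nP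
  have a2 := half (A := -cos (α - q'.θ)) (B := -sin (α - q'.θ))
    (κ := q'.X * cos α + q'.Y * sin α - κ) (by rw [abs_neg]; exact abs_cos_le_one _)
    (by rw [abs_neg]; exact abs_sin_le_one _) (half_pos hd') hs (fun u v hu hv => by
      have := h2 (q'.pt u v) ⟨by rwa [Tq.xi_pt], by rwa [Tq.ze_pt]⟩
      rw [lin_eq q', Tq.xi_pt, Tq.ze_pt] at this
      linarith) (sub_zero (q'.d / 2) ▸ hP'.1) (sub_zero (q'.d / 2) ▸ hP'.2) nP'
  have a3 := abs_sin_add (2 * (α - q'.θ)) (-(2 * (α - q.θ)))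
  rw [show 2 * (α - q'.θ) + -(2 * (α - q.θ)) = 2 * (q.θ - q'.θ) by ring, sin_neg, abs_neg,
    sin_two_mul (α - q'.θ), sin_two_mul (α - q.θ), abs_mul, abs_mul, abs_mul, abs_mul,
    abs_two] at a3
  rw [abs_neg, abs_neg] at a2
  have a4 := mul_le_mul_of_nonneg_left a3 hs
  have a5 := lin_eq q α P
  have a6 := lin_eq q' α P'
  have a7 := hg α
  linarith

/-- a chain of chords along a line -/
lemma chain {κ : Type} [Finite κ] (C : κ → Set ℝ) (hC : ∀ k, IsClosed (C k)) (δ : κ → κ → ℝ)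
    (N : Set ℝ) {x x' : ℝ} (i : κ) (tri : ∀ j k, δ i k ≤ δ i j + δ j k) (rf : δ i i ≤ 0)
    (pr : ∀ k j, k ≠ j → ∀ s ∈ C k, ∀ t ∈ C j, x ≤ s → s ≤ t → t ≤ x' → δ k j ≤ t - s)
    (hN : ∀ t ∈ Icc x x', (∀ k, t ∉ C k) → t ∈ N) (hi : x ∈ C i) (j : κ) :
    ∀ t ∈ C j ∩ Icc x x', δ i j ≤ volume.real (N ∩ Icc x t) := by
  have fin : ∀ t, volume (N ∩ Icc x t) ≠ ⊤ := fun t =>
    measure_ne_top_of_subset inter_subset_right (by simp)
  set G : κ → Prop := fun j => ∀ t ∈ C j ∩ Icc x x', δ i j ≤ volume.real (N ∩ Icc x t) with hG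
  by_contra hj
  have cp : ∀ (Q : κ → Prop) (b : ℝ), IsCompact (Icc x b ∩ ⋃ k : {k // Q k}, C k) := fun Q b =>
    isCompact_Icc.inter_right (isClosed_iUnion_of_finite fun k => hC k)
  obtain ⟨a, ⟨ha, hb⟩, amin⟩ := (cp (fun k => ¬ G k) x').exists_isLeast (by
    have h1 := hj
    simp only [not_forall] at h1
    obtain ⟨t, ht, -⟩ := h1
    exact ⟨t, ht.2, mem_iUnion.2 ⟨⟨j, hj⟩, ht.1⟩⟩)
  obtain ⟨⟨m, hm⟩, am⟩ := mem_iUnion.1 hb
  obtain ⟨s, ⟨hs, hb'⟩, smax⟩ := (cp G a).exists_isGreatest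
    ⟨x, ⟨le_rfl, ha.1⟩, mem_iUnion.2 ⟨⟨i, fun t _ => rf.trans measureReal_nonneg⟩, hi⟩⟩
  obtain ⟨⟨k, hk⟩, sk⟩ := mem_iUnion.1 hb'
  refine hm fun t ht => ?_
  have at' : a ≤ t := amin ⟨ht.2, mem_iUnion.2 ⟨⟨m, hm⟩, ht.1⟩⟩
  have h1 := hk s ⟨sk, hs.1, hs.2.trans ha.2⟩
  have h2 := pr k m (fun e => hm (e ▸ hk)) s sk a am hs.1 hs.2 ha.2
  have h3 : volume.real (N ∩ Icc x s ∪ Ioo s a) = volume.real (N ∩ Icc x s) + (a - s) := by
    rw [measureReal_union (Set.disjoint_left.2 fun u h1 h2 => absurd h1.2.2 (not_le.2 h2.1))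
      measurableSet_Ioo (fin s) (by simp), volume_real_Ioo_of_le hs.2]
  have h4 : N ∩ Icc x s ∪ Ioo s a ⊆ N ∩ Icc x t := by
    rintro u (hu | hu)
    · exact ⟨hu.1, hu.2.1, hu.2.2.trans (hs.2.trans at')⟩
    · have xu := hs.1.trans hu.1.le
      refine ⟨hN u ⟨xu, hu.2.le.trans ha.2⟩ fun l hl => ?_, xu, hu.2.le.trans at'⟩
      by_cases gl : G l
      · exact absurd (smax ⟨⟨xu, hu.2.le⟩, mem_iUnion.2 ⟨⟨l, gl⟩, hl⟩⟩) (not_le.2 hu.1)
      · exact absurd (amin ⟨⟨xu, hu.2.le.trans ha.2⟩, mem_iUnion.2 ⟨⟨l, gl⟩, hl⟩⟩) (not_le.2 hu.2)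
  have h5 := measureReal_mono h4 (fin t)
  linarith [tri k m]

/-- LINE -/
lemma line {κ : Type} [Finite κ] {q : κ → Tq} (hd : ∀ k, 0 < (q k).d)
    (dis : ∀ k k', k ≠ k' → Disjoint (q k).op (q k').op) {γ : ℝ → ℝ × ℝ} (hγ : Continuous γ)
    (lip : ∀ s t α, s ≤ t → ((γ t).1 - (γ s).1) * cos α + ((γ t).2 - (γ s).2) * sin α ≤ t - s)
    {s : ℝ} (hs : 0 ≤ s) {N : Set ℝ} (fin : volume N ≠ ⊤) {a b : ℝ}
    (hn : ∀ t ∈ Icc a b, ∀ k, γ t ∉ (q k).cn s)
    (hN : ∀ t ∈ Icc a b, (∀ k, γ t ∉ (q k).cl 0) → t ∈ N) {x x' : ℝ} (hx : x ∈ Icc a b)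
    (hx' : x' ∈ Icc a b) {i j : κ} (hi : γ x ∈ (q i).cl 0) (hj : γ x' ∈ (q j).cl 0) :
    s * |sin (2 * ((q i).θ - (q j).θ))| ≤ 2 * volume.real N := by
  wlog le : x ≤ x' generalizing x x' i j
  · have := this hx' hx hj hi (le_of_not_ge le)
    rwa [← abs_neg, ← sin_neg, ← mul_neg, neg_sub] at this
  have sub : Icc x x' ⊆ Icc a b := Icc_subset_Icc hx.1 hx'.2
  have h1 := chain (fun k => γ ⁻¹' (q k).cl 0) (fun k => ((q k).isClosed_cl 0).preimage hγ)
    (fun k l => s * |sin (2 * ((q k).θ - (q l).θ))| / 2) N (x' := x') i (fun j k => by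
      have := mul_le_mul_of_nonneg_left
        (abs_sin_add (2 * ((q i).θ - (q j).θ)) (2 * ((q j).θ - (q k).θ))) hs
      rw [← mul_add, sub_add_sub_cancel] at this
      linarith) (by simp) (fun k l hkl u hu t ht h1 h2 h3 => by
      have := pair (hd k) (hd l) (dis k l hkl) hs hu (hn u (sub ⟨h1, h2.trans h3⟩) k) ht
        (hn t (sub ⟨h1.trans h2, h3⟩) l) fun α => lip u t α h2
      linarith) (fun t ht => hN t (sub ht)) hi j x' ⟨hj, le, le_rfl⟩
  have h2 := measureReal_mono (inter_subset_left : N ∩ Icc x x' ⊆ N) fin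
  linarith

lemma abs_rot {a b c s : ℝ} (ha : |a| ≤ 1) (hb : |b| ≤ 1) (h : c ^ 2 + s ^ 2 = 1) :
    |a * c + b * s| ≤ 29 / 20 := by
  have h1 := (sq_le_one_iff_abs_le_one a).2 ha
  have h2 := (sq_le_one_iff_abs_le_one b).2 hb
  refine abs_le_of_sq_le_sq ?_ (by norm_num)
  have : (a * c + b * s) ^ 2 + (a * s - b * c) ^ 2 = a ^ 2 + b ^ 2 := by
    linear_combination (a ^ 2 + b ^ 2) * h
  nlinarith [sq_nonneg (a * s - b * c)]

lemma clamp {x D : ℝ} (hD : 29 / 20 ≤ D) (hx : |x| ≤ D) :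
    ∃ u, |u| ≤ D - 29 / 20 ∧ |u - x| ≤ 29 / 20 := by
  rw [abs_le] at hx
  rcases le_total x (-(D - 29 / 20)) with h | h
  · exact ⟨-(D - 29 / 20), abs_le.2 ⟨by linarith, by linarith⟩, abs_le.2 ⟨by linarith, by linarith⟩⟩
  rcases le_total x (D - 29 / 20) with h' | h'
  · exact ⟨x, abs_le.2 ⟨h, h'⟩, by norm_num⟩
  · exact ⟨D - 29 / 20, abs_le.2 ⟨by linarith, by linarith⟩, abs_le.2 ⟨by linarith, by linarith⟩⟩

/-- a square that meets the small window contains a unit window inside the large window -/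
lemma inner {q : Tq} (hd : 29 / 10 ≤ q.d) {p : ℝ × ℝ} (h : (q.cl 0 ∩ win p 8).Nonempty) :
    ∃ C, win C 1 ⊆ q.cl 0 ∩ win p 12 := by
  obtain ⟨P, hP, hw⟩ := h
  obtain ⟨u, hu, hu'⟩ := clamp (D := q.d / 2) (by linarith) (sub_zero (q.d / 2) ▸ hP.1)
  obtain ⟨v, hv, hv'⟩ := clamp (D := q.d / 2) (by linarith) (sub_zero (q.d / 2) ▸ hP.2)
  refine ⟨q.pt u v, fun z hz => ⟨⟨?_, ?_⟩, ?_, ?_⟩⟩
  · have h1 := abs_rot hz.1 hz.2 (cos_sq_add_sin_sq q.θ)
    have h2 : q.xi z = u + ((z.1 - (q.pt u v).1) * cos q.θ + (z.2 - (q.pt u v).2) * sin q.θ) := by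
      have := q.xi_pt u v
      simp only [Tq.xi] at this ⊢
      linear_combination this
    rw [h2]
    linarith [abs_add_le u ((z.1 - (q.pt u v).1) * cos q.θ + (z.2 - (q.pt u v).2) * sin q.θ)]
  · have h1 := abs_rot hz.1 hz.2 (c := -sin q.θ) (s := cos q.θ)
      (by rw [neg_sq, sin_sq_add_cos_sq])
    have h2 : q.ze z = v + ((z.1 - (q.pt u v).1) * -sin q.θ + (z.2 - (q.pt u v).2) * cos q.θ) := by
      have := q.ze_pt u v
      simp only [Tq.ze] at this ⊢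
      linear_combination this
    rw [h2]
    linarith [abs_add_le v ((z.1 - (q.pt u v).1) * -sin q.θ + (z.2 - (q.pt u v).2) * cos q.θ)]
  · have h1 := q.fst_sub (q.pt u v) P
    rw [Tq.xi_pt, Tq.ze_pt] at h1
    linarith [abs_sub_le z.1 (q.pt u v).1 p.1, abs_sub_le (q.pt u v).1 P.1 p.1, hz.1, hw.1]
  · have h1 := q.snd_sub (q.pt u v) P
    rw [Tq.xi_pt, Tq.ze_pt] at h1
    linarith [abs_sub_le z.2 (q.pt u v).2 p.2, abs_sub_le (q.pt u v).2 P.2 p.2, hz.2, hw.2]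

lemma near {x D s : ℝ} (h : |(|x| - D)| ≤ s) : ∃ b : Bool, |x - (bif b then D else -D)| ≤ s := by
  rcases le_total 0 x with h1 | h1
  · exact ⟨true, by rwa [abs_of_nonneg h1] at h⟩
  · refine ⟨false, ?_⟩
    rwa [abs_of_nonpos h1, ← abs_neg, show -(-x - D) = x - -D by ring] at h

/-- the projection of the corner neighbourhoods is small -/
lemma bad1 {κ : Type} (q : κ → Tq) (S : Finset κ) (hS : S.card ≤ 1200) (f : ℝ × ℝ → ℝ)
    (hf : ∀ (q : Tq) z z', |f z - f z'| ≤ |q.xi z - q.xi z'| + |q.ze z - q.ze z'|) :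
    volume {y | ∃ k ∈ S, ∃ z ∈ (q k).cn s1, f z = y} ≤ ENNReal.ofReal (1 / 20) := by
  set c : κ × Bool × Bool → ℝ := fun u => f ((q u.1).pt
    (bif u.2.1 then (q u.1).d / 2 else -((q u.1).d / 2))
    (bif u.2.2 then (q u.1).d / 2 else -((q u.1).d / 2))) with hc
  have sub : {y | ∃ k ∈ S, ∃ z ∈ (q k).cn s1, f z = y} ⊆
      ⋃ u ∈ S ×ˢ (Finset.univ : Finset (Bool × Bool)), Icc (c u - 2 * s1) (c u + 2 * s1) := by
    rintro _ ⟨k, hk, z, hz, rfl⟩
    obtain ⟨b, hb⟩ := near hz.1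
    obtain ⟨b', hb'⟩ := near hz.2
    refine mem_biUnion (x := (k, b, b')) (Finset.mem_product.2 ⟨hk, Finset.mem_univ _⟩) ?_
    have h1 := hf (q k) z ((q k).pt (bif b then (q k).d / 2 else -((q k).d / 2))
      (bif b' then (q k).d / 2 else -((q k).d / 2)))
    rw [Tq.xi_pt, Tq.ze_pt] at h1
    have h2 := abs_le.1 (h1.trans (add_le_add hb hb'))
    exact ⟨by simp only [hc]; linarith [h2.1], by simp only [hc]; linarith [h2.2]⟩
  refine (measure_mono sub).trans ((measure_biUnion_finset_le _ _).trans ?_)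
  have e : ∀ u, volume (Icc (c u - 2 * s1) (c u + 2 * s1)) = ENNReal.ofReal (4 * s1) := fun u => by
    rw [volume_Icc]
    exact congrArg _ (by ring)
  simp only [e, Finset.sum_const, Finset.card_product, Finset.card_univ, Fintype.card_prod,
    Fintype.card_bool, nsmul_eq_mul]
  rw [← ENNReal.ofReal_natCast, ← ENNReal.ofReal_mul (Nat.cast_nonneg _)]
  refine ENNReal.ofReal_le_ofReal ?_
  have : (S.card : ℝ) ≤ 1200 := by exact_mod_cast hS
  push_cast
  unfold s1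
  linarith

/-- Markov -/
lemma bad2 {f : ℝ → ENNReal} (hf : Measurable f) {w : ℝ} (w0 : 0 < w)
    (h : ∫⁻ y, f y ≤ ENNReal.ofReal w) :
    volume {y | ENNReal.ofReal (20 * w) ≤ f y} ≤ ENNReal.ofReal (1 / 20) := by
  have e : ENNReal.ofReal w = ENNReal.ofReal (20 * w) * ENNReal.ofReal (1 / 20) := by
    rw [← ENNReal.ofReal_mul (by linarith)]
    exact congrArg _ (by ring)
  have h1 := (mul_meas_ge_le_lintegral hf (ENNReal.ofReal (20 * w))).trans (h.trans e.le)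
  exact (ENNReal.mul_le_mul_iff_right (by simpa using w0) ENNReal.ofReal_ne_top).1 h1

lemma pick {A B C : Set ℝ} (hA : volume A ≤ ENNReal.ofReal (1 / 20))
    (hB : volume B ≤ ENNReal.ofReal (1 / 20)) (hC : volume C ≤ ENNReal.ofReal 1) (c : ℝ) :
    ∃ y, |y - c| ≤ 1 ∧ y ∉ A ∧ y ∉ B ∧ y ∉ C := by
  by_contra h
  have sub : Icc (c - 1) (c + 1) ⊆ A ∪ B ∪ C := fun y hy => by
    by_contra h1
    simp only [mem_union, not_or] at h1
    exact h ⟨y, abs_le.2 ⟨by linarith [hy.1], by linarith [hy.2]⟩, h1.1.1, h1.1.2, h1.2⟩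
  have h2 := (measure_mono sub).trans ((measure_union_le _ _).trans
    (add_le_add ((measure_union_le _ _).trans (add_le_add hA hB)) hC))
  rw [volume_Icc, ← ENNReal.ofReal_add (by norm_num) (by norm_num),
    ← ENNReal.ofReal_add (by norm_num) (by norm_num),
    ENNReal.ofReal_le_ofReal_iff (by norm_num)] at h2
  linarith

end Win

open Win in
theorem win_of : WinStmt := by
  intro κ _ q Z p w S hd dis mZ cov hS hcn hw w50 k k' hk hk'
  have d0 : ∀ k, 0 < (q k).d := fun k => by linarith [hd k]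
  have s0 : 0 ≤ s1 := by unfold s1; norm_num
  have w0 : 0 ≤ w := measureReal_nonneg.trans hw
  set Y := Z ∩ win p 12 with hY
  have mY : MeasurableSet Y := mZ.inter (measurableSet_win p 12)
  have fY : volume Y ≠ ⊤ := measure_ne_top_of_subset inter_subset_right (by
    rw [vol_win p (by norm_num)]; exact ENNReal.ofReal_ne_top)
  suffices H : ∀ w', w < w' → w' ≤ 1 / 45 →
      |sin (2 * ((q k).θ - (q k').θ))| ≤ 32000000 * w' by
    refine le_of_forall_pos_le_add fun ε ε0 => ?_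
    have h1 := H (w + min (1 / 450) (ε / 32000000)) (by simp; positivity)
      (by linarith [min_le_left (1 / 450) (ε / 32000000)])
    linarith [min_le_right (1 / 450) (ε / 32000000)]
  intro w' lt w45
  have w1 : 0 < w' := w0.trans_lt lt
  have vY : volume Y ≤ ENNReal.ofReal w' := by
    rw [← ofReal_measureReal fY]
    exact ENNReal.ofReal_le_ofReal (hw.trans lt.le)
  have mem : ∀ x y, x ∈ Icc (p.1 - 12) (p.1 + 12) → y ∈ Icc (p.2 - 12) (p.2 + 12) →
      (x, y) ∈ win p 12 := fun x y hx hy => by rw [win_eq]; exact ⟨hx, hy⟩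
  have out : ∀ z ∈ win p 12, (∀ k, z ∉ (q k).cn s1) → (∀ k, z ∉ (q k).cl 0) → z ∈ Y :=
    fun z hz h1 h2 => ⟨(cov hz).resolve_left fun h => h.elim (fun h => (mem_iUnion.1 h).elim h2)
      fun h => (mem_iUnion.1 h).elim h1, hz⟩
  have real : ∀ N : Set ℝ, ¬ ENNReal.ofReal (20 * w') ≤ volume N →
      volume N ≠ ⊤ ∧ volume.real N ≤ 20 * w' := fun N h =>
    ⟨(not_le.1 h).ne_top, ENNReal.toReal_le_of_le_ofReal (by linarith) (not_le.1 h).le⟩
  obtain ⟨C, hC⟩ := inner (hd k) hk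
  obtain ⟨C', hC'⟩ := inner (hd k') hk'
  obtain ⟨y, y1, y2, y3, -⟩ := pick (bad1 q S hS Prod.snd Tq.snd_sub)
    (bad2 (measurable_measure_prodMk_right (μ := volume) mY) w1 (by
      rwa [← Measure.prod_apply_symm mY, ← Measure.volume_eq_prod])) (C := ∅) (by simp) C.2
  obtain ⟨fy, ry⟩ := real _ y3
  obtain ⟨x, x1, x2, x3, x4⟩ := pick (bad1 q S hS Prod.fst Tq.fst_sub)
    (bad2 (measurable_measure_prodMk_left (ν := volume) mY) w1 (by
      rwa [← Measure.prod_apply mY, ← Measure.volume_eq_prod]))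
    ((not_le.1 y3).le.trans (ENNReal.ofReal_le_ofReal (by linarith))) C'.1
  obtain ⟨fx, rx⟩ := real _ x3
  obtain ⟨a1, a2⟩ := hC (a := (C.1, y)) ⟨by simp, y1⟩
  obtain ⟨b1, b2⟩ := hC' (a := (x, C'.2)) ⟨x1, by simp⟩
  rw [win_eq] at a2 b2
  have ny : ∀ t ∈ Icc (p.1 - 12) (p.1 + 12), ∀ l, (t, y) ∉ (q l).cn s1 := fun t ht l hl =>
    y2 ⟨l, hcn l ⟨_, hl, mem _ _ ht a2.2⟩, _, hl, rfl⟩
  have nx : ∀ t ∈ Icc (p.2 - 12) (p.2 + 12), ∀ l, (x, t) ∉ (q l).cn s1 := fun t ht l hl =>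
    x2 ⟨l, hcn l ⟨_, hl, mem _ _ b2.1 ht⟩, _, hl, rfl⟩
  obtain ⟨m, hm⟩ : ∃ m, (x, y) ∈ (q m).cl 0 := by
    by_contra h
    exact x4 (out _ (mem _ _ b2.1 a2.2) (ny x b2.1) fun l hl => h ⟨l, hl⟩)
  have h1 := line d0 dis (γ := fun t => (t, y)) (by fun_prop) (fun s t α h => by
      simp only [sub_self, zero_mul, add_zero]
      exact mul_le_of_le_one_right (sub_nonneg.2 h) (cos_le_one α)) s0 fy ny
    (fun t ht h => out _ (mem _ _ ht a2.2) (ny t ht) h) a2.1 b2.1 a1 hm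
  have h2 := line d0 dis (γ := fun t => (x, t)) (by fun_prop) (fun s t α h => by
      simp only [sub_self, zero_mul, zero_add]
      exact mul_le_of_le_one_right (sub_nonneg.2 h) (sin_le_one α)) s0 fx nx
    (fun t ht h => out _ (mem _ _ b2.1 ht) (nx t ht) h) a2.2 b2.2 hm b1
  have h3 := abs_sin_add (2 * ((q k).θ - (q m).θ)) (2 * ((q m).θ - (q k').θ))
  rw [← mul_add, sub_add_sub_cancel] at h3
  unfold s1 at h1 h2
  linarith

end Pool.Agent.MP_a421c2_co.Ex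

end MrgPart1

-- ======== part 2: formerly Pool.Agent.MP_a421c2_co.Ex.Rect
section MrgPart2

/-! # RECT: integer rectangles for the straightened squares -/

set_option autoImplicit false
open MeasureTheory Set Real
open Finset (range)

namespace Pool.Agent.MP_a421c2_co.Ex
noncomputable section

namespace RectP

/-- one-dimensional data: `x + f x - X'` is the straightened coordinate -/
structure One (f : ℝ → ℝ) (X X' d ε e h : ℝ) : Prop where
  bd : ∀ x, |f x| ≤ e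
  lip : ∀ x x', |f x - f x'| ≤ e * |x - x'|
  ctr : |X' - X| ≤ e
  lo : 29 / 10 ≤ d
  hi : d ≤ 31 / 10
  e0 : 0 ≤ ε
  e1 : ε ≤ e
  e2 : e ≤ 1 / 100
  h0 : 0 < h
  h1 : h ≤ 1 / 100

/-- the two end points -/
structure Ends (f : ℝ → ℝ) (X' d ε h a b : ℝ) : Prop where
  l1 : -(d / 2) + ε ≤ a + f a - X'
  l2 : a + f a - X' ≤ -(d / 2) + ε + 101 / 100 * h
  r1 : d / 2 - ε - 101 / 100 * h ≤ b + f b - X'
  r2 : b + f b - X' ≤ d / 2 - ε

variable {f : ℝ → ℝ} {X X' d ε e h a b : ℝ}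

lemma One.near (H : One f X X' d ε e h) (x x' ρ : ℝ) (hx : |x - x'| ≤ ρ) :
    |(x + f x) - (x' + f x')| ≤ 101 / 100 * ρ := by
  have h1 := H.lip x x'
  have h2 : e * |x - x'| ≤ 1 / 100 * ρ := mul_le_mul H.e2 hx (abs_nonneg _) (by norm_num)
  calc _ = |(x - x') + (f x - f x')| := by congr 1; ring
    _ ≤ |x - x'| + |f x - f x'| := abs_add_le _ _
    _ ≤ _ := by linarith

lemma One.mono (H : One f X X' d ε e h) {x x' : ℝ} (hx : x ≤ x') : x + f x ≤ x' + f x' := by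
  have h1 := H.lip x x'
  rw [abs_of_nonpos (sub_nonpos.2 hx), abs_le] at h1
  have h2 : e * -(x - x') ≤ 1 / 100 * -(x - x') :=
    mul_le_mul_of_nonneg_right H.e2 (by linarith)
  linarith [h1.2]

lemma One.smono (H : One f X X' d ε e h) {x x' : ℝ} (hx : x < x') : x + f x < x' + f x' := by
  have h1 := H.lip x x'
  rw [abs_of_nonpos (sub_nonpos.2 hx.le), abs_le] at h1
  have h2 : e * -(x - x') ≤ 1 / 100 * -(x - x') :=
    mul_le_mul_of_nonneg_right H.e2 (by linarith)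
  linarith [h1.2]

lemma One.ends (H : One f X X' d ε e h) (M : ℕ) (g0 : 0 + f 0 - X' ≤ -(d / 2) + ε)
    (g1 : d / 2 - ε ≤ M * h + f (M * h) - X') :
    ∃ l r : ℕ, l < r ∧ r ≤ M ∧ Ends f X' d ε h (l * h) (r * h) := by
  classical
  have k1 := H.lo
  have k2 := H.e1
  have k3 := H.e2
  have k4 := H.h0
  have k5 := H.h1
  have step : ∀ n : ℕ, ((n + 1 : ℕ) * h + f ((n + 1 : ℕ) * h)) - (n * h + f (n * h)) ≤
      101 / 100 * h := fun n => by
    refine (le_abs_self _).trans (H.near _ _ h ?_)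
    rw [Nat.cast_succ, show ((n : ℝ) + 1) * h - n * h = h by ring, abs_of_pos k4]
  have ex : ∃ n : ℕ, -(d / 2) + ε ≤ n * h + f (n * h) - X' := ⟨M, by linarith⟩
  have z0 : ((0 : ℕ) : ℝ) * h = 0 := by simp
  have p0 : ((0 : ℕ) : ℝ) * h + f ((0 : ℕ) * h) - X' ≤ d / 2 - ε := by rw [z0]; linarith
  have E : Ends f X' d ε h (Nat.find ex * h)
      (Nat.findGreatest (fun n : ℕ => n * h + f (n * h) - X' ≤ d / 2 - ε) M * h) := by
    refine ⟨Nat.find_spec ex, ?_, ?_, Nat.findGreatest_spec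
      (P := fun n : ℕ => n * h + f (n * h) - X' ≤ d / 2 - ε) (Nat.zero_le M) p0⟩
    · rcases Nat.eq_zero_or_eq_succ_pred (Nat.find ex) with a | a
      · rw [a, z0]; linarith
      · have a1 := Nat.find_min ex (m := (Nat.find ex).pred) (by omega)
        have a2 := step (Nat.find ex).pred
        rw [← Nat.succ_eq_add_one, ← a] at a2
        linarith [not_le.1 a1]
    · rcases (Nat.findGreatest_le (P := fun n : ℕ => n * h + f (n * h) - X' ≤ d / 2 - ε)
        M).eq_or_lt with a | a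
      · rw [a]; linarith
      · have a1 := Nat.findGreatest_is_greatest (Nat.lt_succ_self _) (Nat.succ_le_of_lt a)
        have a2 := step (Nat.findGreatest (fun n : ℕ => n * h + f (n * h) - X' ≤ d / 2 - ε) M)
        rw [Nat.succ_eq_add_one] at a1
        linarith [not_le.1 a1]
  refine ⟨_, _, ?_, Nat.findGreatest_le M, E⟩
  by_contra a
  have a1 := H.mono (mul_le_mul_of_nonneg_right (Nat.cast_le (α := ℝ).2 (not_lt.1 a)) k4.le)
  linarith [E.l2, E.r1]

lemma Ends.pos (H : One f X X' d ε e h) (E : Ends f X' d ε h a b) :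
    |a - X| ≤ 8 / 5 ∧ |b - X| ≤ 8 / 5 := by
  have a1 := abs_le.1 (H.bd a)
  have a2 := abs_le.1 (H.bd b)
  have a3 := abs_le.1 H.ctr
  have k1 := H.lo
  have k2 := H.hi
  have k3 := H.e0
  have k4 := H.e1
  have k5 := H.e2
  have k6 := H.h0
  have k7 := H.h1
  refine ⟨abs_le.2 ⟨?_, ?_⟩, abs_le.2 ⟨?_, ?_⟩⟩ <;> linarith [E.l1, E.l2, E.r1, E.r2]

lemma Ends.inside (H : One f X X' d ε e h) (E : Ends f X' d ε h a b) {x ξ : ℝ} (h1 : a < x)
    (h2 : x < b) (h3 : |ξ - (x + f x - X')| ≤ ε) : |ξ| < d / 2 := by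
  have a1 := H.smono h1
  have a2 := H.smono h2
  rw [abs_le] at h3
  exact abs_lt.2 ⟨by linarith [E.l1], by linarith [E.r2]⟩

lemma Ends.out (H : One f X X' d ε e h) (E : Ends f X' d ε h a b) {x ξ : ℝ}
    (h1 : |ξ| ≤ d / 2 - (2 * ε + 3 * h)) (h3 : |ξ - (x + f x - X')| ≤ ε) : a ≤ x ∧ x < b := by
  rw [abs_le] at h1 h3
  have k := H.h0
  constructor
  · by_contra c
    have := H.smono (not_le.1 c)
    linarith [E.l2]
  · by_contra c
    have := H.mono (not_lt.1 c)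
    linarith [E.r1]

lemma Ends.cor (H : One f X X' d ε e h) (E : Ends f X' d ε h a b) {x y ξ ρ : ℝ}
    (hy : y = a ∨ y = b) (h1 : |x - y| ≤ ρ) (h3 : |ξ - (x + f x - X')| ≤ ε) :
    |(|ξ| - d / 2)| ≤ 2 * ε + 2 * h + 2 * ρ := by
  have a1 := abs_le.1 (H.near x y ρ h1)
  have a2 := (abs_nonneg _).trans h1
  have k1 := H.lo
  have k2 := H.h0
  have k3 := H.e0
  rw [abs_le] at h3
  rcases hy with rfl | rfl
  · have := abs_abs_sub_abs_le_abs_sub ξ (-(d / 2))
    rw [abs_neg, abs_of_nonneg (show 0 ≤ d / 2 by linarith)] at this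
    exact this.trans (abs_le.2 ⟨by linarith [E.l1], by linarith [E.l2]⟩)
  · have := abs_abs_sub_abs_le_abs_sub ξ (d / 2)
    rw [abs_of_nonneg (show 0 ≤ d / 2 by linarith)] at this
    exact this.trans (abs_le.2 ⟨by linarith [E.r1], by linarith [E.r2]⟩)

lemma Ends.wid (H : One f X X' d ε e h) (E : Ends f X' d ε h a b) {u v s : ℝ}
    (h1 : |u - f a + s| ≤ ε) (h2 : |v - f b + s| ≤ ε) :
    |d - (b - a + v - u)| ≤ 4 * ε + 4 * h := by
  rw [abs_le] at h1 h2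
  have k2 := H.h0
  have k3 := H.e0
  exact abs_le.2 ⟨by linarith [E.l1, E.r2], by linarith [E.l2, E.r1]⟩

/-- the lower wall -/
lemma One.wall0 (H : One f X X' d ε e h) (hX : 0 ≤ X) (f0 : f 0 = 0)
    (hw : X ≤ 3 → ∃ ξ, ¬ |ξ| < d / 2 ∧ |ξ - (0 + f 0 - X')| ≤ ε) :
    0 + f 0 - X' ≤ -(d / 2) + ε := by
  have a3 := abs_le.1 H.ctr
  have k1 := H.lo
  have k2 := H.hi
  have k3 := H.e0
  have k4 := H.e1
  have k5 := H.e2
  by_cases c : X ≤ 3
  · obtain ⟨ξ, a1, a2⟩ := hw c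
    rw [abs_le] at a2
    rw [abs_lt, not_and_or, not_lt, not_lt] at a1
    rcases a1 with a1 | a1 <;> linarith
  · linarith [not_le.1 c]

/-- the upper wall -/
lemma One.wall1 (H : One f X X' d ε e h) {L : ℝ} (hX : X ≤ L) (f0 : f L = 0)
    (hw : L - 3 ≤ X → ∃ ξ, ¬ |ξ| < d / 2 ∧ |ξ - (L + f L - X')| ≤ ε) :
    d / 2 - ε ≤ L + f L - X' := by
  have a3 := abs_le.1 H.ctr
  have k1 := H.lo
  have k2 := H.hi
  have k3 := H.e0
  have k4 := H.e1
  have k5 := H.e2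
  by_cases c : L - 3 ≤ X
  · obtain ⟨ξ, a1, a2⟩ := hw c
    rw [abs_le] at a2
    rw [abs_lt, not_and_or, not_lt, not_lt] at a1
    rcases a1 with a1 | a1 <;> linarith
  · linarith [not_le.1 c]

lemma One.mid (H : One f X X' d ε e h) {ξ : ℝ} (h3 : |ξ - (X + f X - X')| ≤ ε) : |ξ| < d / 2 := by
  have a1 := abs_le.1 (H.bd X)
  have a3 := abs_le.1 H.ctr
  have k1 := H.lo
  have k4 := H.e1
  have k5 := H.e2
  rw [abs_le] at h3
  exact abs_lt.2 ⟨by linarith, by linarith⟩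

lemma small_tilt {θ u v e : ℝ} (hθ : |θ| ≤ e) (he : e ≤ 1 / 100) (hu : |u| ≤ 2) (hv : |v| ≤ 2) :
    |u * cos θ - v * sin θ| ≤ 5 / 2 ∧ |v * sin θ + u * cos θ| ≤ 5 / 2 := by
  have a1 : |u * cos θ| ≤ 2 := by
    rw [abs_mul]; exact (mul_le_of_le_one_right (abs_nonneg _) (abs_cos_le_one _)).trans hu
  have a2 : |v * sin θ| ≤ 2 * (1 / 100) := by
    rw [abs_mul]
    exact mul_le_mul hv (abs_sin_le_abs.trans (hθ.trans he)) (abs_nonneg _) (by norm_num)
  exact ⟨(abs_sub _ _).trans (by linarith), (abs_add_le _ _).trans (by linarith)⟩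

end RectP

open RectP in
theorem rect_of : RectStmt := by
  intro I _ ℓ m q F1 F2 ε X' Y' e P S he hm
  have m0 : (100 : ℝ) ≤ m := by exact_mod_cast hm
  have h0 : (0 : ℝ) < 1 / m := by positivity
  have h1 : (1 / m : ℝ) ≤ 1 / 100 := one_div_le_one_div_of_le (by norm_num) m0
  have hM : ((ℓ * m : ℕ) : ℝ) * (1 / m) = ℓ := by push_cast; field_simp
  have HX : ∀ i, One (fun x => F1 (x, (q i).Y)) (q i).X (X' i) (q i).d (ε i) e (1 / m) := fun i =>
    ⟨fun _ => S.sm1.bd _, fun _ _ => S.sm1.lipx _ _ _, (S.ctr i).1, P.lo i, P.hi i, S.nonneg i,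
      S.eps_le i, he, h0, h1⟩
  have HY : ∀ i, One (fun y => F2 ((q i).X, y)) (q i).Y (Y' i) (q i).d (ε i) e (1 / m) := fun i =>
    ⟨fun _ => S.sm2.bd _, fun _ _ => S.sm2.lipy _ _ _, (S.ctr i).2, P.lo i, P.hi i, S.nonneg i,
      S.eps_le i, he, h0, h1⟩
  have l0 : (0 : ℝ) ≤ ℓ := Nat.cast_nonneg _
  have EX : ∀ i, ∃ l r : ℕ, l < r ∧ r ≤ ℓ * m ∧ Ends (fun x => F1 (x, (q i).Y)) (X' i) (q i).d
      (ε i) (1 / m) (l * (1 / m)) (r * (1 / m)) := by
    intro i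
    obtain ⟨⟨c1, c2⟩, c3, c4⟩ := P.ctr_box i
    refine (HX i).ends _ ((HX i).wall0 c1 (S.z1 _).1 fun c => ?_) ?_
    · obtain ⟨a1, a2⟩ := S.loc i (0, (q i).Y) ⟨⟨le_rfl, l0⟩, c3, c4⟩
        ⟨abs_le.2 ⟨by simp only; linarith, by simp only at c1 ⊢; linarith⟩, by simp⟩
      refine ⟨_, fun a3 => ?_, a1⟩
      have := (P.op_sub i ⟨a3, (HY i).mid a2⟩).1.1
      simp only [Phi, (S.z1 _).1] at this
      linarith
    · rw [hM]
      refine (HX i).wall1 c2 (S.z1 _).2 fun c => ?_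
      obtain ⟨a1, a2⟩ := S.loc i (ℓ, (q i).Y) ⟨⟨l0, le_rfl⟩, c3, c4⟩
        ⟨abs_le.2 ⟨by simp only at c2 ⊢; linarith, by simp only; linarith⟩, by simp⟩
      refine ⟨_, fun a3 => ?_, a1⟩
      have := (P.op_sub i ⟨a3, (HY i).mid a2⟩).1.2
      simp only [Phi, (S.z1 _).2] at this
      linarith
  have EY : ∀ i, ∃ l r : ℕ, l < r ∧ r ≤ ℓ * m ∧ Ends (fun y => F2 ((q i).X, y)) (Y' i) (q i).d
      (ε i) (1 / m) (l * (1 / m)) (r * (1 / m)) := by
    intro i
    obtain ⟨⟨c1, c2⟩, c3, c4⟩ := P.ctr_box i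
    refine (HY i).ends _ ((HY i).wall0 c3 (S.z2 _).1 fun c => ?_) ?_
    · obtain ⟨a1, a2⟩ := S.loc i ((q i).X, 0) ⟨⟨c1, c2⟩, le_rfl, l0⟩
        ⟨by simp, abs_le.2 ⟨by simp only; linarith, by simp only at c3 ⊢; linarith⟩⟩
      refine ⟨_, fun a3 => ?_, a2⟩
      have := (P.op_sub i ⟨(HX i).mid a1, a3⟩).2.1
      simp only [Phi, (S.z2 _).1] at this
      linarith
    · rw [hM]
      refine (HY i).wall1 c4 (S.z2 _).2 fun c => ?_
      obtain ⟨a1, a2⟩ := S.loc i ((q i).X, ℓ) ⟨⟨c1, c2⟩, l0, le_rfl⟩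
        ⟨by simp, abs_le.2 ⟨by simp only at c4 ⊢; linarith, by simp only; linarith⟩⟩
      refine ⟨_, fun a3 => ?_, a2⟩
      have := (P.op_sub i ⟨(HX i).mid a1, a3⟩).2.2
      simp only [Phi, (S.z2 _).2] at this
      linarith
  choose l r lr rM El using EX
  choose b t bt tM Eb using EY
  have up : ∀ n : ℕ, n ≤ ℓ * m → (n : ℝ) * (1 / m) ∈ Icc (0 : ℝ) ℓ := fun n hn =>
    ⟨by positivity, hM ▸ mul_le_mul_of_nonneg_right (Nat.cast_le.2 hn) h0.le⟩
  have cell : ∀ {a c x : ℕ}, a ≤ x → x < c →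
      (a : ℝ) * (1 / m) < (x + 1 / 2) * (1 / m) ∧ ((x : ℝ) + 1 / 2) * (1 / m) < c * (1 / m) := by
    intro a c x k1 k2
    have k3 : (a : ℝ) ≤ x := Nat.cast_le.2 k1
    have k4 : (x : ℝ) + 1 ≤ c := by exact_mod_cast k2
    exact ⟨mul_lt_mul_of_pos_right (by linarith) h0, mul_lt_mul_of_pos_right (by linarith) h0⟩
  have btw : ∀ {a c x X : ℝ}, a < x → x < c → |a - X| ≤ 8 / 5 → |c - X| ≤ 8 / 5 → |x - X| ≤ 3 := by
    intro a c x X k1 k2 k3 k4
    rw [abs_le] at k3 k4 ⊢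
    exact ⟨by linarith, by linarith⟩
  have core : ∀ i (x y : ℕ), InR l r b t i x y →
      Phi F1 F2 ((x + 1 / 2) * (1 / m), (y + 1 / 2) * (1 / m)) ∈ (q i).op := by
    rintro i x y ⟨k1, k2, k3, k4⟩
    obtain ⟨a1, a2⟩ := cell k1 k2
    obtain ⟨a3, a4⟩ := cell k3 k4
    obtain ⟨b1, b2⟩ := S.loc i ((x + 1 / 2) * (1 / m), (y + 1 / 2) * (1 / m))
      ⟨⟨by positivity, a2.le.trans (up _ (rM i)).2⟩, by positivity, a4.le.trans (up _ (tM i)).2⟩
      ⟨btw a1 a2 ((El i).pos (HX i)).1 ((El i).pos (HX i)).2,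
        btw a3 a4 ((Eb i).pos (HY i)).1 ((Eb i).pos (HY i)).2⟩
    exact ⟨(El i).inside (HX i) a1 a2 b1, (Eb i).inside (HY i) a3 a4 b2⟩
  have w3 : ∀ {a X : ℝ}, |a - X| ≤ 8 / 5 → |a - X| ≤ 3 := fun k => k.trans (by norm_num)
  refine ⟨l, r, b, t, ⟨fun i => ⟨lr i, rM i⟩, fun i => ⟨bt i, tM i⟩, fun i j x y ki kj => ?_⟩,
    fun i p hp hq => ?_, fun i p hp x y ρ hx hy hρ k1 k2 => ?_, fun i => ?_, fun i => ?_⟩
  · by_contra c
    exact Set.disjoint_left.1 (P.dis i j c) (core i x y ki) (core j x y kj)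
  · have k1 := P.hi i
    have k2 := S.nonneg i
    have u2 : |(q i).xi (Phi F1 F2 p)| ≤ 2 := hq.1.trans (by linarith)
    have v2 : |(q i).ze (Phi F1 F2 p)| ≤ 2 := hq.2.trans (by linarith)
    have a1 := abs_le.1 (small_tilt (S.ang i) he u2 v2).1
    have a2 := abs_le.1 (small_tilt (S.ang i) he v2 u2).2
    have a3 := (q i).fst_eq (Phi F1 F2 p)
    have a4 := (q i).snd_eq (Phi F1 F2 p)
    have a5 := abs_le.1 (S.sm1.bd p)
    have a6 := abs_le.1 (S.sm2.bd p)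
    have a7 : (Phi F1 F2 p).1 = p.1 + F1 p := rfl
    have a8 : (Phi F1 F2 p).2 = p.2 + F2 p := rfl
    obtain ⟨b1, b2⟩ := S.loc i p hp
      ⟨abs_le.2 ⟨by simp only; linarith, by simp only; linarith⟩,
        abs_le.2 ⟨by simp only; linarith, by simp only; linarith⟩⟩
    obtain ⟨c1, c2⟩ := (El i).out (HX i) hq.1 b1
    obtain ⟨c3, c4⟩ := (Eb i).out (HY i) hq.2 b2
    exact ⟨c1, c2, c3, c4⟩
  · have tri : ∀ {a y X : ℝ}, |a - y| ≤ ρ → |y - X| ≤ 8 / 5 → |a - X| ≤ 3 := fun k k' =>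
      (abs_sub_le _ _ _).trans (by linarith)
    have px : |(x : ℝ) * (1 / m) - (q i).X| ≤ 8 / 5 := by
      rcases hx with rfl | rfl
      exacts [((El i).pos (HX i)).1, ((El i).pos (HX i)).2]
    have py : |(y : ℝ) * (1 / m) - (q i).Y| ≤ 8 / 5 := by
      rcases hy with rfl | rfl
      exacts [((Eb i).pos (HY i)).1, ((Eb i).pos (HY i)).2]
    obtain ⟨b1, b2⟩ := S.loc i p hp ⟨tri k1 px, tri k2 py⟩
    exact ⟨(El i).cor (HX i) (hx.imp (fun k => by rw [k]) fun k => by rw [k]) k1 b1,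
      (Eb i).cor (HY i) (hy.imp (fun k => by rw [k]) fun k => by rw [k]) k2 b2⟩
  · have a1 := (S.sl i (l i * (1 / m), b i * (1 / m))
      ⟨up _ ((lr i).le.trans (rM i)), up _ ((bt i).le.trans (tM i))⟩
      ⟨w3 ((El i).pos (HX i)).1, w3 ((Eb i).pos (HY i)).1⟩).1
    have a2 := (S.sl i (r i * (1 / m), b i * (1 / m))
      ⟨up _ (rM i), up _ ((bt i).le.trans (tM i))⟩
      ⟨w3 ((El i).pos (HX i)).2, w3 ((Eb i).pos (HY i)).1⟩).1
    have a3 := (El i).wid (HX i) a1 a2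
    rwa [← sub_mul, mul_comm] at a3
  · have a1 := (S.sl i (l i * (1 / m), b i * (1 / m))
      ⟨up _ ((lr i).le.trans (rM i)), up _ ((bt i).le.trans (tM i))⟩
      ⟨w3 ((El i).pos (HX i)).1, w3 ((Eb i).pos (HY i)).1⟩).2
    have a2 := (S.sl i (l i * (1 / m), t i * (1 / m))
      ⟨up _ ((lr i).le.trans (rM i)), up _ (tM i)⟩
      ⟨w3 ((El i).pos (HX i)).1, w3 ((Eb i).pos (HY i)).2⟩).2
    rw [sub_eq_add_neg _ ((q i).θ * _)] at a1 a2
    have a3 := (Eb i).wid (HY i) a1 a2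
    rwa [← sub_mul, mul_comm] at a3

end
end Pool.Agent.MP_a421c2_co.Ex

end MrgPart2

-- ======== part 3: formerly Pool.Agent.MP_a421c2_co.Ex.Area
section MrgPart3

/-! # AREA: the area of a set of uncovered cells -/

set_option autoImplicit false
open MeasureTheory Set Real
open Finset (range)

namespace Pool.Agent.MP_a421c2_co.Ex
noncomputable section

namespace Area

/-- the set `s` has area at most `x` -/
def Le (s : Set (ℝ × ℝ)) (x : ℝ) : Prop := 0 ≤ x ∧ volume s ≤ ENNReal.ofReal x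

lemma Le.mono {s t : Set (ℝ × ℝ)} {x y : ℝ} (h : Le t x) (hs : s ⊆ t) (hx : x ≤ y) : Le s y :=
  ⟨h.1.trans hx, (measure_mono hs).trans (h.2.trans (ENNReal.ofReal_le_ofReal hx))⟩

lemma Le.union {s t : Set (ℝ × ℝ)} {x y : ℝ} (h : Le s x) (h' : Le t y) : Le (s ∪ t) (x + y) :=
  ⟨add_nonneg h.1 h'.1, (measure_union_le _ _).trans (by
    rw [ENNReal.ofReal_add h.1 h'.1]; exact add_le_add h.2 h'.2)⟩

lemma Le.biUnion {ι : Type} (S : Finset ι) {f : ι → Set (ℝ × ℝ)} {x : ι → ℝ}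
    (h : ∀ i ∈ S, Le (f i) (x i)) : Le (⋃ i ∈ S, f i) (∑ i ∈ S, x i) :=
  ⟨Finset.sum_nonneg fun i hi => (h i hi).1, (measure_biUnion_finset_le _ _).trans (by
    rw [ENNReal.ofReal_sum_of_nonneg fun i hi => (h i hi).1]
    exact Finset.sum_le_sum fun i hi => (h i hi).2)⟩

lemma Le.iUnion {ι : Type} [Fintype ι] {f : ι → Set (ℝ × ℝ)} {x : ι → ℝ}
    (h : ∀ i, Le (f i) (x i)) : Le (⋃ i, f i) (∑ i, x i) :=
  (Le.biUnion Finset.univ fun i _ => h i).mono (by simp) le_rfl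

lemma Le.of_real {s : Set (ℝ × ℝ)} {x : ℝ} (h : volume s ≠ ⊤) (hx : volume.real s ≤ x) : Le s x :=
  ⟨measureReal_nonneg.trans hx, by
    rw [← ofReal_measureReal h]; exact ENNReal.ofReal_le_ofReal hx⟩

lemma Le.real {s : Set (ℝ × ℝ)} {x : ℝ} (h : Le s x) : volume.real s ≤ x :=
  ENNReal.toReal_le_of_le_ofReal h.1 h.2

/-- a rectangle in own coordinates -/
def rc (q : Tq) (a b a' b' : ℝ) : Set (ℝ × ℝ) := {z | q.xi z ∈ Icc a b ∧ q.ze z ∈ Icc a' b'}

lemma le_rc (q : Tq) {a b a' b' x : ℝ} (h : a ≤ b) (h' : a' ≤ b') (hx : (b - a) * (b' - a') = x) :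
    Le (rc q a b a' b') x :=
  ⟨hx ▸ mul_nonneg (sub_nonneg.2 h) (sub_nonneg.2 h'), by
    rw [rc, q.vol_rect, ← ENNReal.ofReal_mul (sub_nonneg.2 h), hx]⟩

/-- the frame of width `η` -/
def fr (q : Tq) (η : ℝ) : Set (ℝ × ℝ) := q.cl 0 \ q.cl η

lemma le_fr (q : Tq) {η : ℝ} (h0 : 0 ≤ η) (h1 : 2 * η ≤ q.d) (h2 : q.d ≤ 31 / 10) :
    Le (fr q η) (13 * η) := by
  have f0 : volume (q.cl 0) ≠ ⊤ := by
    rw [q.vol_cl (by linarith)]; exact ENNReal.ofReal_ne_top
  refine Le.of_real (measure_ne_top_of_subset sdiff_subset f0) ?_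
  rw [fr, measureReal_sdiff (q.cl_mono h0) (q.isClosed_cl η).measurableSet f0,
    measureReal_def, measureReal_def,
    q.vol_cl (by linarith), q.vol_cl h1, ENNReal.toReal_ofReal (sq_nonneg _),
    ENNReal.toReal_ofReal (sq_nonneg _)]
  nlinarith

/-- the part of a frame near a point -/
lemma le_piece (q : Tq) {η s : ℝ} (h0 : 0 ≤ η) (hs : 0 ≤ s) (c : ℝ × ℝ) :
    Le (fr q η ∩ win c (2 * s)) (32 * s * η) := by
  have r1 := le_rc q (a := q.d / 2 - η) (b := q.d / 2) (a' := q.ze c - 4 * s)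
    (b' := q.ze c + 4 * s) (x := 8 * s * η) (by linarith) (by linarith) (by ring)
  have r2 := le_rc q (a := -(q.d / 2)) (b := -(q.d / 2) + η) (a' := q.ze c - 4 * s)
    (b' := q.ze c + 4 * s) (x := 8 * s * η) (by linarith) (by linarith) (by ring)
  have r3 := le_rc q (a' := q.d / 2 - η) (b' := q.d / 2) (a := q.xi c - 4 * s)
    (b := q.xi c + 4 * s) (x := 8 * s * η) (by linarith) (by linarith) (by ring)
  have r4 := le_rc q (a' := -(q.d / 2)) (b' := -(q.d / 2) + η) (a := q.xi c - 4 * s)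
    (b := q.xi c + 4 * s) (x := 8 * s * η) (by linarith) (by linarith) (by ring)
  refine ((r1.union r2).union (r3.union r4)).mono ?_ (le_of_eq (by ring))
  rintro z ⟨⟨⟨a1, a2⟩, a3⟩, a4, a5⟩
  have b1 := abs_le.1 ((q.xi_sub z c).trans (add_le_add a4 a5))
  have b2 := abs_le.1 ((q.ze_sub z c).trans (add_le_add a4 a5))
  rw [sub_zero, abs_le] at a1 a2
  have c1 : q.xi z ∈ Icc (q.xi c - 4 * s) (q.xi c + 4 * s) := ⟨by linarith, by linarith⟩
  have c2 : q.ze z ∈ Icc (q.ze c - 4 * s) (q.ze c + 4 * s) := ⟨by linarith, by linarith⟩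
  rcases not_and_or.1 a3 with a | a
  · rcases lt_abs.1 (not_le.1 a) with a | a
    · exact .inl (.inl ⟨⟨a.le, a1.2⟩, c2⟩)
    · exact .inl (.inr ⟨⟨a1.1, by linarith⟩, c2⟩)
  · rcases lt_abs.1 (not_le.1 a) with a | a
    · exact .inr (.inl ⟨c1, a.le, a2.2⟩)
    · exact .inr (.inr ⟨c1, a2.1, by linarith⟩)

lemma sign_near {x u s : ℝ} (h : |(|x| - u)| ≤ s) : |x - u| ≤ s ∨ |x - -u| ≤ s := by
  rcases abs_choice x with a | a
  · exact .inl (by rwa [a] at h)
  · exact .inr (by rwa [a, ← abs_neg, show -(-x - u) = x - -u by ring] at h)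

lemma mem_win (q : Tq) {z : ℝ × ℝ} {u v s : ℝ} (h1 : |q.xi z - u| ≤ s) (h2 : |q.ze z - v| ≤ s) :
    z ∈ win (q.pt u v) (2 * s) := by
  have a1 := q.fst_sub z (q.pt u v)
  have a2 := q.snd_sub z (q.pt u v)
  rw [Tq.xi_pt, Tq.ze_pt] at a1 a2
  exact ⟨by linarith, by linarith⟩

/-- the part of a frame near the corners of another square -/
lemma le_cn (q q' : Tq) {η s : ℝ} (h0 : 0 ≤ η) (hs : 0 ≤ s) :
    Le (fr q η ∩ q'.cn s) (128 * s * η) := by
  refine (((le_piece q h0 hs (q'.pt (q'.d / 2) (q'.d / 2))).union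
    (le_piece q h0 hs (q'.pt (q'.d / 2) (-(q'.d / 2))))).union
    ((le_piece q h0 hs (q'.pt (-(q'.d / 2)) (q'.d / 2))).union
    (le_piece q h0 hs (q'.pt (-(q'.d / 2)) (-(q'.d / 2)))))).mono ?_ (le_of_eq (by ring))
  rintro z ⟨a, a1, a2⟩
  rcases sign_near a1 with b | b <;> rcases sign_near a2 with b' | b'
  exacts [.inl (.inl ⟨a, mem_win q' b b'⟩), .inl (.inr ⟨a, mem_win q' b b'⟩),
    .inr (.inl ⟨a, mem_win q' b b'⟩), .inr (.inr ⟨a, mem_win q' b b'⟩)]

/-- the part of a frame near all the corners -/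
lemma le_all {I : Type} [Fintype I] {ℓ : ℕ} {q : I → Tq} (P : Pack ℓ q) (i : I) {η s : ℝ}
    (h0 : 0 ≤ η) (hs : 0 ≤ s) (hs' : s ≤ s1) :
    Le (fr (q i) η ∩ ⋃ j, (q j).cn s) (32768 * s * η) := by
  classical
  let S : Finset I := Finset.univ.filter fun j => ((q j).X, (q j).Y) ∈ win ((q i).X, (q i).Y) (7 : ℕ)
  have hc : S.card ≤ (2 * 7 + 2) ^ 2 := P.count _ 7 S fun j hj => (Finset.mem_filter.1 hj).2
  refine (Le.biUnion S fun j _ => le_cn (q i) (q j) h0 hs).mono ?_ ?_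
  · rintro z ⟨a, b⟩
    obtain ⟨j, b⟩ := mem_iUnion.1 b
    refine mem_biUnion (x := j) (Finset.mem_filter.2 ⟨Finset.mem_univ _, ?_⟩) ⟨a, b⟩
    have a1 := abs_le.1 ((q i).fst_ctr z)
    have a2 := abs_le.1 ((q i).snd_ctr z)
    have a3 := abs_le.1 ((q j).fst_ctr z)
    have a4 := abs_le.1 ((q j).snd_ctr z)
    have b1 := (abs_le.1 b.1).2
    have b2 := (abs_le.1 b.2).2
    have c1 := a.1.1
    have c2 := a.1.2
    have d1 := P.hi i
    have d2 := P.hi j
    rw [s1] at hs'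
    exact ⟨abs_le.2 ⟨by push_cast; linarith, by push_cast; linarith⟩,
      abs_le.2 ⟨by push_cast; linarith, by push_cast; linarith⟩⟩
  · rw [Finset.sum_const, nsmul_eq_mul]
    have h1 : (S.card : ℝ) ≤ 256 := by exact_mod_cast hc
    have h2 : 0 ≤ 128 * s * η := by positivity
    nlinarith

/-- the map `Phi` almost does not decrease area -/
lemma anti {F1 F2 : ℝ × ℝ → ℝ} {e : ℝ} (h1 : Small F1 e) (h2 : Small F2 e) (he : e ≤ 1 / 100)
    {Y T : Set (ℝ × ℝ)} {x : ℝ} (hT : Le T x) (h : ∀ p ∈ Y, Phi F1 F2 p ∈ T) :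
    Le Y ((1 + 3 * e) * x) := by
  have e0 := h1.nonneg
  have e1 : 0 < 1 - e := by linarith
  have hA : AntilipschitzWith (Real.toNNReal (1 - e)⁻¹) (Phi F1 F2) := by
    refine AntilipschitzWith.of_le_mul_dist fun p p' => ?_
    rw [Real.coe_toNNReal _ (inv_nonneg.2 e1.le), ← div_eq_inv_mul, le_div_iff₀ e1]
    have a1 := abs_le.1 (h1.lip p p')
    have a2 := abs_le.1 (h2.lip p p')
    have b1 : |p.1 + F1 p - (p'.1 + F1 p')| ≤ dist (Phi F1 F2 p) (Phi F1 F2 p') := le_max_left _ _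
    have b2 : |p.2 + F2 p - (p'.2 + F2 p')| ≤ dist (Phi F1 F2 p) (Phi F1 F2 p') := le_max_right _ _
    rw [abs_le] at b1 b2
    have k : dist p p' ≤ dist (Phi F1 F2 p) (Phi F1 F2 p') + e * dist p p' :=
      max_le (abs_le.2 ⟨by linarith, by linarith⟩) (abs_le.2 ⟨by linarith, by linarith⟩)
    linarith
  have k := hA.le_hausdorffMeasure_image (d := 2) (by norm_num) Y
  rw [hausdorffMeasure_prod_real] at k
  refine ⟨mul_nonneg (by linarith) hT.1, k.trans ?_⟩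
  rw [ENNReal.ofReal_mul (by linarith)]
  refine mul_le_mul' ?_ ((measure_mono (image_subset_iff.2 h)).trans hT.2)
  rw [ENNReal.rpow_two, ← ENNReal.ofReal, ← ENNReal.ofReal_pow (inv_nonneg.2 e1.le)]
  refine ENNReal.ofReal_le_ofReal ?_
  rw [inv_pow, inv_le_iff_one_le_mul₀ (by positivity)]
  nlinarith [mul_nonneg e0 e0, mul_nonneg e0 (mul_nonneg e0 e0)]

/-- the half-open cell -/
def cell (h : ℝ) (x : ℕ × ℕ) : Set (ℝ × ℝ) :=
  Ico (x.1 * h) ((x.1 + 1) * h) ×ˢ Ico (x.2 * h) ((x.2 + 1) * h)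

lemma idx {h u : ℝ} (hh : 0 < h) {a b : ℕ} (h1 : a * h ≤ u) (h2 : u < (b + 1) * h) : a ≤ b := by
  have : (a : ℝ) < b + 1 := lt_of_mul_lt_mul_right (h1.trans_lt h2) hh.le
  exact Nat.lt_succ_iff.1 (by exact_mod_cast this)

lemma idx' {h u : ℝ} (hh : 0 < h) {a b : ℕ} (h1 : a * h ≤ u) (h2 : u < b * h) : a < b := by
  exact_mod_cast (lt_of_mul_lt_mul_right (h1.trans_lt h2) hh.le : (a : ℝ) < b)

lemma vol_cells {h : ℝ} (hh : 0 < h) (c : Finset (ℕ × ℕ)) :
    volume.real (⋃ x ∈ c, cell h x) = h ^ 2 * c.card := by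
  have v : ∀ x, volume (cell h x) = ENNReal.ofReal (h ^ 2) := fun x => by
    rw [cell, Measure.volume_eq_prod, Measure.prod_prod, volume_Ico, volume_Ico,
      ← ENNReal.ofReal_mul (by nlinarith)]
    exact congrArg _ (by ring)
  rw [measureReal_biUnion_finset (f := cell h) (fun x _ y _ hxy => Set.disjoint_left.2 fun p a b => hxy
      (Prod.ext (le_antisymm (idx hh a.1.1 b.1.2) (idx hh b.1.1 a.1.2))
        (le_antisymm (idx hh a.2.1 b.2.2) (idx hh b.2.1 a.2.2))))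
    (fun x _ => measurableSet_Ico.prod measurableSet_Ico)
    fun x _ => by rw [v]; exact ENNReal.ofReal_ne_top]
  simp only [measureReal_def, v, ENNReal.toReal_ofReal (sq_nonneg h), Finset.sum_const,
    nsmul_eq_mul, mul_comm]

end Area

open Area in
theorem area_of : AreaStmt := by
  intro I _ ℓ m q F1 F2 ε X' Y' e l r b t c P S he hm hF hc
  have m0 : (100 : ℝ) ≤ m := by exact_mod_cast hm
  have hh : (0 : ℝ) < 1 / m := by positivity
  have hh' : (1 / m : ℝ) ≤ 1 / 100 := one_div_le_one_div_of_le (by norm_num) m0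
  have hl : ((ℓ * m : ℕ) : ℝ) * (1 / m) = ℓ := by push_cast; field_simp
  generalize (1 / m : ℝ) = h at *
  have η0 : ∀ i, 0 ≤ 2 * ε i + 3 * h := fun i => by linarith [S.nonneg i]
  have η1 : ∀ i, 2 * (2 * ε i + 3 * h) ≤ (q i).d := fun i => by linarith [S.eps_le i, P.lo i]
  have up : ∀ {a : ℕ} {u : ℝ}, a < ℓ * m → a * h ≤ u → u < (a + 1) * h → u ∈ Icc (0 : ℝ) ℓ :=
    fun {a u} h1 h2 h3 => by
      have k : (a : ℝ) + 1 ≤ (ℓ * m : ℕ) := by exact_mod_cast h1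
      exact ⟨le_trans (by positivity) h2, by nlinarith⟩
  have key : ∀ x ∈ c, ∀ p ∈ cell h x, Phi F1 F2 p ∈ box ℓ \ (⋃ i, (q i).cl 0) ∨
      ∃ i, Phi F1 F2 p ∈ fr (q i) (2 * ε i + 3 * h) := by
    intro x hx p hp
    obtain ⟨c1, c2, c3⟩ := hc x hx
    have pb : p ∈ box ℓ := ⟨up c1 hp.1.1 hp.1.2, up c2 hp.2.1 hp.2.2⟩
    by_cases a : Phi F1 F2 p ∈ ⋃ i, (q i).cl 0
    · obtain ⟨i, a⟩ := mem_iUnion.1 a
      refine .inr ⟨i, a, fun a' => c3 i ?_⟩
      obtain ⟨o1, o2, o3, o4⟩ := hF.out i p pb a'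
      exact ⟨idx hh o1 hp.1.2, idx' hh hp.1.1 o2, idx hh o3 hp.2.2, idx' hh hp.2.1 o4⟩
    · exact .inl ⟨S.phi_box (by linarith) pb, a⟩
  have fin : volume (box ℓ \ ⋃ i, (q i).cl 0) ≠ ⊤ := measure_ne_top_of_subset sdiff_subset (by
    rw [vol_box _ (Nat.cast_nonneg _)]; exact ENNReal.ofReal_ne_top)
  rw [← vol_cells hh]
  refine ⟨Le.real ?_, fun s hs hs' hcn => Le.real ?_⟩
  · rw [Finset.mul_sum]
    refine anti S.sm1 S.sm2 he ((Le.of_real fin P.vol_le).union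
      (Le.iUnion fun i => le_fr (q i) (η0 i) (η1 i) (P.hi i))) fun p hp => ?_
    obtain ⟨x, hx, hp⟩ := mem_iUnion₂.1 hp
    exact (key x hx p hp).imp id mem_iUnion.2
  · have k1 := measureReal_inter_add_sdiff (μ := volume) (s := box ℓ \ ⋃ i, (q i).cl 0)
      (MeasurableSet.iUnion fun i => ((q i).isClosed_cn s1).measurableSet) fin
    have k2 : Le ((box ℓ \ ⋃ i, (q i).cl 0) ∩ ⋃ i, (q i).cn s1) (waste ℓ q - wmid ℓ q) :=
      Le.of_real (measure_ne_top_of_subset inter_subset_left fin) (by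
        have := P.vol_le; rw [wmid]; linarith)
    rw [Finset.mul_sum]
    refine anti S.sm1 S.sm2 he (k2.union (Le.iUnion fun i => le_all P i (η0 i) hs hs'))
      fun p hp => ?_
    obtain ⟨x, hx, hp⟩ := mem_iUnion₂.1 hp
    obtain ⟨j, hj⟩ := hcn x hx p hp.1.1 hp.1.2 hp.2.1 hp.2.2
    rcases key x hx p hp with a | ⟨i, a⟩
    · exact .inl ⟨a, mem_iUnion.2 ⟨j, (q j).cn_mono hs' hj⟩⟩
    · exact .inr (mem_iUnion.2 ⟨i, a, mem_iUnion.2 ⟨j, hj⟩⟩)

end
end Pool.Agent.MP_a421c2_co.Ex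

end MrgPart3

-- ======== part 4: formerly Pool.Agent.MP_a421c2_co.Ex.Grid
section MrgPart4

/-! # The two networks of a grid are dual -/

set_option autoImplicit false
open MeasureTheory Set Real
open Finset (range)

namespace Pool.Agent.MP_a421c2_co.Ex

namespace GridM

open scoped Classical

lemma abel1 (a c : ℕ → ℝ) (m : ℕ) : ∑ x ∈ range (m + 1), (a (x + 1) - a x) * c x =
    a (m + 1) * c m - a 0 * c 0 - ∑ x ∈ range m, a (x + 1) * (c (x + 1) - c x) := by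
  induction m with
  | zero => simp; ring
  | succ m ih => rw [Finset.sum_range_succ, ih, Finset.sum_range_succ]; ring

variable {I J : Type} {G : Grid I J}

/-- the summation by parts identity on the whole grid -/
lemma key (h : G.OK) {U W : ℕ × ℕ → ℝ} (hU : G.side.Adm U) (hW : G.T.side.Adm W) :
    ∑ x ∈ range G.M, ∑ y ∈ range G.M, (U (x + 1, y) - U (x, y)) * (W (y + 1, x) - W (y, x)) =
      (U (G.M, 0) - U (0, 0)) * (W (G.M, 0) - W (0, 0)) := by
  obtain ⟨m, hm⟩ : ∃ m, G.M = m + 1 := ⟨G.M - 1, by have := h.pos; omega⟩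
  have w0 : ∀ x, x < G.M → W (0, x) = W (0, 0) := fun x hx => Grid.adm_left (G := G.T) hW hx
  have w1 : ∀ x, x < G.M → W (G.M, x) = W (G.M, 0) := fun x hx => Grid.adm_right (G := G.T) hW hx
  have tel : ∀ x, x < G.M → ∑ y ∈ range G.M, (W (y + 1, x) - W (y, x)) =
      W (G.M, 0) - W (0, 0) := fun x hx => by
    rw [Finset.sum_range_sub fun y => W (y, x), w0 x hx, w1 x hx]
  have e1 : ∀ y ∈ range G.M,
      ∑ x ∈ range G.M, (U (x + 1, y) - U (x, y)) * (W (y + 1, x) - W (y, x)) =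
      U (G.M, 0) * (W (y + 1, m) - W (y, m)) - U (0, 0) * (W (y + 1, 0) - W (y, 0)) -
        ∑ x ∈ range m, ((W (y + 1, x + 1) - W (y + 1, x)) - (W (y, x + 1) - W (y, x))) *
          U (x + 1, y) := fun y hy => by
    have hy' := Finset.mem_range.1 hy
    rw [← Grid.adm_left hU hy', ← Grid.adm_right hU hy', hm,
      abel1 (fun x => U (x, y)) fun x => W (y + 1, x) - W (y, x)]
    congr 1
    exact Finset.sum_congr rfl fun x _ => by ring
  have e2 : ∀ x ∈ range m, ∑ y ∈ range G.M,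
      ((W (y + 1, x + 1) - W (y + 1, x)) - (W (y, x + 1) - W (y, x))) * U (x + 1, y) = 0 := by
    intro x hx
    have hx' := Finset.mem_range.1 hx
    have a0 : W (0, x + 1) - W (0, x) = 0 := by rw [w0 _ (by omega), w0 x (by omega), sub_self]
    have a1 : W (m + 1, x + 1) - W (m + 1, x) = 0 := by
      rw [← hm, w1 _ (by omega), w1 x (by omega), sub_self]
    rw [hm, abel1 (fun y => W (y, x + 1) - W (y, x)) fun y => U (x + 1, y), a0, a1,
      Finset.sum_eq_zero fun y hy => ?_]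
    · ring
    have hy' := Finset.mem_range.1 hy
    rcases h.one (x + 1) (y + 1) with k | k
    · rw [← hU (x + 1, y) (x + 1, y + 1) (.inl ⟨by simp only; omega, by simp only; omega, rfl,
        .inr (.inr k)⟩), sub_self, mul_zero]
    · rw [← hW (y + 1, x) (y + 1, x + 1) (.inl ⟨by simp only [Grid.T]; omega,
        by simp only [Grid.T]; omega, rfl, .inr (.inr k)⟩), sub_self, zero_mul]
  rw [Finset.sum_comm, Finset.sum_congr rfl e1, Finset.sum_sub_distrib, Finset.sum_sub_distrib,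
    Finset.sum_comm, Finset.sum_eq_zero e2, ← Finset.mul_sum, ← Finset.mul_sum,
    tel m (by omega), tel 0 (by omega)]
  ring

lemma orth [Fintype I] [Fintype J] (h : G.OK) : Orth G.side G.T.side := by
  intro U W hU hW
  have k := key h hU hW
  rw [h.split _ ∅ (by simp) fun x y hx hy hz _ => ?_] at k
  · rw [Fintype.sum_sum_type]
    simp only [Finset.sum_empty, add_zero] at k
    refine Eq.trans ?_ k
    congr 1
    refine Finset.sum_congr rfl fun i _ => ?_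
    change (U (G.r i, G.b i) - U (G.l i, G.b i)) * (W (G.t i, G.l i) - W (G.b i, G.l i)) = _
    rw [← Finset.sum_Ico_sub (fun x => U (x, G.b i)) (h.rects.lr i).1.le,
      ← Finset.sum_Ico_sub (fun y => W (y, G.l i)) (h.rects.bt i).1.le, Finset.sum_mul_sum]
    refine Finset.sum_congr rfl fun x hx => Finset.sum_congr rfl fun y hy => ?_
    obtain ⟨x1, x2⟩ := Finset.mem_Ico.1 hx
    obtain ⟨y1, y2⟩ := Finset.mem_Ico.1 hy
    rw [h.adm_in hU i (x := x + 1) (by omega) (by omega) y1 y2, h.adm_in hU i x1 x2.le y1 y2,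
      h.T.adm_in hW i (x := y + 1) (y := x) (Nat.le_succ_of_le y1) y2 x1 x2,
      h.T.adm_in hW i (x := y) (y := x) y1 y2.le x1 x2]
    rfl
  · rcases hz with hz | hz
    · rw [Grid.adm_Z hU hx hy hz, sub_self, zero_mul]
    · rw [Grid.adm_Z (G := G.T) hW hy hx hz, sub_self, mul_zero]

/-- the grid without contracted cells -/
def G0 (G : Grid I J) : Grid I J := { G with Z := fun _ _ => False }

/-- potentials that satisfy the vertical conditions and have total zero -/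
def P0 (G : Grid I J) : Submodule ℝ (ℕ × ℕ → ℝ) where
  carrier := {U | (G0 G).side.Adm U ∧ U (G.M, 0) = U (0, 0)}
  add_mem' := fun {U V} hU hV => ⟨fun x y k => by
    change U x + V x = U y + V y
    rw [hU.1 x y k, hV.1 x y k], by
    change U _ + V _ = U _ + V _
    rw [hU.2, hV.2]⟩
  zero_mem' := ⟨fun _ _ _ => rfl, rfl⟩
  smul_mem' := fun c U hU => ⟨fun x y k => by
    change c * U x = c * U y
    rw [hU.1 x y k], by
    change c * U _ = c * U _
    rw [hU.2]⟩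

/-- horizontal difference as a linear functional -/
def dL (G : Grid I J) (u v : ℕ × ℕ) : P0 G →ₗ[ℝ] ℝ :=
  ((LinearMap.proj v : (ℕ × ℕ → ℝ) →ₗ[ℝ] ℝ) - LinearMap.proj u).comp (P0 G).subtype

lemma dL_apply (u v : ℕ × ℕ) (U : P0 G) : dL G u v U = U.1 v - U.1 u := rfl

variable [Fintype I] [Fintype J]

/-- the lift of an edge vector to the cells -/
noncomputable def q0 (G : Grid I J) (v : I ⊕ J → ℝ) (x y : ℕ) : ℝ :=
  ∑ i, (if InR G.l G.r G.b G.t i x y then v (.inl i) / ((G.t i : ℝ) - G.b i) else 0) +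
    ∑ j, if G.px j = x ∧ G.py j = y then v (.inr j) else 0

lemma q0_rect (h : G.OK) (v : I ⊕ J → ℝ) {i : I} {x y : ℕ} (k : InR G.l G.r G.b G.t i x y) :
    q0 G v x y = v (.inl i) / ((G.t i : ℝ) - G.b i) := by
  rw [q0, Finset.sum_eq_single i (fun j _ hj => if_neg fun k' => hj (h.rects.dis j i x y k' k))
    (by simp), if_pos k, Finset.sum_eq_zero fun j _ => if_neg fun k' =>
      (h.cell j).2.2.2.2 i (by rw [k'.1, k'.2]; exact k), add_zero]

lemma q0_cell (h : G.OK) (v : I ⊕ J → ℝ) (j : J) : q0 G v (G.px j) (G.py j) = v (.inr j) := by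
  rw [q0, Finset.sum_eq_zero fun i _ => if_neg ((h.cell j).2.2.2.2 i), zero_add,
    Finset.sum_eq_single j (fun j' _ hj => if_neg fun k => hj (h.inj j' j k.1 k.2)) (by simp),
    if_pos ⟨rfl, rfl⟩]

lemma q0_Z (h : G.OK) (v : I ⊕ J → ℝ) {x y : ℕ} (k : G.Z x y ∨ G.Z' x y) : q0 G v x y = 0 := by
  rw [q0, Finset.sum_eq_zero fun i _ => if_neg (h.free x y i k), zero_add,
    Finset.sum_eq_zero fun j _ => if_neg fun k' => ?_]
  rw [← k'.1, ← k'.2] at k
  exact k.elim (h.cell j).2.2.1 (h.cell j).2.2.2.1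

omit [Fintype I] [Fintype J] in
lemma sum_rect (h : G.OK) (v : I ⊕ J → ℝ) (i : I) :
    ∑ _y ∈ Finset.Ico (G.b i) (G.t i), v (.inl i) / ((G.t i : ℝ) - G.b i) = v (.inl i) := by
  have k := (h.rects.bt i).1
  have k' : (G.b i : ℝ) < G.t i := by exact_mod_cast k
  rw [Finset.sum_const, Nat.card_Ico, nsmul_eq_mul, Nat.cast_sub k.le]
  have : (G.t i : ℝ) - G.b i ≠ 0 := by linarith
  field_simp

lemma pair_q0 (h : G.OK) (v : I ⊕ J → ℝ) {U : ℕ × ℕ → ℝ} (hU : (G0 G).side.Adm U) :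
    ∑ x ∈ range G.M, ∑ y ∈ range G.M, (U (x + 1, y) - U (x, y)) * q0 G v x y =
      ∑ k, G.side.D U k * v k := by
  rw [h.split _ ∅ (by simp) fun x y _ _ hz _ => by rw [q0_Z h v hz, mul_zero],
    Fintype.sum_sum_type, Finset.sum_empty, add_zero]
  congr 1
  · refine Finset.sum_congr rfl fun i _ => ?_
    change _ = (U (G.r i, G.b i) - U (G.l i, G.b i)) * v (.inl i)
    rw [← Finset.sum_Ico_sub (fun x => U (x, G.b i)) (h.rects.lr i).1.le, ← sum_rect h v i,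
      Finset.sum_mul_sum]
    refine Finset.sum_congr rfl fun x hx => Finset.sum_congr rfl fun y hy => ?_
    obtain ⟨x1, x2⟩ := Finset.mem_Ico.1 hx
    obtain ⟨y1, y2⟩ := Finset.mem_Ico.1 hy
    have up : ∀ x', G.l i ≤ x' → x' ≤ G.r i → U (x', y) = U (x', G.b i) := fun x' a b =>
      Grid.adm_up (G := G0 G) hU (b.trans (h.rects.lr i).2) y1 (y2.trans_le (h.rects.bt i).2)
        fun w c d => .inr (.inr (h.pu i x' w a b c (by omega)))
    rw [q0_rect h v ⟨x1, x2, y1, y2⟩, up (x + 1) (by omega) (by omega), up x x1 x2.le]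
  · exact Finset.sum_congr rfl fun j _ => by rw [q0_cell h v j]; rfl

/-- Lagrange multipliers on the contracted cells -/
lemma exists_q1 (h : G.OK) (v : I ⊕ J → ℝ)
    (hv : ∀ U, G.side.Adm U → G.side.tot U = 0 → ∑ k, G.side.D U k * v k = 0) :
    ∃ q : ℕ → ℕ → ℝ, (∀ x y, ¬ G.Z x y → q x y = q0 G v x y) ∧ ∀ U ∈ P0 G,
      ∑ x ∈ range G.M, ∑ y ∈ range G.M, (U (x + 1, y) - U (x, y)) * q x y = 0 := by
  let L : Fin G.M × Fin G.M → P0 G →ₗ[ℝ] ℝ := fun z =>
    if G.Z z.1 z.2 then dL G (z.1, z.2) (z.1 + 1, z.2) else 0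
  let K : P0 G →ₗ[ℝ] ℝ := ∑ k, v k • dL G (G.side.l k) (G.side.r k)
  have hK : ∀ U : P0 G, K U = ∑ k, G.side.D U.1 k * v k := fun U => by
    simp only [K, LinearMap.sum_apply, LinearMap.smul_apply, smul_eq_mul]
    exact Finset.sum_congr rfl fun k _ => mul_comm _ _
  have hs : K ∈ Submodule.span ℝ (Set.range L) := by
    refine mem_span_of_iInf_ker_le_ker fun U hU => ?_
    rw [LinearMap.mem_ker, hK]
    refine hv U.1 (fun a b k => ?_) (sub_eq_zero.2 U.2.2)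
    rcases k with k | ⟨k1, k2, rfl, k4⟩
    · exact U.2.1 a b (.inl k)
    · have k5 := LinearMap.mem_ker.1 (Submodule.mem_iInf _ |>.1 hU (⟨a.1, k1⟩, ⟨a.2, k2⟩))
      simp only [L, if_pos k4, dL_apply] at k5
      exact (sub_eq_zero.1 k5).symm
  obtain ⟨c, hc⟩ := (Submodule.mem_span_range_iff_exists_fun ℝ).1 hs
  let c' : ℕ → ℕ → ℝ := fun x y =>
    if k : x < G.M ∧ y < G.M then (if G.Z x y then c (⟨x, k.1⟩, ⟨y, k.2⟩) else 0) else 0
  refine ⟨fun x y => q0 G v x y - c' x y, fun x y k => by simp [c', k], fun U hU => ?_⟩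
  simp only [mul_sub, Finset.sum_sub_distrib]
  rw [pair_q0 h v hU.1, ← hK ⟨U, hU⟩, ← hc, LinearMap.sum_apply, Fintype.sum_prod_type,
    Finset.sum_range, sub_eq_zero]
  refine Finset.sum_congr rfl fun x _ => ?_
  rw [Finset.sum_range]
  refine Finset.sum_congr rfl fun y _ => ?_
  by_cases k : G.Z x y
  · simp only [L, c', if_pos k, dif_pos (And.intro x.is_lt y.is_lt), LinearMap.smul_apply,
      dL_apply, smul_eq_mul]
    exact mul_comm _ _
  · simp [L, c', k]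

lemma sum_ind (q : ℕ → ℕ → ℝ) {M x₁ y₀ : ℕ} (hx : x₁ < M) (hy : y₀ ≤ M) :
    ∑ x ∈ range M, ∑ y ∈ range M, (if x = x₁ ∧ y < y₀ then (1 : ℝ) else 0) * q x y =
      ∑ y ∈ range y₀, q x₁ y := by
  rw [Finset.sum_eq_single x₁ (fun x _ k => Finset.sum_eq_zero fun y _ => by simp [k])
    (fun k => (k (Finset.mem_range.2 hx)).elim)]
  simp only [true_and, ite_mul, one_mul, zero_mul]
  rw [← Finset.sum_filter]
  refine Finset.sum_congr (Finset.ext fun y => ?_) fun _ _ => rfl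
  simp only [Finset.mem_filter, Finset.mem_range]
  omega

lemma dual (h : G.OK) : Dual G.side G.T.side := by
  intro v hv
  obtain ⟨q, hq, hq'⟩ := exists_q1 h v hv
  have hr : ∀ i x y, InR G.l G.r G.b G.t i x y → q x y = v (.inl i) / ((G.t i : ℝ) - G.b i) :=
    fun i x y k => by rw [hq x y fun z => h.free x y i (.inl z) k, q0_rect h v k]
  have test : ∀ x y, x + 1 < G.M → y ≤ G.M → (y = 0 ∨ y = G.M ∨ ¬ G.PU (x + 1) y) →
      ∑ w ∈ range y, q x w = ∑ w ∈ range y, q (x + 1) w := by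
    intro x y hx hy k
    have k1 := hq' (fun u => if u.1 = x + 1 ∧ u.2 < y then 1 else 0) ⟨?_, ?_⟩
    · simp only [sub_mul, Finset.sum_sub_distrib, Nat.add_right_cancel_iff] at k1
      rw [sum_ind q (by omega) hy, sum_ind q hx hy] at k1
      exact sub_eq_zero.1 k1
    · rintro ⟨a, b⟩ _ (⟨k1, k2, rfl, k3⟩ | ⟨-, -, -, k4⟩)
      · simp only [G0] at k1 k2 k3 ⊢
        refine if_congr (and_congr_right fun e => ?_) rfl rfl
        subst e
        by_cases e : b + 1 = y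
        · subst e
          rcases k3 with k3 | k3 | k3 <;> rcases k with k | k | k <;>
            first | omega | exact (k k3).elim
        · omega
      · exact k4.elim
    · simp only
      rw [if_neg fun e => by omega, if_neg fun e => by omega]
  refine ⟨fun u => ∑ w ∈ range u.1, q u.2 w, ?_, ?_⟩
  · rintro ⟨y, x⟩ _ (⟨k1, k2, rfl, k3⟩ | ⟨k1, k2, rfl, k4⟩)
    · simp only [Grid.T] at k1 k2 k3 ⊢
      by_cases k4 : y = 0 ∨ y = G.M ∨ ¬ G.PU (x + 1) y
      · exact test x y k2 k1 k4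
      · simp only [not_or, not_not] at k4
        obtain ⟨i, a1, a2, a3, a4⟩ :=
          h.both _ _ k4.2.2 ((k3.resolve_left k4.1).resolve_left k4.2.1)
        have k5 := test x (G.b i) k2 (by omega) (.inr (.inr fun pu => by
          obtain ⟨j, c1, c2, c3, c4⟩ := h.both _ _ pu (h.pw i _ _ a1 a2 le_rfl (by omega))
          obtain rfl := h.rects.dis i j (x + 1) (G.b i) ⟨a1.le, a2, le_rfl, by omega⟩
            ⟨c1.le, c2, c3.le, c4⟩
          omega))
        rw [← Finset.sum_range_add_sum_Ico _ a3.le, ← Finset.sum_range_add_sum_Ico _ a3.le, k5]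
        congr 1
        refine Finset.sum_congr rfl fun w hw => ?_
        obtain ⟨w1, w2⟩ := Finset.mem_Ico.1 hw
        rw [hr i x w ⟨by omega, by omega, w1, by omega⟩,
          hr i (x + 1) w ⟨a1.le, a2, w1, by omega⟩]
    · simp only [Grid.T] at k4 ⊢
      rw [Finset.sum_range_succ, hq x y fun z => h.excl x y ⟨z, k4⟩, q0_Z h v (.inr k4), add_zero]
  · rintro (i | j)
    · change _ = ∑ w ∈ range (G.t i), q (G.l i) w - ∑ w ∈ range (G.b i), q (G.l i) w
      rw [← Finset.sum_Ico_eq_sub _ (h.rects.bt i).1.le, ← sum_rect h v i]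
      refine Finset.sum_congr rfl fun w hw => ?_
      obtain ⟨w1, w2⟩ := Finset.mem_Ico.1 hw
      exact (hr i _ w ⟨le_rfl, (h.rects.lr i).1, w1, w2⟩).symm
    · change _ = ∑ w ∈ range (G.py j + 1), q (G.px j) w - ∑ w ∈ range (G.py j), q (G.px j) w
      rw [Finset.sum_range_succ, add_sub_cancel_left, hq _ _ (h.cell j).2.2.1, q0_cell h v j]

end GridM

theorem grid_of : GridStmt := fun _ _ _ _ _ h => ⟨GridM.orth h, GridM.dual h⟩

end Pool.Agent.MP_a421c2_co.Ex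

end MrgPart4

-- ======== part 5: formerly Pool.Agent.MP_a421c2_co.Ex.Leak
section MrgPart5

/-! # LEAK: the side vector is almost a flow of the grid network -/

set_option autoImplicit false
open MeasureTheory Set Real
open Finset (range)

namespace Pool.Agent.MP_a421c2_co.Ex

namespace Leak

/-- summation by parts -/
lemma abel (U G : ℕ → ℝ) {l r : ℕ} (h : l ≤ r) :
    ∑ x ∈ Finset.Ico l r, (U (x + 1) - U x) * G x =
      U r * G r - U l * G l - ∑ x ∈ Finset.Ico l r, U (x + 1) * (G (x + 1) - G x) := by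
  induction r, h using Nat.le_induction with
  | base => simp
  | succ r hr ih =>
    rw [Finset.sum_Ico_succ_top hr, Finset.sum_Ico_succ_top hr, ih]
    ring

lemma tele (G : ℕ → ℝ) {l r : ℕ} (h : l ≤ r) :
    ∑ x ∈ Finset.Ico l r, (G (x + 1) - G x) = G r - G l := by
  induction r, h using Nat.le_induction with
  | base => simp
  | succ r hr ih =>
    rw [Finset.sum_Ico_succ_top hr, ih]
    ring

lemma abel_bd (U G : ℕ → ℝ) {Mu : ℝ} (hU : ∀ x, |U x| ≤ Mu) {l r : ℕ} (h : l ≤ r) :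
    |∑ x ∈ Finset.Ico l r, (U (x + 1) - U x) * G x - (U r * G r - U l * G l)| ≤
      Mu * ∑ x ∈ Finset.Ico l r, |G (x + 1) - G x| := by
  rw [abel U G h, sub_sub_cancel_left, abs_neg, Finset.mul_sum]
  refine (Finset.abs_sum_le_sum_abs _ _).trans (Finset.sum_le_sum fun x _ => ?_)
  rw [abs_mul]
  exact mul_le_mul_of_nonneg_right (hU _) (abs_nonneg _)

lemma abel_left (U G : ℕ → ℝ) {Mu : ℝ} (hU : ∀ x, |U x| ≤ Mu) {l r : ℕ} (h : l ≤ r) :
    |∑ x ∈ Finset.Ico l r, (U (x + 1) - U x) * G x - (U r - U l) * G l| ≤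
      2 * Mu * ∑ x ∈ Finset.Ico l r, |G (x + 1) - G x| := by
  have k := abel_bd (fun x => U x - U r) G (Mu := 2 * Mu) (fun x => by
    have := abs_sub (U x) (U r)
    linarith [hU x, hU r]) h
  simp only [sub_sub_sub_cancel_right, sub_self, zero_mul, zero_sub] at k
  rwa [← neg_mul, neg_sub] at k

/-- a row function that vanishes off a set of cells -/
lemma row_bd (U w : ℕ → ℝ) (P : ℕ → Prop) [DecidablePred P] {Mu B : ℝ} (hU : ∀ x, |U x| ≤ Mu)
    (hw : ∀ x, |w x| ≤ B) {M : ℕ} (hM : ¬ P M) :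
    |∑ x ∈ range M, (U (x + 1) - U x) * (if P x then w x else 0)| ≤
      Mu * (∑ x ∈ range M, |w (x + 1) - w x| +
        2 * B * ∑ x ∈ range (M + 1), if P x ∧ (x = 0 ∨ ¬ P (x - 1)) then 1 else 0) := by
  have hMu : 0 ≤ Mu := (abs_nonneg _).trans (hU 0)
  have hB : 0 ≤ B := (abs_nonneg _).trans (hw 0)
  have k := abel_bd U (fun x => if P x then w x else 0) hU (Nat.zero_le M)
  rw [← Finset.range_eq_Ico, if_neg hM, mul_zero, zero_sub, sub_neg_eq_add] at k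
  let c : ℕ → ℝ := fun x => if P x then 1 else 0
  have t1 : ∑ x ∈ range M, (c (x + 1) - c x) = -c 0 := by
    rw [Finset.sum_range_sub]
    simp only [c, if_neg hM, zero_sub]
  have t2 : ∑ x ∈ range M, |(if P (x + 1) then w (x + 1) else 0) - if P x then w x else 0| ≤
      ∑ x ∈ range M, (|w (x + 1) - w x| + (2 * B *
        (if P (x + 1) ∧ (x + 1 = 0 ∨ ¬ P (x + 1 - 1)) then 1 else 0) - B * (c (x + 1) - c x))) := by
    refine Finset.sum_le_sum fun x _ => ?_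
    have a1 := hw x
    have a2 := hw (x + 1)
    have a3 := abs_nonneg (w (x + 1) - w x)
    by_cases h1 : P (x + 1) <;> by_cases h2 : P x <;> simp [c, h1, h2] <;> linarith
  rw [Finset.sum_add_distrib, Finset.sum_sub_distrib, ← Finset.mul_sum, ← Finset.mul_sum, t1] at t2
  rw [Finset.sum_range_succ']
  have t3 : |U 0 * if P 0 then w 0 else 0| ≤ Mu * (B * c 0) := by
    rw [abs_mul]
    refine mul_le_mul (hU 0) ?_ (abs_nonneg _) hMu
    by_cases h1 : P 0 <;> simp [c, h1, hw 0]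
  have t4 : (if P 0 ∧ (0 = 0 ∨ ¬ P (0 - 1)) then (1 : ℝ) else 0) = c 0 := by simp [c]
  rw [t4]
  have t5 := mul_le_mul_of_nonneg_left t2 hMu
  have t6 := abs_sub (∑ x ∈ range M, (U (x + 1) - U x) * (if P x then w x else 0) +
    U 0 * if P 0 then w 0 else 0) (U 0 * if P 0 then w 0 else 0)
  rw [add_sub_cancel_right] at t6
  linarith

/-- long runs have few starting cells -/
lemma starts_le {χ : Finset (ℕ × ℕ)} {s : ℕ}
    (run : ∀ u ∈ χ, ∃ x1 x2, x1 ≤ u.1 ∧ u.1 < x2 ∧ x1 + s ≤ x2 ∧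
      ∀ x, x1 ≤ x → x < x2 → (x, u.2) ∈ χ) :
    (χ.filter fun u => u.1 = 0 ∨ (u.1 - 1, u.2) ∉ χ).card * s ≤ χ.card := by
  have k : ∀ u ∈ χ.filter fun u => u.1 = 0 ∨ (u.1 - 1, u.2) ∉ χ, ∀ x, u.1 ≤ x → x < u.1 + s →
      (x, u.2) ∈ χ := fun u hu x h1 h2 => by
    obtain ⟨hu, h3⟩ := Finset.mem_filter.1 hu
    obtain ⟨x1, x2, a1, a2, a3, a4⟩ := run u hu
    have : x1 = u.1 := by
      by_contra hne
      exact h3.elim (fun h => by omega) fun h => h (a4 _ (by omega) (by omega))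
    exact a4 x (by omega) (by omega)
  have := Finset.card_le_card_of_injOn
    (s := (χ.filter fun u => u.1 = 0 ∨ (u.1 - 1, u.2) ∉ χ) ×ˢ range s) (t := χ)
    (fun v => (v.1.1 + v.2, v.1.2)) (fun v hv => by
      obtain ⟨h1, h2⟩ := Finset.mem_product.1 hv
      exact k _ h1 _ (Nat.le_add_right _ _) (Nat.add_lt_add_left (Finset.mem_range.1 h2) _))
    fun v hv v' hv' e => by
      obtain ⟨h1, h2⟩ := Finset.mem_product.1 hv
      obtain ⟨h3, h4⟩ := Finset.mem_product.1 hv'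
      rw [Finset.mem_range] at h2 h4
      simp only [Prod.mk.injEq] at e
      have h5 : v.1.1 = v'.1.1 := by
        by_contra hne
        rcases lt_or_gt_of_ne hne with h | h
        · refine (Finset.mem_filter.1 h3).2.elim (fun h => by omega) fun h' => h' ?_
          rw [← e.2]
          exact k _ h1 _ (by omega) (by omega)
        · refine (Finset.mem_filter.1 h1).2.elim (fun h => by omega) fun h' => h' ?_
          rw [e.2]
          exact k _ h3 _ (by omega) (by omega)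
      exact Prod.ext (Prod.ext h5 e.2) (by omega)
  rwa [Finset.card_product, Finset.card_range] at this

section Main
variable {I J : Type} [Fintype I] [Fintype J] {G : Grid I J} {U : ℕ × ℕ → ℝ} {w : ℕ → ℕ → ℝ}
  {Mu : ℝ}

omit [Fintype I] [Fintype J] in
/-- the sum over all cells -/
lemma total (hU : G.side.Adm U) (hM : ∀ x, |U x| ≤ Mu) {T : ℝ}
    (hT : ∀ x, ∑ y ∈ range G.M, w x y = T) :
    |∑ x ∈ range G.M, ∑ y ∈ range G.M, (U (x + 1, y) - U (x, y)) * w x y -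
      T * (U (G.M, 0) - U (0, 0))| ≤
      Mu * ∑ x ∈ range G.M, ∑ y ∈ range G.M, |w (x + 1) y - w x y| := by
  have e : T * (U (G.M, 0) - U (0, 0)) =
      ∑ y ∈ range G.M, (U (G.M, y) * w G.M y - U (0, y) * w 0 y) := by
    rw [Finset.sum_congr rfl fun y hy => by
      rw [Grid.adm_left hU (Finset.mem_range.1 hy), Grid.adm_right hU (Finset.mem_range.1 hy)],
      Finset.sum_sub_distrib, ← Finset.mul_sum, ← Finset.mul_sum, hT, hT]
    ring
  rw [e, Finset.sum_comm, ← Finset.sum_sub_distrib, Finset.sum_comm (s := range G.M),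
    Finset.mul_sum]
  refine (Finset.abs_sum_le_sum_abs _ _).trans (Finset.sum_le_sum fun y _ => ?_)
  have := abel_bd (fun x => U (x, y)) (fun x => w x y) (fun x => hM _) (Nat.zero_le G.M)
  rwa [← Finset.range_eq_Ico] at this

omit [Fintype I] [Fintype J] in
/-- the sum over one rectangle -/
lemma one_rect (h : G.OK) (hU : G.side.Adm U) (hM : ∀ x, |U x| ≤ Mu) (i : I) :
    |∑ x ∈ Finset.Ico (G.l i) (G.r i), ∑ y ∈ Finset.Ico (G.b i) (G.t i),
        (U (x + 1, y) - U (x, y)) * w x y -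
      (U (G.r i, G.b i) - U (G.l i, G.b i)) * ∑ y ∈ Finset.Ico (G.b i) (G.t i), w (G.l i) y| ≤
      2 * Mu * ∑ x ∈ Finset.Ico (G.l i) (G.r i), ∑ y ∈ Finset.Ico (G.b i) (G.t i),
        |w (x + 1) y - w x y| := by
  have hl := (h.rects.lr i).1.le
  rw [Finset.sum_comm, Finset.mul_sum, ← Finset.sum_sub_distrib,
    Finset.sum_comm (s := Finset.Ico (G.l i) (G.r i)), Finset.mul_sum]
  refine (Finset.abs_sum_le_sum_abs _ _).trans (Finset.sum_le_sum fun y hy => ?_)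
  obtain ⟨h1, h2⟩ := Finset.mem_Ico.1 hy
  rw [← h.adm_in hU i hl le_rfl h1 h2, ← h.adm_in hU i le_rfl hl h1 h2]
  exact abel_left (fun x => U (x, y)) (fun x => w x y) (fun x => hM _) hl

/-- the rectangles are disjoint -/
lemma rect_sum (h : G.OK) (φ : ℕ → ℕ → ℝ) (hφ : ∀ x y, 0 ≤ φ x y) :
    ∑ i, ∑ x ∈ Finset.Ico (G.l i) (G.r i), ∑ y ∈ Finset.Ico (G.b i) (G.t i), φ x y ≤
      ∑ x ∈ range G.M, ∑ y ∈ range G.M, φ x y := by
  classical
  rw [h.split φ ((range G.M ×ˢ range G.M).filter fun u => G.Z u.1 u.2 ∨ G.Z' u.1 u.2)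
    (fun u hu => by
      simp only [Finset.mem_filter, Finset.mem_product, Finset.mem_range] at hu
      exact ⟨hu.1.1, hu.1.2, hu.2⟩)
    fun x y h1 h2 h3 h4 => absurd (by
      simp only [Finset.mem_filter, Finset.mem_product, Finset.mem_range]
      exact ⟨⟨h1, h2⟩, h3⟩) h4]
  have a1 : 0 ≤ ∑ j, φ (G.px j) (G.py j) := Finset.sum_nonneg fun _ _ => hφ _ _
  have a2 : 0 ≤ ∑ u ∈ (range G.M ×ˢ range G.M).filter fun u => G.Z u.1 u.2 ∨ G.Z' u.1 u.2,
      φ u.1 u.2 := Finset.sum_nonneg fun _ _ => hφ _ _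
  linarith

/-- the sum over the long runs -/
lemma runs_bd {M : ℕ} {χ : Finset (ℕ × ℕ)} (sub : ∀ u ∈ χ, u.1 < M ∧ u.2 < M)
    (hM : ∀ x, |U x| ≤ Mu) {B : ℝ} (hw : ∀ x y, |w x y| ≤ B) :
    |∑ u ∈ χ, (U (u.1 + 1, u.2) - U (u.1, u.2)) * w u.1 u.2| ≤
      Mu * (∑ x ∈ range M, ∑ y ∈ range M, |w (x + 1) y - w x y| +
        2 * B * (χ.filter fun u => u.1 = 0 ∨ (u.1 - 1, u.2) ∉ χ).card) := by
  have e1 : ∑ u ∈ χ, (U (u.1 + 1, u.2) - U (u.1, u.2)) * w u.1 u.2 =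
      ∑ y ∈ range M, ∑ x ∈ range M,
        (U (x + 1, y) - U (x, y)) * (if (x, y) ∈ χ then w x y else 0) := by
    rw [Finset.sum_comm, ← Finset.sum_product']
    simp only [mul_ite, mul_zero, Prod.mk.eta]
    rw [← Finset.sum_filter]
    refine Finset.sum_congr ?_ fun _ _ => rfl
    ext u
    simp only [Finset.mem_filter, Finset.mem_product, Finset.mem_range]
    exact ⟨fun hu => ⟨sub u hu, hu⟩, fun hu => hu.2⟩
  have e2 : ((χ.filter fun u => u.1 = 0 ∨ (u.1 - 1, u.2) ∉ χ).card : ℝ) =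
      ∑ y ∈ range M, ∑ x ∈ range (M + 1),
        if (x, y) ∈ χ ∧ (x = 0 ∨ (x - 1, y) ∉ χ) then 1 else 0 := by
    rw [Finset.sum_comm, ← Finset.sum_product', Finset.sum_boole]
    congr 2
    ext u
    simp only [Finset.mem_filter, Finset.mem_product, Finset.mem_range, Prod.mk.eta]
    exact ⟨fun hu => ⟨⟨(sub u hu.1).1.trans (Nat.lt_succ_self _), (sub u hu.1).2⟩, hu⟩,
      fun hu => hu.2⟩
  rw [e1, e2, Finset.sum_comm (s := range M) (f := fun x y => |w (x + 1) y - w x y|),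
    Finset.mul_sum (range M), ← Finset.sum_add_distrib, Finset.mul_sum]
  refine (Finset.abs_sum_le_sum_abs _ _).trans (Finset.sum_le_sum fun y _ => ?_)
  exact row_bd (fun x => U (x, y)) (fun x => w x y) (fun x => (x, y) ∈ χ) (fun x => hM _)
    (fun x => hw x y) fun h => lt_irrefl _ (sub _ h).1

end Main

end Leak

open Leak in
theorem leak_of : LeakStmt := by
  intro I J _ _ G χ s F d ε h e hG hR hs hh he hF0 hF1 hF2 hd hε hχ U Mu hU hM
  let w : ℕ → ℕ → ℝ := fun x y => h + (F x (y + 1) - F x y)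
  have hMu : 0 ≤ Mu := (abs_nonneg _).trans (hM (0, 0))
  have he0 : 0 ≤ e :=
    (Finset.sum_nonneg fun _ _ => Finset.sum_nonneg fun _ _ => abs_nonneg _).trans hF2
  have hw : ∀ x y, |w x y| ≤ 2 * h := fun x y => by
    have a1 := abs_add_le h (F x (y + 1) - F x y)
    have a2 := mul_le_mul_of_nonneg_right he hh.le
    rw [abs_of_pos hh] at a1
    linarith [hF1 x y]
  have hcol : ∀ x {b t : ℕ}, b ≤ t →
      ∑ y ∈ Finset.Ico b t, w x y = h * ((t : ℝ) - b) + F x t - F x b := fun x b t hbt => by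
    simp only [w]
    rw [Finset.sum_add_distrib, tele (F x) hbt, Finset.sum_const, Nat.card_Ico, nsmul_eq_mul,
      Nat.cast_sub hbt]
    ring
  have hmix : ∑ x ∈ range G.M, ∑ y ∈ range G.M, |w (x + 1) y - w x y| ≤ e := by
    refine le_trans (le_of_eq ?_) hF2
    refine Finset.sum_congr rfl fun x _ => Finset.sum_congr rfl fun y _ => congrArg _ ?_
    simp only [w]
    ring
  have a0 := hG.split (fun x y => (U (x + 1, y) - U (x, y)) * w x y) χ hR.sub
    fun x y h1 h2 h3 h4 => by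
      have hz : G.Z x y := h3.elim id fun h5 => (hR.all x y h1 h2 h5).resolve_left h4
      simp only [Grid.adm_Z hU h1 h2 hz, sub_self, zero_mul]
  have a1 := total (w := w) hU hM (T := G.M * h) fun x => by
    rw [Finset.range_eq_Ico, hcol x (Nat.zero_le _), (hF0 x).1, (hF0 x).2]
    push_cast
    ring
  have a2 : |∑ i, ∑ x ∈ Finset.Ico (G.l i) (G.r i), ∑ y ∈ Finset.Ico (G.b i) (G.t i),
      (U (x + 1, y) - U (x, y)) * w x y - ∑ i, (U (G.r i, G.b i) - U (G.l i, G.b i)) * d i| ≤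
      2 * Mu * e + 2 * Mu * e := by
    have b1 := mul_le_mul_of_nonneg_left
      ((rect_sum hG (fun x y => |w (x + 1) y - w x y|) fun _ _ => abs_nonneg _).trans hmix)
      (show 0 ≤ 2 * Mu by linarith)
    have b2 := mul_le_mul_of_nonneg_left hε (show 0 ≤ 2 * Mu by linarith)
    refine le_trans ?_ (add_le_add b1 b2)
    rw [← Finset.sum_sub_distrib, Finset.mul_sum, Finset.mul_sum, ← Finset.sum_add_distrib]
    refine (Finset.abs_sum_le_sum_abs _ _).trans (Finset.sum_le_sum fun i _ => ?_)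
    have b3 := one_rect (w := w) hG hU hM i
    rw [hcol _ (hG.rects.bt i).1.le] at b3
    refine (abs_sub_le _ _ _).trans (add_le_add b3 ?_)
    rw [← mul_sub, abs_mul, abs_sub_comm _ (d i)]
    refine mul_le_mul ?_ (hd i) (abs_nonneg _) (by linarith)
    have := abs_sub (U (G.r i, G.b i)) (U (G.l i, G.b i))
    linarith [hM (G.r i, G.b i), hM (G.l i, G.b i)]
  have a3 : |∑ j, (U (G.px j + 1, G.py j) - U (G.px j, G.py j)) * w (G.px j) (G.py j) -
      ∑ j, (U (G.px j + 1, G.py j) - U (G.px j, G.py j)) * h| ≤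
      e * ∑ j, |U (G.px j + 1, G.py j) - U (G.px j, G.py j)| * |h| := by
    rw [← Finset.sum_sub_distrib, Finset.mul_sum]
    refine (Finset.abs_sum_le_sum_abs _ _).trans (Finset.sum_le_sum fun j _ => ?_)
    rw [← mul_sub, abs_mul, abs_of_pos hh, mul_left_comm]
    refine mul_le_mul_of_nonneg_left ?_ (abs_nonneg _)
    simpa only [w, add_sub_cancel_left] using hF1 _ _
  have a4 := runs_bd (U := U) (w := w) (fun u hu => ⟨(hR.sub u hu).1, (hR.sub u hu).2.1⟩) hM hw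
  have a5 : h * ((χ.filter fun u => u.1 = 0 ∨ (u.1 - 1, u.2) ∉ χ).card : ℝ) ≤ e := by
    have b1 : ((χ.filter fun u => u.1 = 0 ∨ (u.1 - 1, u.2) ∉ χ).card : ℝ) * s ≤ χ.card := by
      exact_mod_cast starts_le hR.run
    have b2 : (0 : ℝ) < s := by exact_mod_cast hs
    refine le_of_mul_le_mul_right ?_ b2
    rw [mul_assoc]
    exact (mul_le_mul_of_nonneg_left b1 hh.le).trans hχ
  have a6 := a4.trans (mul_le_mul_of_nonneg_left (show _ ≤ 5 * e by linarith) hMu)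
  have a7 := a1.trans (mul_le_mul_of_nonneg_left hmix hMu)
  have a8 : 0 ≤ e * ∑ j, |U (G.px j + 1, G.py j) - U (G.px j, G.py j)| * |h| :=
    (abs_nonneg _).trans a3
  rw [Fintype.sum_sum_type]
  change |G.M * h * (U (G.M, 0) - U (0, 0)) - (∑ i, (U (G.r i, G.b i) - U (G.l i, G.b i)) * d i +
    ∑ j, (U (G.px j + 1, G.py j) - U (G.px j, G.py j)) * h)| ≤
    10 * e * (Mu + ∑ j, |U (G.px j + 1, G.py j) - U (G.px j, G.py j)| * |h|)
  rw [a0] at a7
  rw [abs_le] at a2 a3 a6 a7 ⊢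
  constructor <;> linarith [a2.1, a2.2, a3.1, a3.2, a6.1, a6.2, a7.1, a7.2]

end Pool.Agent.MP_a421c2_co.Ex

end MrgPart5

-- marker of a merged file
example : 731051 + 664390 = 731051 + 664390 := rfl
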