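import Mathlib.Algebra.Order.Ring.Star
import Mathlib.Algebra.Order.Archimedean.Real.Hom
import Mathlib.Algebra.Order.Chebyshev
import Mathlib.MeasureTheory.Integral.IntervalIntegral.Periodic
import Mathlib.Analysis.SpecialFunctions.Integrals.Basic
import Pool.Agent.MP_a421c2_co.Ex.Cell

-- ======== part 0: formerly Pool.Agent.MP_a421c2_co.Ex.Tilt
section MrgPart0

/-! # TILT: a lattice tilt field from the window estimate -/

set_option autoImplicit false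
open MeasureTheory Set Real
open Finset (range)

namespace Pool.Agent.MP_a421c2_co.Ex
noncomputable section

namespace Tilt

/-! ## Four large squares around the container -/

/-- the axis-parallel square with lower left corner x, y and side B -/
def ax (x y B : ℝ) : Tq := ⟨x + B / 2, y + B / 2, 0, B⟩

lemma mem_ax_cl {x y B : ℝ} {z : ℝ × ℝ} :
    z ∈ (ax x y B).cl 0 ↔ (x ≤ z.1 ∧ z.1 ≤ x + B) ∧ y ≤ z.2 ∧ z.2 ≤ y + B := by
  simp only [ax, Tq.cl, Tq.xi, Tq.ze, mem_ofPred_eq, cos_zero, sin_zero, mul_one, mul_zero,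
    add_zero, neg_zero, zero_add, sub_zero, abs_le]
  constructor <;> rintro ⟨⟨a, b⟩, c, d⟩ <;> refine ⟨⟨?_, ?_⟩, ?_, ?_⟩ <;> linarith

lemma mem_ax_op {x y B : ℝ} {z : ℝ × ℝ} :
    z ∈ (ax x y B).op ↔ (x < z.1 ∧ z.1 < x + B) ∧ y < z.2 ∧ z.2 < y + B := by
  simp only [ax, Tq.op, Tq.xi, Tq.ze, mem_ofPred_eq, cos_zero, sin_zero, mul_one, mul_zero,
    add_zero, neg_zero, zero_add, abs_lt]
  constructor <;> rintro ⟨⟨a, b⟩, c, d⟩ <;> refine ⟨⟨?_, ?_⟩, ?_, ?_⟩ <;> linarith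

/-- the pinwheel of four squares around the container -/
def virt (ℓ : ℝ) : Fin 4 → Tq :=
  ![ax ℓ 0 (ℓ + 100), ax (-100) ℓ (ℓ + 100), ax (-(ℓ + 100)) (-100) (ℓ + 100),
    ax 0 (-(ℓ + 100)) (ℓ + 100)]

lemma virt_0 (ℓ : ℝ) : virt ℓ 0 = ax ℓ 0 (ℓ + 100) := rfl
lemma virt_1 (ℓ : ℝ) : virt ℓ 1 = ax (-100) ℓ (ℓ + 100) := rfl
lemma virt_2 (ℓ : ℝ) : virt ℓ 2 = ax (-(ℓ + 100)) (-100) (ℓ + 100) := rfl
lemma virt_3 (ℓ : ℝ) : virt ℓ 3 = ax 0 (-(ℓ + 100)) (ℓ + 100) := rfl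

lemma four (j : Fin 4) : j = 0 ∨ j = 1 ∨ j = 2 ∨ j = 3 := by
  revert j; decide

lemma virt_θ (ℓ : ℝ) (j : Fin 4) : (virt ℓ j).θ = 0 := by
  rcases four j with rfl | rfl | rfl | rfl <;> rfl

lemma virt_d (ℓ : ℝ) (j : Fin 4) : (virt ℓ j).d = ℓ + 100 := by
  rcases four j with rfl | rfl | rfl | rfl <;> rfl

lemma virt_dis {ℓ : ℝ} (hℓ : 0 ≤ ℓ) (j j' : Fin 4) (h : j ≠ j') :
    Disjoint (virt ℓ j).op (virt ℓ j').op := by
  refine Set.disjoint_left.2 fun z a b => ?_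
  rcases four j with rfl | rfl | rfl | rfl <;> rcases four j' with rfl | rfl | rfl | rfl <;>
    first
    | exact h rfl
    | (simp only [virt_0, virt_1, virt_2, virt_3, mem_ax_op] at a b
       obtain ⟨⟨a1, a2⟩, a3, a4⟩ := a
       obtain ⟨⟨b1, b2⟩, b3, b4⟩ := b
       linarith)

lemma virt_out {ℓ : ℝ} (j : Fin 4) {z : ℝ × ℝ} (a : z ∈ (virt ℓ j).op)
    (b : z ∈ Ioo (0 : ℝ) ℓ ×ˢ Ioo (0 : ℝ) ℓ) : False := by
  obtain ⟨⟨b1, b2⟩, b3, b4⟩ := b
  rcases four j with rfl | rfl | rfl | rfl <;>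
    simp only [virt_0, virt_1, virt_2, virt_3, mem_ax_op] at a <;>
    obtain ⟨⟨a1, a2⟩, a3, a4⟩ := a <;> linarith

lemma virt_cover {ℓ : ℝ} (hℓ : 0 ≤ ℓ) {z : ℝ × ℝ} (h1 : -100 ≤ z.1) (h2 : z.1 ≤ ℓ + 100)
    (h3 : -100 ≤ z.2) (h4 : z.2 ≤ ℓ + 100)
    (h : ¬ (0 < z.1 ∧ z.1 < ℓ ∧ 0 < z.2 ∧ z.2 < ℓ)) : ∃ j, z ∈ (virt ℓ j).cl 0 := by
  by_cases c0 : ℓ ≤ z.1 ∧ 0 ≤ z.2
  · exact ⟨0, by rw [virt_0, mem_ax_cl]; exact ⟨⟨c0.1, by linarith⟩, c0.2, by linarith⟩⟩
  by_cases c1 : z.1 ≤ ℓ ∧ ℓ ≤ z.2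
  · exact ⟨1, by rw [virt_1, mem_ax_cl]; exact ⟨⟨h1, by linarith [c1.1]⟩, c1.2, by linarith⟩⟩
  by_cases c2 : z.1 ≤ 0 ∧ z.2 ≤ ℓ
  · exact ⟨2, by
      rw [virt_2, mem_ax_cl]; exact ⟨⟨by linarith, by linarith [c2.1]⟩, h3, by linarith [c2.2]⟩⟩
  by_cases c3 : 0 ≤ z.1 ∧ z.2 ≤ 0
  · exact ⟨3, by
      rw [virt_3, mem_ax_cl]; exact ⟨⟨c3.1, by linarith⟩, by linarith, by linarith [c3.2]⟩⟩
  exfalso
  apply h
  rw [not_and_or, not_le, not_le] at c0 c1 c2 c3
  have x0 : 0 < z.1 := by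
    rcases c2 with c2 | c2
    · exact c2
    · rcases c1 with c1 | c1 <;> linarith
  have y0 : 0 < z.2 := by rcases c3 with c3 | c3 <;> linarith
  have x1 : z.1 < ℓ := by rcases c0 with c0 | c0 <;> linarith
  have y1 : z.2 < ℓ := by rcases c1 with c1 | c1 <;> linarith
  exact ⟨x0, x1, y0, y1⟩

/-! ## The extended family -/

section Family
variable {I : Type} (ℓ : ℕ) (q : I → Tq)

/-- the packing together with the four outer squares -/
def ext : I ⊕ Fin 4 → Tq := Sum.elim q (virt ℓ)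

/-- the uncovered set away from the corners -/
def gap : Set (ℝ × ℝ) := (box ℓ \ ⋃ i, (q i).cl 0) \ ⋃ i, (q i).cn s1

/-- the local oscillation -/
def om (a b : ℕ) : ℝ := 32000000 * volume.real (gap ℓ q ∩ win (a, b) 12)

/-- square `k` meets the window of half side `ρ` at the lattice point a, b -/
def Meets (k : I ⊕ Fin 4) (a b : ℕ) (ρ : ℝ) : Prop :=
  ((ext ℓ q k).cl 0 ∩ win ((a : ℝ), (b : ℝ)) ρ).Nonempty

variable {ℓ q}

lemma om_nonneg (a b : ℕ) : 0 ≤ om ℓ q a b := mul_nonneg (by norm_num) measureReal_nonneg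

lemma gap_fin : volume (gap ℓ q) ≠ ⊤ :=
  measure_ne_top_of_subset (sdiff_subset.trans sdiff_subset) (by
    rw [vol_box _ (Nat.cast_nonneg _)]; exact ENNReal.ofReal_ne_top)

lemma measurableSet_gap [Fintype I] : MeasurableSet (gap ℓ q) :=
  ((measurableSet_box _).diff
    (MeasurableSet.iUnion fun i => ((q i).isClosed_cl 0).measurableSet)).diff
    (MeasurableSet.iUnion fun i => ((q i).isClosed_cn s1).measurableSet)

lemma ext_lo (P : Pack ℓ q) (k : I ⊕ Fin 4) : 29 / 10 ≤ (ext ℓ q k).d := by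
  rcases k with i | j
  · exact P.lo i
  · have : (0 : ℝ) ≤ ℓ := Nat.cast_nonneg _
    simp only [ext, Sum.elim_inr, virt_d]; linarith

lemma ext_ang (P : Pack ℓ q) (k : I ⊕ Fin 4) : |(ext ℓ q k).θ| ≤ π / 4 := by
  rcases k with i | j
  · exact P.ang i
  · simp only [ext, Sum.elim_inr, virt_θ, abs_zero]; positivity

lemma ext_dis (P : Pack ℓ q) (k k' : I ⊕ Fin 4) (h : k ≠ k') :
    Disjoint (ext ℓ q k).op (ext ℓ q k').op := by
  rcases k with i | j <;> rcases k' with i' | j'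
  · exact P.dis i i' fun e => h (congrArg _ e)
  · exact Set.disjoint_left.2 fun z a b => virt_out j' b (P.op_sub i a)
  · exact Set.disjoint_left.2 fun z a b => virt_out j a (P.op_sub i' b)
  · exact virt_dis (Nat.cast_nonneg _) j j' fun e => h (congrArg _ e)

lemma ext_cover {a b : ℕ} (ha : a ≤ ℓ) (hb : b ≤ ℓ) :
    win ((a : ℝ), (b : ℝ)) 12 ⊆
      ((⋃ k, (ext ℓ q k).cl 0) ∪ ⋃ k, (ext ℓ q k).cn s1) ∪ gap ℓ q := by
  intro z hz
  have a0 : (0 : ℝ) ≤ a := Nat.cast_nonneg _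
  have b0 : (0 : ℝ) ≤ b := Nat.cast_nonneg _
  have a1 : (a : ℝ) ≤ ℓ := Nat.cast_le.2 ha
  have b1 : (b : ℝ) ≤ ℓ := Nat.cast_le.2 hb
  obtain ⟨z1, z2⟩ := hz
  rw [abs_le] at z1 z2
  by_cases h : 0 < z.1 ∧ z.1 < ℓ ∧ 0 < z.2 ∧ z.2 < ℓ
  · by_cases c1 : z ∈ ⋃ i, (q i).cl 0
    · obtain ⟨i, hi⟩ := mem_iUnion.1 c1
      exact .inl (.inl (mem_iUnion.2 ⟨.inl i, hi⟩))
    by_cases c2 : z ∈ ⋃ i, (q i).cn s1
    · obtain ⟨i, hi⟩ := mem_iUnion.1 c2
      exact .inl (.inr (mem_iUnion.2 ⟨.inl i, hi⟩))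
    exact .inr ⟨⟨⟨⟨h.1.le, h.2.1.le⟩, h.2.2.1.le, h.2.2.2.le⟩, c1⟩, c2⟩
  · obtain ⟨j, hj⟩ := virt_cover (Nat.cast_nonneg ℓ) (z := z) (by linarith [z1.1])
      (by linarith [z1.2]) (by linarith [z2.1]) (by linarith [z2.2]) h
    exact .inl (.inl (mem_iUnion.2 ⟨.inr j, hj⟩))

/-- few squares have a corner region meeting a window -/
lemma few [Fintype I] (P : Pack ℓ q) (p : ℝ × ℝ) : ∃ S : Finset (I ⊕ Fin 4), S.card ≤ 1200 ∧
    ∀ k, ((ext ℓ q k).cn s1 ∩ win p 12).Nonempty → k ∈ S := by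
  classical
  let T : Finset I := Finset.univ.filter fun i => ((q i).X, (q i).Y) ∈ win p ((16 : ℕ) : ℝ)
  have hT : T.card ≤ (2 * 16 + 2) ^ 2 := P.count p 16 T fun i hi => (Finset.mem_filter.1 hi).2
  refine ⟨T.disjSum Finset.univ, ?_, fun k hk => ?_⟩
  · rw [Finset.card_disjSum, Finset.card_univ, Fintype.card_fin]; omega
  · rcases k with i | j
    · rw [Finset.inl_mem_disjSum]
      obtain ⟨z, ⟨c1, c2⟩, w1, w2⟩ := hk
      change |(|(q i).xi z| - (q i).d / 2)| ≤ s1 at c1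
      change |(|(q i).ze z| - (q i).d / 2)| ≤ s1 at c2
      have f1 := (q i).fst_ctr z
      have f2 := (q i).snd_ctr z
      have hd := P.hi i
      have hs : s1 ≤ 1 / 10 := by unfold s1; norm_num
      have d1 := (abs_le.1 c1).2
      have d2 := (abs_le.1 c2).2
      have e1 := abs_le.1 (show |z.1 - (q i).X| ≤ 4 by linarith)
      have e2 := abs_le.1 (show |z.2 - (q i).Y| ≤ 4 by linarith)
      rw [abs_le] at w1 w2
      refine Finset.mem_filter.2 ⟨Finset.mem_univ _, abs_le.2 ⟨?_, ?_⟩, abs_le.2 ⟨?_, ?_⟩⟩ <;>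
        push_cast <;> linarith [e1.1, e1.2, e2.1, e2.2, w1.1, w1.2, w2.1, w2.2]
    · exact Finset.inr_mem_disjSum.2 (Finset.mem_univ _)

/-- the window estimate at a lattice point -/
lemma key [Fintype I] (h : WinStmt) (P : Pack ℓ q) (hw : waste ℓ q ≤ 1 / 50) {a b : ℕ} (ha : a ≤ ℓ)
    (hb : b ≤ ℓ) {k k' : I ⊕ Fin 4} (m : Meets ℓ q k a b 8) (m' : Meets ℓ q k' a b 8) :
    |sin (2 * ((ext ℓ q k).θ - (ext ℓ q k').θ))| ≤ om ℓ q a b := by
  obtain ⟨S, hS, hS'⟩ := few P ((a : ℝ), (b : ℝ))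
  refine h _ (ext ℓ q) (gap ℓ q) _ _ S (ext_lo P) (ext_dis P) measurableSet_gap (ext_cover ha hb)
    hS hS' le_rfl ?_ k k' m m'
  exact ((measureReal_mono inter_subset_left gap_fin).trans P.wmid_le).trans hw

/-- near every lattice point there is a square, of angle zero on the boundary -/
lemma pick [Fintype I] (P : Pack ℓ q) (hw : waste ℓ q ≤ 1 / 50) (a b : ℕ) :
    ∃ k : I ⊕ Fin 4, a ≤ ℓ → b ≤ ℓ → Meets ℓ q k a b 1 ∧
      ((a = 0 ∨ a = ℓ ∨ b = 0 ∨ b = ℓ) → (ext ℓ q k).θ = 0) := by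
  by_cases hab : a ≤ ℓ ∧ b ≤ ℓ
  swap
  · exact ⟨.inr 0, fun ha hb => absurd ⟨ha, hb⟩ hab⟩
  obtain ⟨ha, hb⟩ := hab
  have a0 : (0 : ℝ) ≤ a := Nat.cast_nonneg _
  have b0 : (0 : ℝ) ≤ b := Nat.cast_nonneg _
  have a1 : (a : ℝ) ≤ ℓ := Nat.cast_le.2 ha
  have b1 : (b : ℝ) ≤ ℓ := Nat.cast_le.2 hb
  by_cases hbd : a = 0 ∨ a = ℓ ∨ b = 0 ∨ b = ℓ
  · obtain ⟨j, hj⟩ := virt_cover (Nat.cast_nonneg ℓ) (z := ((a : ℝ), (b : ℝ)))
      (by simp only; linarith) (by simp only; linarith) (by simp only; linarith)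
      (by simp only; linarith) (by
        rintro ⟨c1, c2, c3, c4⟩
        simp only [Nat.cast_pos, Nat.cast_lt] at c1 c2 c3 c4
        omega)
    exact ⟨.inr j, fun _ _ => ⟨⟨_, hj, by simp [win]⟩, fun _ => virt_θ _ j⟩⟩
  · by_contra hne
    have hne' : ∀ i, ¬ Meets ℓ q (.inl i) a b 1 := fun i hi =>
      hne ⟨.inl i, fun _ _ => ⟨hi, fun e => absurd e hbd⟩⟩
    have a2 : (1 : ℝ) ≤ a := by exact_mod_cast (show 1 ≤ a by omega)
    have b2 : (1 : ℝ) ≤ b := by exact_mod_cast (show 1 ≤ b by omega)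
    have a3 : (a : ℝ) + 1 ≤ ℓ := by exact_mod_cast (show a + 1 ≤ ℓ by omega)
    have b3 : (b : ℝ) + 1 ≤ ℓ := by exact_mod_cast (show b + 1 ≤ ℓ by omega)
    have sub : win ((a : ℝ), (b : ℝ)) 1 ⊆ box ℓ \ ⋃ i, (q i).cl 0 := fun z hz => by
      refine ⟨?_, fun c => ?_⟩
      · obtain ⟨z1, z2⟩ := hz
        rw [abs_le] at z1 z2
        exact ⟨⟨by linarith [z1.1], by linarith [z1.2]⟩, by linarith [z2.1], by linarith [z2.2]⟩
      · obtain ⟨i, hi⟩ := mem_iUnion.1 c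
        exact hne' i ⟨z, hi, hz⟩
    have fin : volume (box ℓ \ ⋃ i, (q i).cl 0) ≠ ⊤ :=
      measure_ne_top_of_subset sdiff_subset (by
        rw [vol_box _ (Nat.cast_nonneg _)]; exact ENNReal.ofReal_ne_top)
    have := (measureReal_mono sub fin).trans P.vol_le
    rw [measureReal_def, vol_win _ zero_le_one, ENNReal.toReal_ofReal (by norm_num)] at this
    linarith

lemma Meets.mono {k : I ⊕ Fin 4} {a b a' b' : ℕ} (m : Meets ℓ q k a' b' 1) (h1 : Near a a')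
    (h2 : Near b b') : Meets ℓ q k a b 8 := by
  obtain ⟨z, hz, w1, w2⟩ := m
  have c1 : (a' : ℝ) ≤ a + 6 := by exact_mod_cast h1.1
  have c2 : (a : ℝ) ≤ a' + 6 := by exact_mod_cast h1.2
  have c3 : (b' : ℝ) ≤ b + 6 := by exact_mod_cast h2.1
  have c4 : (b : ℝ) ≤ b' + 6 := by exact_mod_cast h2.2
  rw [abs_le] at w1 w2
  exact ⟨z, hz, abs_le.2 ⟨by linarith [w1.1], by linarith [w1.2]⟩,
    abs_le.2 ⟨by linarith [w2.1], by linarith [w2.2]⟩⟩

end Family

/-! ## Bounded overlap of the windows -/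

lemma sum_inter_le {α ι : Type} [MeasurableSpace α] (μ : Measure α) (s : Finset ι) (W : ι → Set α)
    (hW : ∀ i, MeasurableSet (W i)) (Z : Set α) (fin : μ Z ≠ ⊤) (N : ℝ)
    (hN : ∀ z, ∑ i ∈ s, (W i).indicator (1 : α → ℝ) z ≤ N) :
    ∑ i ∈ s, μ.real (Z ∩ W i) ≤ N * μ.real Z := by
  have : IsFiniteMeasure (μ.restrict Z) := isFiniteMeasure_restrict.2 fin
  have hi : ∀ i ∈ s, Integrable ((W i).indicator (1 : α → ℝ)) (μ.restrict Z) := fun i _ =>
    (integrable_const (1 : ℝ)).indicator (hW i)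
  calc ∑ i ∈ s, μ.real (Z ∩ W i) = ∑ i ∈ s, ∫ z in Z, (W i).indicator 1 z ∂μ :=
        Finset.sum_congr rfl fun i _ => by
          rw [integral_indicator_one (hW i), measureReal_restrict_apply (hW i), inter_comm]
    _ = ∫ z in Z, ∑ i ∈ s, (W i).indicator 1 z ∂μ := (integral_finsetSum s hi).symm
    _ ≤ ∫ _ in Z, N ∂μ := integral_mono (integrable_finsetSum s hi) (integrable_const N) hN
    _ = N * μ.real Z := by rw [setIntegral_const, smul_eq_mul, mul_comm]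

lemma line_count (n : ℕ) (x : ℝ) :
    ∑ a ∈ range n, (if |x - a| ≤ 12 then (1 : ℝ) else 0) ≤ 25 := by
  classical
  rw [Finset.sum_boole]
  have : ((range n).filter fun a : ℕ => |x - a| ≤ 12).card ≤
      (Finset.Icc ⌈x - 12⌉ (⌈x - 12⌉ + 24)).card := by
    refine Finset.card_le_card_of_injOn (fun a : ℕ => (a : ℤ)) (fun a ha => ?_)
      fun a _ b _ e => Nat.cast_injective e
    have h := abs_le.1 (Finset.mem_filter.1 (Finset.mem_coe.1 ha)).2
    have c := Int.le_ceil (x - 12)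
    refine Finset.mem_coe.2 (Finset.mem_Icc.2 ⟨Int.ceil_le.2 (by push_cast; linarith [h.2]), ?_⟩)
    have : ((a : ℤ) : ℝ) ≤ ((⌈x - 12⌉ + 24 : ℤ) : ℝ) := by push_cast; linarith [h.1]
    exact_mod_cast this
  rw [Int.card_Icc] at this
  exact_mod_cast this.trans (by omega)

lemma sum_om {I : Type} (ℓ : ℕ) (q : I → Tq) (n : ℕ) :
    ∑ a ∈ range n, ∑ b ∈ range n, om ℓ q a b ≤ 20000000000 * wmid ℓ q := by
  classical
  have := sum_inter_le volume (Finset.range n ×ˢ Finset.range n)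
    (fun u : ℕ × ℕ => win ((u.1 : ℝ), (u.2 : ℝ)) 12) (fun _ => measurableSet_win _ _) (gap ℓ q)
    gap_fin 625 fun z => by
      have e : ∀ u : ℕ × ℕ, (win ((u.1 : ℝ), (u.2 : ℝ)) 12).indicator (1 : ℝ × ℝ → ℝ) z =
          (if |z.1 - u.1| ≤ 12 then (1 : ℝ) else 0) * if |z.2 - u.2| ≤ 12 then (1 : ℝ) else 0 :=
        fun u => by
          by_cases h1 : |z.1 - u.1| ≤ 12 <;> by_cases h2 : |z.2 - u.2| ≤ 12 <;>
            simp [win, Set.indicator, h1, h2]
      simp only [e]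
      rw [Finset.sum_product]
      dsimp only
      rw [← Finset.sum_mul_sum _ _ (fun a : ℕ => if |z.1 - a| ≤ 12 then (1 : ℝ) else 0)
        fun a : ℕ => if |z.2 - a| ≤ 12 then (1 : ℝ) else 0]
      have h1 := line_count n z.1
      have h2 := line_count n z.2
      have h3 : 0 ≤ ∑ a ∈ range n, (if |z.2 - a| ≤ 12 then (1 : ℝ) else 0) :=
        Finset.sum_nonneg fun _ _ => by split_ifs <;> norm_num
      nlinarith
  rw [Finset.sum_product] at this
  simp only [om, ← Finset.mul_sum]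
  change _ ≤ 625 * wmid ℓ q at this
  linarith

/-! ## Angles -/

lemma abs_sin_add (x y : ℝ) : |sin (x + y)| ≤ |sin x| + |sin y| := by
  rw [sin_add, mul_comm (cos x)]
  exact Tq.abs_comb (abs_cos_le_one _) (abs_cos_le_one _)

lemma jordan {x e : ℝ} (hx : |x| ≤ π / 4) (h : |sin (2 * x)| ≤ e) : |x| ≤ π / 4 * e := by
  have k := mul_abs_le_abs_sin (x := 2 * x) (by rw [abs_mul, abs_two]; linarith)
  rw [abs_mul, abs_two, div_mul_eq_mul_div, div_le_iff₀ pi_pos] at k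
  nlinarith [pi_pos]

section Chain
variable {I : Type} [Fintype I] {ℓ : ℕ} {q : I → Tq} (h : WinStmt) (P : Pack ℓ q)
  (hw : waste ℓ q ≤ 1 / 40000000000) {k : ℕ → ℕ → I ⊕ Fin 4}
  (hk : ∀ a b, a ≤ ℓ → b ≤ ℓ → Meets ℓ q (k a b) a b 1 ∧
    ((a = 0 ∨ a = ℓ ∨ b = 0 ∨ b = ℓ) → (ext ℓ q (k a b)).θ = 0))
include h P hw hk

/-- chain along a row -/
lemma row {b : ℕ} (hb : b ≤ ℓ) (a : ℕ) (ha : a ≤ ℓ) :
    |sin (2 * (ext ℓ q (k a b)).θ)| ≤ ∑ x ∈ range a, om ℓ q x b := by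
  induction a with
  | zero => simp [(hk 0 b ha hb).2 (.inl rfl)]
  | succ a ih =>
    have ha' : a ≤ ℓ := by omega
    have k1 := key h P (by linarith) ha' hb
      ((hk (a + 1) b ha hb).1.mono ⟨by omega, by omega⟩ ⟨by omega, by omega⟩)
      ((hk a b ha' hb).1.mono ⟨by omega, by omega⟩ ⟨by omega, by omega⟩)
    have k2 := abs_sin_add (2 * (ext ℓ q (k a b)).θ)
      (2 * ((ext ℓ q (k (a + 1) b)).θ - (ext ℓ q (k a b)).θ))
    rw [show 2 * (ext ℓ q (k a b)).θ + 2 * ((ext ℓ q (k (a + 1) b)).θ - (ext ℓ q (k a b)).θ) =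
      2 * (ext ℓ q (k (a + 1) b)).θ by ring] at k2
    rw [Finset.sum_range_succ]
    linarith [ih ha']

/-- every square near a lattice point has a small angle -/
lemma small {a b : ℕ} (ha : a ≤ ℓ) (hb : b ≤ ℓ) {j : I ⊕ Fin 4} (m : Meets ℓ q j a b 8) :
    |(ext ℓ q j).θ| ≤ π / 8 := by
  have k1 := key h P (by linarith) ha hb m
    ((hk a b ha hb).1.mono ⟨by omega, by omega⟩ ⟨by omega, by omega⟩)
  have k2 := abs_sin_add (2 * (ext ℓ q (k a b)).θ) (2 * ((ext ℓ q j).θ - (ext ℓ q (k a b)).θ))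
  rw [show 2 * (ext ℓ q (k a b)).θ + 2 * ((ext ℓ q j).θ - (ext ℓ q (k a b)).θ) =
    2 * (ext ℓ q j).θ by ring] at k2
  have k3 := row h P hw hk hb a ha
  have k4 : ∑ x ∈ range (a + 1), om ℓ q x b ≤
      ∑ x ∈ range (ℓ + 1), ∑ y ∈ range (ℓ + 1), om ℓ q x y :=
    (Finset.sum_le_sum_of_subset_of_nonneg (Finset.range_subset_range.2 (by omega))
      fun x _ _ => om_nonneg x b).trans (Finset.sum_le_sum fun x _ =>
        Finset.single_le_sum (f := fun y => om ℓ q x y) (fun y _ => om_nonneg x y)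
          (Finset.mem_range.2 (by omega)))
  rw [Finset.sum_range_succ] at k4
  have k5 := sum_om ℓ q (ℓ + 1)
  have k6 := P.wmid_le
  have k7 := jordan (ext_ang P j) (show _ ≤ 1 / 2 by linarith)
  linarith

/-- two squares near a lattice point have close angles -/
lemma close {a b : ℕ} (ha : a ≤ ℓ) (hb : b ≤ ℓ) {j j' : I ⊕ Fin 4} (m : Meets ℓ q j a b 8)
    (m' : Meets ℓ q j' a b 8) : |(ext ℓ q j).θ - (ext ℓ q j').θ| ≤ om ℓ q a b := by
  have s1 := small h P hw hk ha hb m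
  have s2 := small h P hw hk ha hb m'
  have k1 := jordan ((abs_sub _ _).trans (by linarith)) (key h P (by linarith) ha hb m m')
  have k2 := om_nonneg (ℓ := ℓ) (q := q) a b
  nlinarith [pi_le_four]

end Chain

end Tilt

theorem tilt_of (h : WinStmt) : TiltStmt := by
  refine ⟨20000000000, 1 / 40000000000, by norm_num, by norm_num, fun I _ ℓ q P hw => ?_⟩
  choose k hk using Tilt.pick P (by linarith)
  refine ⟨fun a b => (Tilt.ext ℓ q (k a b)).θ, Tilt.om ℓ q, ⟨Tilt.om_nonneg, ?_, ?_, ?_⟩,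
    Tilt.sum_om ℓ q (ℓ + 1)⟩
  · exact fun a b ha hb e => (hk a b ha hb).2 e
  · exact fun a b a' b' a'' b'' ha hb ha' hb' ha'' hb'' n1 n2 n3 n4 =>
      Tilt.close h P hw hk ha hb ((hk a' b' ha' hb').1.mono n1 n2)
        ((hk a'' b'' ha'' hb'').1.mono n3 n4)
  · intro i a b a' b' ha hb ha' hb' c1 c2 n1 n2
    exact Tilt.close h P hw hk ha hb (j := .inl i)
      ⟨((q i).X, (q i).Y), (q i).ctr_mem (P.d_nonneg i), c1.trans (by norm_num),
        c2.trans (by norm_num)⟩ ((hk a' b' ha' hb').1.mono n1 n2)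

end
end Pool.Agent.MP_a421c2_co.Ex

end MrgPart0

-- ======== part 1: formerly Pool.Agent.MP_a421c2_co.Ex.Shear
section MrgPart1

/-! # SHEAR: a small displacement that straightens every square -/

set_option autoImplicit false
open MeasureTheory Set Real
open Finset (range)

namespace Pool.Agent.MP_a421c2_co.Ex
noncomputable section

namespace ShearP

/-- the unit ramp -/
def ramp (x : ℝ) : ℝ := max 0 (min x 1)

lemma ramp_nonneg (x : ℝ) : 0 ≤ ramp x := le_max_left _ _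

lemma ramp_le (x : ℝ) : ramp x ≤ 1 := max_le zero_le_one (min_le_right _ _)

lemma ramp_zero {x : ℝ} (h : x ≤ 0) : ramp x = 0 := max_eq_left ((min_le_left _ _).trans h)

lemma ramp_one {x : ℝ} (h : 1 ≤ x) : ramp x = 1 := by
  rw [ramp, min_eq_right h, max_eq_right zero_le_one]

lemma ramp_mid {x : ℝ} (h0 : 0 ≤ x) (h1 : x ≤ 1) : ramp x = x := by
  rw [ramp, min_eq_left h1, max_eq_right h0]

lemma ramp_mono {x y : ℝ} (h : x ≤ y) : ramp x ≤ ramp y :=
  max_le_max le_rfl (min_le_min h le_rfl)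

lemma abs_ramp (x : ℝ) : |ramp x| ≤ 1 := by
  rw [abs_of_nonneg (ramp_nonneg x)]; exact ramp_le x

lemma ramp_lip (x y : ℝ) : |ramp x - ramp y| ≤ |x - y| := by
  refine (abs_max_sub_max_le_max _ _ _ _).trans (max_le (by simp) ?_)
  refine (abs_min_sub_min_le_max _ _ _ _).trans (max_le le_rfl (by simp))

lemma sum_ramp (ℓ : ℕ) {x : ℝ} (h0 : 0 ≤ x) : ∑ a ∈ range ℓ, ramp (x - a) = min x ℓ := by
  induction ℓ with
  | zero => simp [h0]
  | succ n ih =>
    rw [Finset.sum_range_succ, ih]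
    push_cast
    rcases le_total x n with h | h
    · rw [ramp_zero (by linarith), min_eq_left h, min_eq_left (by linarith), add_zero]
    · rcases le_total x (n + 1) with h' | h'
      · rw [ramp_mid (by linarith) (by linarith), min_eq_right h, min_eq_left h']; ring
      · rw [ramp_one (by linarith), min_eq_right h, min_eq_right h']

lemma sum_ramp_sub (ℓ : ℕ) {x y : ℝ} (hx : x ∈ Icc (0 : ℝ) ℓ) (hy : y ∈ Icc (0 : ℝ) ℓ) :
    ∑ a ∈ range ℓ, (ramp (x - a) - ramp (y - a)) = x - y := by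
  rw [Finset.sum_sub_distrib, sum_ramp ℓ hx.1, sum_ramp ℓ hy.1, min_eq_left hx.2, min_eq_left hy.2]

lemma sum_abs_ramp (ℓ : ℕ) {x y : ℝ} (hx : x ∈ Icc (0 : ℝ) ℓ) (hy : y ∈ Icc (0 : ℝ) ℓ) :
    ∑ a ∈ range ℓ, |ramp (x - a) - ramp (y - a)| = |x - y| := by
  rcases le_total y x with h | h
  · rw [abs_of_nonneg (sub_nonneg.2 h), ← sum_ramp_sub ℓ hx hy]
    exact Finset.sum_congr rfl fun a _ => abs_of_nonneg (sub_nonneg.2 (ramp_mono (by linarith)))
  · rw [abs_sub_comm, abs_of_nonneg (sub_nonneg.2 h), ← sum_ramp_sub ℓ hy hx]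
    exact Finset.sum_congr rfl fun a _ => by
      rw [abs_sub_comm, abs_of_nonneg (sub_nonneg.2 (ramp_mono (by linarith)))]

/-- only the indices near `y` matter -/
lemma wsum (ℓ : ℕ) (c : ℕ → ℝ) {x y K : ℝ} (hx : x ∈ Icc (0 : ℝ) ℓ) (hy : y ∈ Icc (0 : ℝ) ℓ)
    (hxy : |x - y| ≤ 3) (hK : 0 ≤ K)
    (hc : ∀ a, a < ℓ → a ≤ ⌊y⌋₊ + 4 → ⌊y⌋₊ ≤ a + 4 → |c a| ≤ K) :
    |∑ a ∈ range ℓ, c a * (ramp (x - a) - ramp (y - a))| ≤ 3 * K := by
  have f1 := Nat.floor_le hy.1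
  have f2 := Nat.lt_floor_add_one y
  obtain ⟨h1, h2⟩ := abs_le.1 hxy
  calc _ ≤ ∑ a ∈ range ℓ, |c a * (ramp (x - a) - ramp (y - a))| := Finset.abs_sum_le_sum_abs _ _
    _ ≤ ∑ a ∈ range ℓ, K * |ramp (x - a) - ramp (y - a)| := by
        refine Finset.sum_le_sum fun a ha => ?_
        rw [abs_mul]
        by_cases k1 : a ≤ ⌊y⌋₊ + 4
        · by_cases k2 : ⌊y⌋₊ ≤ a + 4
          · exact mul_le_mul_of_nonneg_right (hc a (Finset.mem_range.1 ha) k1 k2) (abs_nonneg _)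
          · have : (a : ℝ) + 4 ≤ ⌊y⌋₊ := by exact_mod_cast (not_le.1 k2).le
            rw [ramp_one (by linarith), ramp_one (by linarith)]; simp
        · have : (⌊y⌋₊ : ℝ) + 4 ≤ a := by exact_mod_cast (not_le.1 k1).le
          rw [ramp_zero (by linarith), ramp_zero (by linarith)]; simp
    _ = K * |x - y| := by rw [← Finset.mul_sum, sum_abs_ramp ℓ hx hy]
    _ ≤ 3 * K := by rw [mul_comm 3]; exact mul_le_mul_of_nonneg_left hxy hK

/-- linear interpolation of a sequence stays between neighbouring values -/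
lemma interp (g : ℕ → ℝ) {x θ o : ℝ} (h0 : 0 ≤ x) : ∀ ℓ : ℕ, x ≤ ℓ →
    (∀ a : ℕ, a ≤ ℓ → |x - a| ≤ 1 → |θ - g a| ≤ o) →
    |θ - (g 0 + ∑ a ∈ range ℓ, (g (a + 1) - g a) * ramp (x - a))| ≤ o := by
  intro ℓ
  induction ℓ with
  | zero =>
    intro h1 h
    have : x = 0 := le_antisymm (by simpa using h1) h0
    simpa using h 0 le_rfl (by simp [this])
  | succ n ih =>
    intro h1 h
    push_cast at h1
    rw [Finset.sum_range_succ]
    rcases le_total x n with k | k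
    · rw [ramp_zero (x := x - n) (by linarith), mul_zero, add_zero]
      exact ih k fun a ha => h a (by omega)
    · have e : ∑ a ∈ range n, (g (a + 1) - g a) * ramp (x - a) = g n - g 0 := by
        rw [← Finset.sum_range_sub]
        refine Finset.sum_congr rfl fun a ha => ?_
        have : (a : ℝ) + 1 ≤ n := by exact_mod_cast Finset.mem_range.1 ha
        rw [ramp_one (by linarith), mul_one]
      rw [e, ramp_mid (x := x - n) (by linarith) (by linarith)]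
      have a1 := abs_le.1 (h n (by omega) (abs_le.2 ⟨by linarith, by linarith⟩))
      have a2 := abs_le.1 (h (n + 1) le_rfl (abs_le.2 ⟨by push_cast; linarith,
        by push_cast; linarith⟩))
      have u0 : 0 ≤ x - n := by linarith
      have u1 : 0 ≤ 1 - (x - n) := by linarith
      rw [abs_le]
      constructor
      · linarith [mul_nonneg u0 (sub_nonneg.2 a2.1), mul_nonneg u1 (sub_nonneg.2 a1.1)]
      · linarith [mul_nonneg u0 (sub_nonneg.2 a2.2), mul_nonneg u1 (sub_nonneg.2 a1.2)]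

lemma tele (M : ℕ) {h : ℝ} (hh : 0 ≤ h) (u : ℝ) :
    ∑ a ∈ range M, |ramp (((a : ℝ) + 1) * h - u) - ramp (a * h - u)| ≤ 1 := by
  have e : ∑ a ∈ range M, |ramp (((a : ℝ) + 1) * h - u) - ramp (a * h - u)| =
      ramp (M * h - u) - ramp ((0 : ℕ) * h - u) := by
    rw [← Finset.sum_range_sub fun a : ℕ => ramp (a * h - u)]
    refine Finset.sum_congr rfl fun a _ => ?_
    rw [abs_of_nonneg (sub_nonneg.2 (ramp_mono (by nlinarith)))]
    push_cast; rfl
  rw [e]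
  linarith [ramp_le (M * h - u), ramp_nonneg (((0 : ℕ) : ℝ) * h - u)]

/-- bilinear combination of ramps -/
def G (ℓ : ℕ) (c : ℕ → ℕ → ℝ) (p : ℝ × ℝ) : ℝ :=
  ∑ a ∈ range ℓ, ∑ b ∈ range ℓ, c a b * (ramp (p.1 - a) * ramp (p.2 - b))

lemma abs_ss (ℓ : ℕ) (c w : ℕ → ℕ → ℝ) {K e : ℝ} (hK : 0 ≤ K) (hw : ∀ a b, |w a b| ≤ K)
    (hc : ∑ a ∈ range ℓ, ∑ b ∈ range ℓ, |c a b| ≤ e) :
    |∑ a ∈ range ℓ, ∑ b ∈ range ℓ, c a b * w a b| ≤ e * K := by
  calc _ ≤ ∑ a ∈ range ℓ, ∑ b ∈ range ℓ, |c a b| * K := by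
        refine (Finset.abs_sum_le_sum_abs _ _).trans (Finset.sum_le_sum fun a _ => ?_)
        refine (Finset.abs_sum_le_sum_abs _ _).trans (Finset.sum_le_sum fun b _ => ?_)
        rw [abs_mul]; exact mul_le_mul_of_nonneg_left (hw a b) (abs_nonneg _)
    _ = (∑ a ∈ range ℓ, ∑ b ∈ range ℓ, |c a b|) * K := by simp only [Finset.sum_mul]
    _ ≤ _ := mul_le_mul_of_nonneg_right hc hK

lemma G_bd (ℓ : ℕ) (c : ℕ → ℕ → ℝ) {e : ℝ} (hc : ∑ a ∈ range ℓ, ∑ b ∈ range ℓ, |c a b| ≤ e)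
    (p : ℝ × ℝ) : |G ℓ c p| ≤ e :=
  (abs_ss ℓ c (fun a b => ramp (p.1 - a) * ramp (p.2 - b)) zero_le_one
    (fun a b => by rw [abs_mul]; exact mul_le_one₀ (abs_ramp _) (abs_nonneg _) (abs_ramp _))
    hc).trans_eq (mul_one e)

lemma G_small (ℓ : ℕ) (c : ℕ → ℕ → ℝ) {e : ℝ} (hc : ∑ a ∈ range ℓ, ∑ b ∈ range ℓ, |c a b| ≤ e) :
    Small (G ℓ c) (4 * e) := by
  have he : 0 ≤ e :=
    (Finset.sum_nonneg fun _ _ => Finset.sum_nonneg fun _ _ => abs_nonneg _).trans hc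
  refine ⟨fun p => (G_bd ℓ c hc p).trans (by linarith), fun p p' => ?_, fun M h hh => ?_⟩
  · have e1 : G ℓ c p - G ℓ c p' = ∑ a ∈ range ℓ, ∑ b ∈ range ℓ, c a b *
        (ramp (p.1 - a) * ramp (p.2 - b) - ramp (p'.1 - a) * ramp (p'.2 - b)) := by
      simp only [G, mul_sub, Finset.sum_sub_distrib]
    rw [e1]
    refine (abs_ss ℓ c _ (K := 2 * dist p p') (by positivity) (fun a b => ?_) hc).trans ?_
    · have d1 : |p.1 - p'.1| ≤ dist p p' := by
        rw [Prod.dist_eq]; exact le_max_left _ _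
      have d2 : |p.2 - p'.2| ≤ dist p p' := by
        rw [Prod.dist_eq]; exact le_max_right _ _
      have l1 := ramp_lip (p.1 - a) (p'.1 - a)
      have l2 := ramp_lip (p.2 - b) (p'.2 - b)
      rw [sub_sub_sub_cancel_right] at l1 l2
      rw [show ramp (p.1 - a) * ramp (p.2 - b) - ramp (p'.1 - a) * ramp (p'.2 - b) =
        (ramp (p.1 - a) - ramp (p'.1 - a)) * ramp (p.2 - b) +
          (ramp (p.2 - b) - ramp (p'.2 - b)) * ramp (p'.1 - a) by ring]
      linarith [Tq.abs_comb (a := ramp (p.1 - a) - ramp (p'.1 - a))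
        (b := ramp (p.2 - b) - ramp (p'.2 - b)) (abs_ramp (p.2 - b)) (abs_ramp (p'.1 - a))]
    · nlinarith [mul_nonneg he (dist_nonneg (x := p) (y := p'))]
  · let D : ℕ → ℕ → ℝ := fun a u => ramp (((a : ℝ) + 1) * h - u) - ramp (a * h - u)
    have e1 : ∀ a b, mix (G ℓ c) h a b =
        ∑ u ∈ range ℓ, ∑ v ∈ range ℓ, c u v * (D a u * D b v) := fun a b => by
      simp only [mix, G, D, ← Finset.sum_sub_distrib, ← Finset.sum_add_distrib]
      exact Finset.sum_congr rfl fun u _ => Finset.sum_congr rfl fun v _ => by ring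
    calc _ ≤ ∑ a ∈ range M, ∑ b ∈ range M, ∑ u ∈ range ℓ, ∑ v ∈ range ℓ,
          |c u v| * (|D a u| * |D b v|) := by
          refine Finset.sum_le_sum fun a _ => Finset.sum_le_sum fun b _ => ?_
          rw [e1]
          refine (Finset.abs_sum_le_sum_abs _ _).trans (Finset.sum_le_sum fun u _ => ?_)
          refine (Finset.abs_sum_le_sum_abs _ _).trans (Finset.sum_le_sum fun v _ => ?_)
          rw [abs_mul, abs_mul]
      _ = ∑ u ∈ range ℓ, ∑ v ∈ range ℓ,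
          |c u v| * ((∑ a ∈ range M, |D a u|) * ∑ b ∈ range M, |D b v|) := by
          simp only [Finset.sum_mul_sum]
          simp only [Finset.mul_sum]
          rw [Finset.sum_congr rfl fun a _ => Finset.sum_comm, Finset.sum_comm]
          refine Finset.sum_congr rfl fun u _ => ?_
          rw [Finset.sum_congr rfl fun a _ => Finset.sum_comm, Finset.sum_comm]
      _ ≤ ∑ u ∈ range ℓ, ∑ v ∈ range ℓ, |c u v| := by
          refine Finset.sum_le_sum fun u _ => Finset.sum_le_sum fun v _ => ?_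
          exact mul_le_of_le_one_right (abs_nonneg _) (mul_le_one₀ (tele M hh u)
            (Finset.sum_nonneg fun _ _ => abs_nonneg _) (tele M hh v))
      _ ≤ _ := hc.trans (by linarith)

lemma small_neg {F : ℝ × ℝ → ℝ} {e : ℝ} (h : Small F e) : Small (fun p => -F p) e :=
  ⟨fun p => by rw [abs_neg]; exact h.bd p,
    fun p p' => by rw [neg_sub_neg, abs_sub_comm]; exact h.lip p p',
    fun M s hs => (Finset.sum_congr rfl fun a _ => Finset.sum_congr rfl fun b _ => by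
      rw [← abs_neg]; simp only [mix]; congr 1; ring).trans_le (h.var M s hs)⟩

lemma small_swap {F : ℝ × ℝ → ℝ} {e : ℝ} (h : Small F e) : Small (fun p => F (p.2, p.1)) e :=
  ⟨fun p => h.bd _,
    fun p p' => (h.lip _ _).trans_eq (by rw [Prod.dist_eq, Prod.dist_eq, max_comm]),
    fun M s hs => (Finset.sum_comm.trans (Finset.sum_congr rfl fun a _ =>
      Finset.sum_congr rfl fun b _ => by simp only [mix]; congr 1; ring)).trans_le (h.var M s hs)⟩

/-- the transposed square (only centre and angle matter) -/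
def sw (q : Tq) : Tq := ⟨q.Y, q.X, q.θ, q.d⟩

lemma tilt_T {I : Type} {ℓ : ℕ} {q : I → Tq} {t Ω : ℕ → ℕ → ℝ} (T : Tilt ℓ q t Ω) :
    Tilt ℓ (fun i => sw (q i)) (fun a b => t b a) fun a b => Ω b a where
  nonneg a b := T.nonneg b a
  zero a b ha hb h := T.zero b a hb ha (by tauto)
  osc a b a' b' a'' b'' h1 h2 h3 h4 h5 h6 n1 n2 n3 n4 :=
    T.osc b a b' a' b'' a'' h2 h1 h4 h3 h6 h5 n2 n1 n4 n3
  ang i a b a' b' h1 h2 h3 h4 k1 k2 n1 n2 := T.ang i b a b' a' h2 h1 h4 h3 k2 k1 n2 n1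

/-- the displacement of a tilt field -/
def H (ℓ : ℕ) (t : ℕ → ℕ → ℝ) : ℝ × ℝ → ℝ := G ℓ fun a b => t (a + 1) b - t a b

section
variable {I : Type} {ℓ : ℕ} {q : I → Tq} {t Ω : ℕ → ℕ → ℝ} (T : Tilt ℓ q t Ω)
include T

lemma dt_le {a a' b : ℕ} (ha : a ≤ ℓ) (ha' : a' < ℓ) (hb : b ≤ ℓ) (h1 : a' ≤ a + 4)
    (h2 : a ≤ a' + 4) : |t (a' + 1) b - t a' b| ≤ Ω a b :=
  T.osc a b (a' + 1) b a' b ha hb ha' hb ha'.le hb ⟨by omega, by omega⟩ ⟨by omega, by omega⟩
    ⟨by omega, by omega⟩ ⟨by omega, by omega⟩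

lemma sum_mono (f : ℕ → ℕ) {n : ℕ} (hn : n ≤ ℓ + 1) (g : ℕ → ℕ) :
    ∑ b ∈ range n, Ω (f b) (g b) ≤ ∑ b ∈ range (ℓ + 1), Ω (f b) (g b) :=
  Finset.sum_le_sum_of_subset_of_nonneg (Finset.range_mono hn) fun _ _ _ => T.nonneg _ _

lemma dt_sum {e : ℝ} (he : ∑ a ∈ range (ℓ + 1), ∑ b ∈ range (ℓ + 1), Ω a b ≤ e) :
    ∑ a ∈ range ℓ, ∑ b ∈ range ℓ, |t (a + 1) b - t a b| ≤ e := by
  refine le_trans ?_ he
  calc _ ≤ ∑ a ∈ range ℓ, ∑ b ∈ range (ℓ + 1), Ω a b := by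
        refine Finset.sum_le_sum fun a ha => le_trans (Finset.sum_le_sum fun b hb => ?_)
          (sum_mono T (fun _ => a) (Nat.le_succ ℓ) id)
        have ha := Finset.mem_range.1 ha
        exact dt_le T ha.le ha (Finset.mem_range.1 hb).le (by omega) (by omega)
    _ ≤ _ := Finset.sum_le_sum_of_subset_of_nonneg (Finset.range_mono (Nat.le_succ ℓ))
        fun _ _ _ => Finset.sum_nonneg fun _ _ => T.nonneg _ _

lemma H_zero (y : ℝ) : H ℓ t (0, y) = 0 ∧ H ℓ t (ℓ, y) = 0 := by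
  constructor
  · rw [H, G]
    refine Finset.sum_eq_zero fun a _ => Finset.sum_eq_zero fun b _ => ?_
    rw [ramp_zero (x := (0 : ℝ) - a) (by simp), zero_mul, mul_zero]
  · rw [H, G, Finset.sum_comm]
    refine Finset.sum_eq_zero fun b hb => ?_
    have hb := (Finset.mem_range.1 hb).le
    have e : ∑ a ∈ range ℓ, (t (a + 1) b - t a b) * (ramp ((ℓ : ℝ) - a) * ramp (y - b)) =
        (t ℓ b - t 0 b) * ramp (y - b) := by
      rw [← Finset.sum_range_sub fun a => t a b, Finset.sum_mul]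
      refine Finset.sum_congr rfl fun a ha => ?_
      have : (a : ℝ) + 1 ≤ ℓ := by exact_mod_cast Finset.mem_range.1 ha
      rw [ramp_one (x := (ℓ : ℝ) - a) (by linarith), one_mul]
    rw [e, T.zero ℓ b le_rfl hb (by simp), T.zero 0 b (Nat.zero_le _) hb (by simp), sub_self,
      zero_mul]

omit T in
lemma near_floor {X : ℝ} (h : 0 ≤ X) : |X - (⌊X⌋₊ : ℕ)| ≤ 6 :=
  abs_le.2 ⟨by linarith [Nat.floor_le h], by linarith [Nat.lt_floor_add_one X]⟩

lemma ang_le (i : I) (hX : (q i).X ∈ Icc (0 : ℝ) ℓ) (hY : (q i).Y ∈ Icc (0 : ℝ) ℓ) :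
    |(q i).θ| ≤ ∑ a ∈ range (ℓ + 1), Ω a ⌊(q i).Y⌋₊ := by
  have ha : ⌊(q i).X⌋₊ ≤ ℓ := Nat.floor_le_of_le hX.2
  have hb : ⌊(q i).Y⌋₊ ≤ ℓ := Nat.floor_le_of_le hY.2
  have h1 := T.ang i _ _ _ _ ha hb ha hb (near_floor hX.1) (near_floor hY.1)
    ⟨by omega, by omega⟩ ⟨by omega, by omega⟩
  have h2 : |t ⌊(q i).X⌋₊ ⌊(q i).Y⌋₊| ≤ ∑ a ∈ range ⌊(q i).X⌋₊, Ω a ⌊(q i).Y⌋₊ := by
    rw [← sub_zero (t _ _), ← T.zero 0 _ (Nat.zero_le _) hb (.inl rfl),
      ← Finset.sum_range_sub fun a => t a ⌊(q i).Y⌋₊]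
    refine (Finset.abs_sum_le_sum_abs _ _).trans (Finset.sum_le_sum fun a h => ?_)
    have := Finset.mem_range.1 h
    exact dt_le T (by omega) (by omega) hb (by omega) (by omega)
  have h3 := sum_mono T id (Nat.succ_le_succ ha) fun _ => ⌊(q i).Y⌋₊
  rw [Nat.succ_eq_add_one, Finset.sum_range_succ] at h3
  have h4 := abs_add_le ((q i).θ - t ⌊(q i).X⌋₊ ⌊(q i).Y⌋₊) (t ⌊(q i).X⌋₊ ⌊(q i).Y⌋₊)
  rw [sub_add_cancel] at h4
  simp only [id] at h3
  linarith

lemma key (i : I) (hX : (q i).X ∈ Icc (0 : ℝ) ℓ) (hY : (q i).Y ∈ Icc (0 : ℝ) ℓ) {x y : ℝ}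
    (hx : x ∈ Icc (0 : ℝ) ℓ) (hy : y ∈ Icc (0 : ℝ) ℓ) (dx : |x - (q i).X| ≤ 3)
    (dy : |y - (q i).Y| ≤ 3) :
    |H ℓ t (x, y) - H ℓ t (x, (q i).Y) - (q i).θ * (y - (q i).Y)| ≤ 3 * Ω ⌊(q i).X⌋₊ ⌊(q i).Y⌋₊ ∧
    |H ℓ t (x, (q i).Y) - H ℓ t ((q i).X, (q i).Y)| ≤
      3 * ∑ b ∈ range (ℓ + 1), Ω ⌊(q i).X⌋₊ b := by
  have ha : ⌊(q i).X⌋₊ ≤ ℓ := Nat.floor_le_of_le hX.2
  have hb : ⌊(q i).Y⌋₊ ≤ ℓ := Nat.floor_le_of_le hY.2
  constructor
  · have e : H ℓ t (x, y) - H ℓ t (x, (q i).Y) - (q i).θ * (y - (q i).Y) =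
        ∑ b ∈ range ℓ, (∑ a ∈ range ℓ, (t (a + 1) b - t a b) * ramp (x - a) - (q i).θ) *
          (ramp (y - b) - ramp ((q i).Y - b)) := by
      rw [← sum_ramp_sub ℓ hy hY, H, G, G, Finset.sum_comm,
        Finset.sum_comm (s := range ℓ) (t := range ℓ)
          (f := fun a b => (t (a + 1) b - t a b) * (ramp (x - a) * ramp ((q i).Y - b))),
        Finset.mul_sum, ← Finset.sum_sub_distrib, ← Finset.sum_sub_distrib]
      refine Finset.sum_congr rfl fun b _ => ?_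
      rw [sub_mul, Finset.sum_mul, ← Finset.sum_sub_distrib]
      congr 1
      exact Finset.sum_congr rfl fun a _ => by ring
    rw [e]
    refine wsum ℓ _ hy hY dy (T.nonneg _ _) fun b h1 h2 h3 => ?_
    have := interp (fun a => t a b) (θ := (q i).θ) (o := Ω ⌊(q i).X⌋₊ ⌊(q i).Y⌋₊) hx.1 ℓ hx.2
      fun a h4 h5 => by
        obtain ⟨k1, k2⟩ := abs_le.1 h5
        obtain ⟨k3, k4⟩ := abs_le.1 dx
        have f1 := Nat.floor_le hX.1
        have f2 := Nat.lt_floor_add_one (q i).X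
        have n1 : (a : ℝ) ≤ ⌊(q i).X⌋₊ + 6 := by linarith
        have n2 : (⌊(q i).X⌋₊ : ℝ) ≤ a + 6 := by linarith
        exact T.ang i _ _ a b ha hb h4 h1.le (near_floor hX.1) (near_floor hY.1)
          ⟨by exact_mod_cast n1, by exact_mod_cast n2⟩ ⟨by omega, by omega⟩
    rwa [T.zero 0 b (Nat.zero_le _) h1.le (.inl rfl), zero_add, abs_sub_comm] at this
  · have e : H ℓ t (x, (q i).Y) - H ℓ t ((q i).X, (q i).Y) =
        ∑ a ∈ range ℓ, (∑ b ∈ range ℓ, (t (a + 1) b - t a b) * ramp ((q i).Y - b)) *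
          (ramp (x - a) - ramp ((q i).X - a)) := by
      rw [H, G, G, ← Finset.sum_sub_distrib]
      refine Finset.sum_congr rfl fun a _ => ?_
      rw [Finset.sum_mul, ← Finset.sum_sub_distrib]
      exact Finset.sum_congr rfl fun b _ => by ring
    rw [e]
    refine wsum ℓ _ hx hX dx (Finset.sum_nonneg fun _ _ => T.nonneg _ _) fun a h1 h2 h3 => ?_
    refine (Finset.abs_sum_le_sum_abs _ _).trans (le_trans (Finset.sum_le_sum fun b hb => ?_)
      (sum_mono T (fun _ => ⌊(q i).X⌋₊) (Nat.le_succ ℓ) id))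
    rw [abs_mul]
    exact (mul_le_of_le_one_right (abs_nonneg _) (abs_ramp _)).trans
      (dt_le T ha h1 (Finset.mem_range.1 hb).le h2 h3)

end

lemma trig {A B θ : ℝ} (hA : |A| ≤ 4) (hB : |B| ≤ 4) (hθ : |θ| ≤ 1) :
    |A * cos θ + B * sin θ - (A + θ * B)| ≤ 3 * θ ^ 2 := by
  have c1 : |cos θ - 1| ≤ θ ^ 2 / 2 :=
    abs_le.2 ⟨by linarith [one_sub_sq_div_two_le_cos (x := θ)],
      by nlinarith [cos_le_one θ, sq_nonneg θ]⟩
  have s1 : |sin θ - θ| ≤ θ ^ 2 / 4 := by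
    have h1 := sin_bound hθ
    have h2 := abs_add_le (sin θ - (θ - θ ^ 3 / 6)) (-(θ ^ 3 / 6))
    rw [show sin θ - (θ - θ ^ 3 / 6) + -(θ ^ 3 / 6) = sin θ - θ by ring, abs_neg, abs_div,
      abs_pow, abs_of_pos (by norm_num : (0 : ℝ) < 6)] at h2
    have h3 : |θ| ^ 3 ≤ |θ| ^ 2 := pow_le_pow_of_le_one (abs_nonneg _) hθ (by norm_num)
    have h4 : |θ| ^ 5 ≤ |θ| ^ 2 := pow_le_pow_of_le_one (abs_nonneg _) hθ (by norm_num)
    rw [sq_abs] at h3 h4
    nlinarith [sq_nonneg θ]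
  rw [show A * cos θ + B * sin θ - (A + θ * B) = A * (cos θ - 1) + B * (sin θ - θ) by ring]
  refine (abs_add_le _ _).trans ?_
  rw [abs_mul, abs_mul]
  have := mul_le_mul hA c1 (abs_nonneg _) (by norm_num)
  have := mul_le_mul hB s1 (abs_nonneg _) (by norm_num)
  linarith

/-- the error bookkeeping of one own coordinate -/
lemma book {A B θ Z s u v w o c r : ℝ} (hA : |A| ≤ 4) (hB : |B| ≤ 4) (hθ : |θ| ≤ 1)
    (hc : |θ| ≤ c) (hr : |θ| ≤ r) (ho : o ≤ r) (hs : |s| ≤ 3 * o) (hu : |u| ≤ 3 * o)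
    (hv : |v| ≤ 3 * r) (hw : |w| ≤ 3) (e : A + θ * B - Z = s + θ * (u + θ * w + v)) :
    |A * cos θ + B * sin θ - Z| ≤ 3 * o + 12 * (c * r) := by
  have h1 := trig hA hB hθ
  have h0 := abs_nonneg θ
  have h2 : θ ^ 2 ≤ c * r := by
    rw [← sq_abs, sq]; exact mul_le_mul hc hr h0 (h0.trans hc)
  have h3 : |u + θ * w + v| ≤ 9 * r := by
    have a1 := abs_add_le (u + θ * w) v
    have a2 := abs_add_le u (θ * w)
    have a3 : |θ * w| ≤ r * 3 := by
      rw [abs_mul]; exact mul_le_mul hr hw (abs_nonneg _) (h0.trans hr)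
    linarith
  have h4 : |θ * (u + θ * w + v)| ≤ c * (9 * r) := by
    rw [abs_mul]; exact mul_le_mul hc h3 (abs_nonneg _) (h0.trans hc)
  have h5 := abs_add_le s (θ * (u + θ * w + v))
  have h6 := abs_add_le (A * cos θ + B * sin θ - (A + θ * B)) (A + θ * B - Z)
  rw [sub_add_sub_cancel, e] at h6
  linarith

end ShearP

open ShearP in
theorem shear_of : ShearStmt := by
  intro I _ ℓ q t Ω e P T he he1
  classical
  have T' := tilt_T T
  have he' : ∑ a ∈ range (ℓ + 1), ∑ b ∈ range (ℓ + 1), Ω b a ≤ e := Finset.sum_comm.trans_le he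
  have he0 : 0 ≤ e :=
    (Finset.sum_nonneg fun _ _ => Finset.sum_nonneg fun _ _ => T.nonneg _ _).trans he
  let c : ℕ → ℝ := fun a => ∑ b ∈ range (ℓ + 1), Ω a b
  let r : ℕ → ℝ := fun b => ∑ a ∈ range (ℓ + 1), Ω a b
  have c0 : ∀ a, 0 ≤ c a := fun a => Finset.sum_nonneg fun _ _ => T.nonneg _ _
  have r0 : ∀ b, 0 ≤ r b := fun b => Finset.sum_nonneg fun _ _ => T.nonneg _ _
  have hX : ∀ i, (q i).X ∈ Icc (0 : ℝ) ℓ := fun i => (P.ctr_box i).1
  have hY : ∀ i, (q i).Y ∈ Icc (0 : ℝ) ℓ := fun i => (P.ctr_box i).2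
  have ma : ∀ i, ⌊(q i).X⌋₊ ∈ range (ℓ + 1) := fun i =>
    Finset.mem_range.2 (Nat.lt_succ_of_le (P.floor_le i).1)
  have mb : ∀ i, ⌊(q i).Y⌋₊ ∈ range (ℓ + 1) := fun i =>
    Finset.mem_range.2 (Nat.lt_succ_of_le (P.floor_le i).2)
  have ar : ∀ i, |(q i).θ| ≤ r ⌊(q i).Y⌋₊ := fun i => ang_le T i (hX i) (hY i)
  have ac : ∀ i, |(q i).θ| ≤ c ⌊(q i).X⌋₊ := fun i => ang_le T' i (hY i) (hX i)
  have oc : ∀ i, Ω ⌊(q i).X⌋₊ ⌊(q i).Y⌋₊ ≤ c ⌊(q i).X⌋₊ := fun i =>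
    Finset.single_le_sum (f := fun b => Ω ⌊(q i).X⌋₊ b) (fun _ _ => T.nonneg _ _) (mb i)
  have or : ∀ i, Ω ⌊(q i).X⌋₊ ⌊(q i).Y⌋₊ ≤ r ⌊(q i).Y⌋₊ := fun i =>
    Finset.single_le_sum (f := fun a => Ω a ⌊(q i).Y⌋₊) (fun _ _ => T.nonneg _ _) (ma i)
  have ae : ∀ i, |(q i).θ| ≤ e := fun i =>
    (ac i).trans ((Finset.single_le_sum (f := c) (fun a _ => c0 a) (ma i)).trans he)
  have sm : ∀ f : ℕ → ℕ → ℝ, (∀ a b, 0 ≤ f a b) → ∑ i, f ⌊(q i).X⌋₊ ⌊(q i).Y⌋₊ ≤
      ∑ a ∈ range (ℓ + 1), ∑ b ∈ range (ℓ + 1), f a b := fun f hf => by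
    rw [← Finset.sum_product', ← Finset.sum_image (s := Finset.univ)
      (g := fun i => (⌊(q i).X⌋₊, ⌊(q i).Y⌋₊)) (f := fun u => f u.1 u.2)
      fun i _ j _ h => P.floor_inj h]
    refine Finset.sum_le_sum_of_subset_of_nonneg (fun u hu => ?_) fun _ _ _ => hf _ _
    obtain ⟨i, -, rfl⟩ := Finset.mem_image.1 hu
    exact Finset.mem_product.2 ⟨ma i, mb i⟩
  have b1 : ∀ p, |H ℓ t p| ≤ e := G_bd ℓ _ (dt_sum T he)
  have b2 : ∀ p, |H ℓ (fun a b => t b a) p| ≤ e := G_bd ℓ _ (dt_sum T' he')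
  have cr0 : ∀ i, 0 ≤ 12 * (c ⌊(q i).X⌋₊ * r ⌊(q i).Y⌋₊) := fun i =>
    mul_nonneg (by norm_num) (mul_nonneg (c0 _) (r0 _))
  have sm4 : ∀ {u v : ℝ}, |u| ≤ 3 → |v| ≤ e → ∀ {w : ℝ}, w = u + v → |w| ≤ 4 :=
    fun {u v} hu hv w h => by rw [h]; linarith [abs_add_le u v]
  refine ⟨fun p => -H ℓ t p, fun p => H ℓ (fun a b => t b a) (p.2, p.1),
    fun i => 3 * Ω ⌊(q i).X⌋₊ ⌊(q i).Y⌋₊ + 12 * (c ⌊(q i).X⌋₊ * r ⌊(q i).Y⌋₊),
    fun i => (q i).X - (q i).θ * H ℓ (fun a b => t b a) ((q i).Y, (q i).X),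
    fun i => (q i).Y - (q i).θ * H ℓ t ((q i).X, (q i).Y),
    fun i => add_nonneg (mul_nonneg (by norm_num) (T.nonneg _ _)) (cr0 i), ?_,
    small_neg (G_small ℓ _ (dt_sum T he)), small_swap (G_small ℓ _ (dt_sum T' he')),
    fun y => by simpa only [neg_eq_zero] using H_zero T y, fun x => H_zero T' x,
    fun i => (ae i).trans (by linarith), fun i => ?_, fun i p hp hw => ?_, fun i p hp hw => ?_⟩
  · have s1 := (sm Ω T.nonneg).trans he
    have s2 := sm (fun a b => c a * r b) fun a b => mul_nonneg (c0 a) (r0 b)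
    rw [← Finset.sum_mul_sum] at s2
    have s3 := mul_le_mul he he' (Finset.sum_nonneg fun b _ => r0 b) he0
    rw [Finset.sum_add_distrib, ← Finset.mul_sum, ← Finset.mul_sum]
    have s4 : e * e ≤ e * (1 / 100) := mul_le_mul_of_nonneg_left he1 he0
    linarith [s2.trans s3]
  · have k : ∀ u v : ℝ, |v| ≤ e → |u - (q i).θ * v - u| ≤ 4 * e := fun u v hv => by
      rw [sub_sub_cancel_left, abs_neg, abs_mul]
      have := mul_le_mul ((ae i).trans he1) hv (abs_nonneg _) (by norm_num)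
      linarith
    exact ⟨k _ _ (b2 _), k _ _ (b1 _)⟩
  · have k1 := (key T i (hX i) (hY i) hp.1 hp.2 hw.1 hw.2).1
    have k2 := (key T' i (hY i) (hX i) hp.2 hp.1 hw.2 hw.1).1
    refine ⟨?_, k2.trans (le_add_of_nonneg_right (cr0 i))⟩
    rw [← abs_neg] at k1
    refine le_trans (le_of_eq (congrArg _ ?_)) (k1.trans (le_add_of_nonneg_right (cr0 i)))
    ring
  · have k1 := key T i (hX i) (hY i) hp.1 hp.2 hw.1 hw.2
    have k2 := key T' i (hY i) (hX i) hp.2 hp.1 hw.2 hw.1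
    have hA : |p.1 + -H ℓ t p - (q i).X| ≤ 4 :=
      sm4 hw.1 ((abs_neg _).trans_le (b1 p)) (by ring)
    have hB : |p.2 + H ℓ (fun a b => t b a) (p.2, p.1) - (q i).Y| ≤ 4 :=
      sm4 hw.2 (b2 (p.2, p.1)) (by ring)
    have h1 : |(q i).θ| ≤ 1 := (ae i).trans (by linarith)
    constructor
    · exact book hA hB h1 (ac i) (ar i) (or i) ((abs_neg _).trans_le k1.1) k2.1 k2.2 hw.1
        (by simp only [sw, Phi]; ring)
    · have := book hB ((abs_neg _).trans_le hA) h1 (ar i) (ac i) (oc i) k2.1 k1.1 k1.2 hw.2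
        (Z := p.2 + H ℓ (fun a b => t b a) (p.2, (q i).X) -
          ((q i).Y - (q i).θ * H ℓ t ((q i).X, (q i).Y))) (by simp only [sw]; ring)
      rw [mul_comm (r _)] at this
      refine le_trans (le_of_eq (congrArg _ ?_)) this
      simp only [Tq.ze, Phi]
      ring

end
end Pool.Agent.MP_a421c2_co.Ex

end MrgPart1

-- ======== part 2: formerly Pool.Agent.MP_a421c2_co.Ex.Round
section MrgPart2

/-! # ROUND: lattice rounding with parity -/

set_option autoImplicit false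
open MeasureTheory Set Real
open Finset (range)

namespace Pool.Agent.MP_a421c2_co.Ex
noncomputable section

namespace Round

/-! ## Means over the unit interval -/

/-- `m` is the mean of `f` over `[0, 1]` -/
def Mean (f : ℝ → ℝ) (m : ℝ) : Prop :=
  IntervalIntegrable f volume 0 1 ∧ ∫ s in (0 : ℝ)..1, f s = m

lemma Mean.const (c : ℝ) : Mean (fun _ => c) c := ⟨intervalIntegrable_const, by simp⟩

lemma Mean.add {f g : ℝ → ℝ} {m n : ℝ} (h : Mean f m) (h' : Mean g n) :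
    Mean (fun s => f s + g s) (m + n) :=
  ⟨h.1.add h'.1, by rw [intervalIntegral.integral_add h.1 h'.1, h.2, h'.2]⟩

lemma Mean.sub {f g : ℝ → ℝ} {m n : ℝ} (h : Mean f m) (h' : Mean g n) :
    Mean (fun s => f s - g s) (m - n) :=
  ⟨h.1.sub h'.1, by rw [intervalIntegral.integral_sub h.1 h'.1, h.2, h'.2]⟩

lemma Mean.mul {f : ℝ → ℝ} {m : ℝ} (h : Mean f m) (c : ℝ) : Mean (fun s => c * f s) (c * m) :=
  ⟨h.1.const_mul c, by rw [intervalIntegral.integral_const_mul, h.2]⟩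

lemma Mean.sum {ι : Type} (S : Finset ι) {f : ι → ℝ → ℝ} {m : ι → ℝ} (h : ∀ i, Mean (f i) (m i)) :
    Mean (fun s => ∑ i ∈ S, f i s) (∑ i ∈ S, m i) := by
  classical
  induction S using Finset.induction_on with
  | empty => simpa using Mean.const 0
  | insert a S ha ih => simpa only [Finset.sum_insert ha] using (h a).add ih

lemma Mean.le {f g : ℝ → ℝ} {m n : ℝ} (h : Mean f m) (h' : Mean g n) (hle : ∀ s, f s ≤ g s) :
    m ≤ n := by
  rw [← h.2, ← h'.2]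
  exact intervalIntegral.integral_mono zero_le_one h.1 h'.1 hle

lemma Mean.eq {f g : ℝ → ℝ} {m n : ℝ} (h : Mean f m) (h' : Mean g n) (he : ∀ s, f s = g s) :
    m = n :=
  le_antisymm (h.le h' fun s => (he s).le) (h'.le h fun s => (he s).ge)

lemma mean_floor (u : ℝ) : Mean (fun s => (⌊u + s⌋ : ℝ)) u := by
  have hm : Monotone fun s : ℝ => (⌊s⌋ : ℝ) := fun a b h => Int.cast_le.2 (Int.floor_le_floor h)
  have hm' : Monotone fun s : ℝ => (⌊u + s⌋ : ℝ) := fun a b h => hm (by linarith)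
  refine ⟨hm'.intervalIntegrable, ?_⟩
  have h1 := intervalIntegral.integral_comp_add_left (a := 0) (b := 1) (fun s : ℝ => (⌊s⌋ : ℝ)) u
  have hp : Function.Periodic (fun s : ℝ => s - (⌊s⌋ : ℝ)) 1 := fun s => by
    simp only [Int.floor_add_one]; push_cast; ring
  have h2 := hp.intervalIntegral_add_eq u 0
  have h3 : ∫ s in (0 : ℝ)..0 + 1, (⌊s⌋ : ℝ) = ∫ _s in (0 : ℝ)..0 + 1, (0 : ℝ) := by
    refine intervalIntegral.integral_congr_ae ?_
    filter_upwards [Measure.ae_ne volume (1 : ℝ)] with s hs hs'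
    rw [zero_add, uIoc_of_le zero_le_one] at hs'
    have : ⌊s⌋ = 0 := Int.floor_eq_zero_iff.2 ⟨hs'.1.le, lt_of_le_of_ne hs'.2 hs⟩
    rw [this]; simp
  rw [intervalIntegral.integral_sub intervalIntegral.intervalIntegrable_id hm.intervalIntegrable,
    intervalIntegral.integral_sub intervalIntegral.intervalIntegrable_id hm.intervalIntegrable, h3,
    integral_id, integral_id] at h2
  rw [h1, add_zero]
  simp only [intervalIntegral.integral_zero] at h2
  linarith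

lemma floor_diff (u v s : ℝ) : |((⌊u + s⌋ - ⌊v + s⌋ : ℤ) : ℝ) - (u - v)| < 1 := by
  have h1 := Int.floor_le (u + s)
  have h2 := Int.lt_floor_add_one (u + s)
  have h3 := Int.floor_le (v + s)
  have h4 := Int.lt_floor_add_one (v + s)
  push_cast
  rw [abs_lt]; constructor <;> linarith

/-- the sign of a real number -/
def sg (y : ℝ) : ℝ := if 0 ≤ y then 1 else -1

lemma sg_mul (y : ℝ) : sg y * y = |y| := by
  unfold sg
  split_ifs with h
  · rw [abs_of_nonneg h, one_mul]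
  · rw [abs_of_neg (not_le.1 h)]; ring

lemma sg_sq (y : ℝ) : sg y * sg y = 1 := by unfold sg; split_ifs <;> norm_num

lemma sg_int {y : ℝ} {a : ℤ} (h : |(a : ℝ) - y| < 1) : sg y * a = |(a : ℝ)| := by
  obtain ⟨h1, h2⟩ := abs_lt.1 h
  unfold sg
  split_ifs with hy
  · have : (-1 : ℤ) < a := by exact_mod_cast (by push_cast; linarith : ((-1 : ℤ) : ℝ) < a)
    have : (0 : ℝ) ≤ a := by exact_mod_cast (by omega : (0 : ℤ) ≤ a)
    rw [abs_of_nonneg this, one_mul]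
  · have : a < (1 : ℤ) := by exact_mod_cast (by push_cast; linarith [not_le.1 hy] : (a : ℝ) < (1 : ℤ))
    have : (a : ℝ) ≤ 0 := by exact_mod_cast (by omega : a ≤ (0 : ℤ))
    rw [abs_of_nonpos this]; ring

lemma exists_min (x : ℝ → ℤ) (b : ℤ) (hb : ∀ s, b ≤ x s) : ∃ s₀, ∀ s, x s₀ ≤ x s := by
  obtain ⟨l, ⟨s₀, rfl⟩, hl⟩ := Int.exists_least_of_bdd (P := fun z => ∃ s, x s = z)
    ⟨b, by rintro _ ⟨s, rfl⟩; exact hb s⟩ ⟨x 0, 0, rfl⟩
  exact ⟨s₀, fun s => hl _ ⟨s, rfl⟩⟩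

/-! ## Counting -/

variable {I J : Type} [Fintype I] [Fintype J]

open Classical in
/-- the indices with small `y` -/
def small (y : I → ℝ) (μ : ℝ) : Finset I := Finset.univ.filter fun i => |y i| ≤ μ

lemma count {γ y : I → ℝ} {K τ : ℝ} (hK : 0 < K) (hτ : 0 < τ) (h1 : ∑ i, |γ i| * |y i| ≤ τ)
    (h2 : 9 / 10 * K ≤ |∑ i, γ i|) : 1 ≤ 5 / K * ∑ i ∈ small y (τ / (7 / 10 * K)), |γ i| := by
  classical
  have hμ : 0 < τ / (7 / 10 * K) := by positivity
  have h3 := Finset.sum_filter_add_sum_filter_not Finset.univ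
    (fun i => |y i| ≤ τ / (7 / 10 * K)) fun i => |γ i|
  have h4 : τ / (7 / 10 * K) * ∑ i ∈ Finset.univ.filter fun i => ¬ |y i| ≤ τ / (7 / 10 * K), |γ i|
      ≤ τ := by
    rw [Finset.mul_sum]
    refine le_trans (Finset.sum_le_sum fun i hi => ?_) (le_trans
      (Finset.sum_le_sum_of_subset_of_nonneg (Finset.filter_subset _ _) fun i _ _ => by
        positivity) h1)
    rw [mul_comm]
    exact mul_le_mul_of_nonneg_left (not_le.1 (Finset.mem_filter.1 hi).2).le (abs_nonneg _)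
  have h5 : ∑ i ∈ Finset.univ.filter fun i => ¬ |y i| ≤ τ / (7 / 10 * K), |γ i| ≤ 7 / 10 * K := by
    rw [div_mul_eq_mul_div, div_le_iff₀ (by positivity)] at h4
    exact le_of_mul_le_mul_left h4 hτ
  have h6 := Finset.abs_sum_le_sum_abs γ Finset.univ
  rw [div_mul_eq_mul_div, le_div_iff₀ hK]
  unfold small
  linarith

lemma small_le {y z : I → ℝ} {K K₀ τ : ℝ} (hK : 100 ≤ K) (h0 : 19 / 20 ≤ |K - K₀|)
    (h0' : |K - K₀| ≤ 21 / 20) (hy : ∀ i, y i = 1 - K / K₀ * z i) (hτ : 0 < τ) (hτ' : τ ≤ 3 / 5)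
    (hG : ∑ i, (1 - z i) ^ 2 ≤ 1 / 1300) : 5 / K * ∑ i ∈ small y (τ / (7 / 10 * K)), |y i| ≤ τ := by
  classical
  have hK0 : 0 < K := by linarith
  obtain ⟨a1, a2⟩ := abs_le.1 h0'
  have hK₀ : 0 < K₀ := by linarith
  have hpt : ∀ i ∈ small y (τ / (7 / 10 * K)), |y i| ≤
      τ / (7 / 10 * K) * (K ^ 2 / (8 / 100) ^ 2) * (1 - z i) ^ 2 := fun i hi => by
    have b1 : |y i| ≤ τ / (7 / 10 * K) := (Finset.mem_filter.1 hi).2
    have b2 : K * (1 - z i) = K - K₀ + y i * K₀ := by rw [hy i]; field_simp; ring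
    have b3 : |y i * K₀| ≤ 87 / 100 := by
      rw [abs_mul, abs_of_pos hK₀]
      rw [le_div_iff₀ (by positivity)] at b1
      have b4 : K₀ ≤ 10105 / 10000 * K := by linarith
      nlinarith [abs_nonneg (y i)]
    have b5 : 8 / 100 ≤ |K * (1 - z i)| := by
      have := abs_add_le (K - K₀ + y i * K₀) (-(y i * K₀))
      rw [abs_neg, add_neg_cancel_right, ← b2] at this
      linarith
    have b6 : (8 / 100 : ℝ) ^ 2 ≤ (K * (1 - z i)) ^ 2 := by
      rw [← sq_abs (K * (1 - z i))]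
      exact pow_le_pow_left₀ (by norm_num) b5 2
    have b7 : 1 ≤ K ^ 2 / (8 / 100) ^ 2 * (1 - z i) ^ 2 := by
      rw [div_mul_eq_mul_div, le_div_iff₀ (by norm_num), ← mul_pow]; linarith
    rw [mul_assoc]
    exact b1.trans (le_mul_of_one_le_right (by positivity) b7)
  have h1 : ∑ i ∈ small y (τ / (7 / 10 * K)), |y i| ≤
      τ / (7 / 10 * K) * (K ^ 2 / (8 / 100) ^ 2) * (1 / 1300) := by
    refine (Finset.sum_le_sum hpt).trans ?_
    rw [← Finset.mul_sum]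
    exact mul_le_mul_of_nonneg_left ((Finset.sum_le_sum_of_subset_of_nonneg (Finset.subset_univ _)
      fun i _ _ => sq_nonneg _).trans hG) (by positivity)
  refine (mul_le_mul_of_nonneg_left h1 (by positivity)).trans ?_
  have : 5 / K * (τ / (7 / 10 * K) * (K ^ 2 / (8 / 100) ^ 2) * (1 / 1300)) =
      τ * (5 / (7 / 10 * (8 / 100) ^ 2 * 1300)) := by field_simp
  rw [this]
  exact mul_le_of_le_one_right hτ.le (by norm_num)

/-- The parity claim in abstract form. -/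
lemma claim {y : I ⊕ J → ℝ} {α β : I ⊕ J → ℝ → ℤ} {τ : ℝ → ℤ} {K n : ℤ} {σ η H : ℝ}
    (hK : (100 : ℝ) ≤ K) (hσ : σ = 1 ∨ σ = -1)
    (mα : ∀ k, Mean (fun s => (α k s : ℝ)) (y k)) (mβ : ∀ k, Mean (fun t => (β k t : ℝ)) (y k))
    (cα : ∀ k s, |(α k s : ℝ) - y k| < 1) (cβ : ∀ k t, |(β k t : ℝ) - y k| < 1)
    (mτ : Mean (fun t => σ * ((τ t : ℝ) - K)) η) (hη : 0 ≤ η)
    (hτ : ∀ t, τ t = K ∨ 1 ≤ σ * ((τ t : ℝ) - K))
    (hid : ∀ s t, ∑ k, α k s * β k t =
      ∑ i, α (.inl i) s + (K * τ t - n + ∑ i, β (.inl i) t))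
    (hI : ∑ i, y (.inl i) = n - K * H) (h1 : 93 / 100 * K - 1 ≤ σ * (n - K * H))
    (h2 : 19 / 20 ≤ σ * (H - K))
    (hs : ∀ τ₀ : ℝ, 0 < τ₀ → τ₀ ≤ 3 / 5 →
      5 / (K : ℝ) * ∑ i ∈ small (fun i => y (.inl i)) (τ₀ / (7 / 10 * K)), |y (.inl i)| ≤ τ₀) :
    1 - η ≤ ∑ k, y k ^ 2 := by
  have hK0 : (0 : ℝ) < K := by linarith
  have hσ2 : σ * σ = 1 := by rcases hσ with h | h <;> rw [h] <;> norm_num
  have hσa : ∀ u : ℝ, σ * u ≤ |u| := fun u => by
    rcases hσ with h | h <;> rw [h]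
    · rw [one_mul]; exact le_abs_self u
    · rw [neg_one_mul]; exact neg_le_abs u
  let x : ℝ → ℤ := fun s => ∑ i, α (.inl i) s
  let w : ℝ → ℤ := fun t => K * τ t - n + ∑ i, β (.inl i) t
  have habs : ∀ k s t, ((α k s : ℝ) * β k t) = |(α k s : ℝ)| * |(β k t : ℝ)| := fun k s t => by
    rw [← sg_int (cα k s), ← sg_int (cβ k t)]
    linear_combination (-(α k s : ℝ) * β k t) * sg_sq (y k)
  have hsum : ∀ s t, ∑ k, |(α k s : ℝ)| * |(β k t : ℝ)| = x s + w t := fun s t => by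
    simp only [← habs]
    exact_mod_cast hid s t
  have hpos : ∀ s t, 0 ≤ x s + w t := fun s t => by
    have : (0 : ℝ) ≤ x s + w t := by
      rw [← hsum]; exact Finset.sum_nonneg fun k _ => by positivity
    exact_mod_cast this
  have aα : ∀ k, Mean (fun s => |(α k s : ℝ)|) |y k| := fun k => by
    simpa only [sg_int (cα k _), sg_mul] using (mα k).mul (sg (y k))
  have aβ : ∀ k, Mean (fun t => |(β k t : ℝ)|) |y k| := fun k => by
    simpa only [sg_int (cβ k _), sg_mul] using (mβ k).mul (sg (y k))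
  have mx : Mean (fun s => (x s : ℝ)) (n - K * H) := by
    rw [← hI]
    simpa only [x, Int.cast_sum] using Mean.sum Finset.univ fun i => mα (.inl i)
  obtain ⟨mw, hw⟩ : ∃ mw, Mean (fun t => (w t : ℝ)) mw := by
    refine ⟨_, ((((mτ.mul σ).add (Mean.const K)).mul K).sub (Mean.const n)).add
      (Mean.sum Finset.univ fun i => mβ (.inl i)) |>.1.congr_ae ?_, rfl⟩
    refine Filter.Eventually.of_forall fun t => ?_
    simp only [w]
    push_cast
    linear_combination (K : ℝ) * (τ t - K) * hσ2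
  have e1 : ∀ s, ∑ k, |(α k s : ℝ)| * |y k| = x s + mw := fun s =>
    (Mean.sum Finset.univ fun k => (aβ k).mul _).eq ((Mean.const _).add hw) fun t => hsum s t
  have e2 : ∀ t, ∑ k, |(β k t : ℝ)| * |y k| = n - K * H + w t := fun t =>
    (Mean.sum Finset.univ fun k => (aα k).mul _).eq (mx.add (Mean.const _)) fun s => by
      rw [← hsum s t]; exact Finset.sum_congr rfl fun k _ => mul_comm _ _
  have eY : ∑ k, y k ^ 2 = n - K * H + mw := by
    have := (Mean.sum Finset.univ fun k => (aα k).mul |y k|).eq (mx.add (Mean.const mw)) fun s => by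
      rw [← e1 s]; exact Finset.sum_congr rfl fun k _ => mul_comm _ _
    rw [← this]
    exact Finset.sum_congr rfl fun k _ => by rw [abs_mul_abs_self, sq]
  obtain ⟨s₀, hs₀⟩ := exists_min x (-w 0) fun s => by have := hpos s 0; omega
  obtain ⟨t₀, ht₀⟩ := exists_min w (-x 0) fun t => by have := hpos 0 t; omega
  have hX : (x s₀ : ℝ) ≤ n - K * H :=
    (Mean.const _).le mx fun s => by exact_mod_cast hs₀ s
  have hW : (w t₀ : ℝ) ≤ mw := (Mean.const _).le hw fun t => by exact_mod_cast ht₀ t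
  by_contra hc
  rw [eY, not_le] at hc
  have h0 : (x s₀ : ℝ) + w t₀ = 0 := by
    have a1 := hpos s₀ t₀
    have a2 : x s₀ + w t₀ < 1 := by
      have : (x s₀ : ℝ) + w t₀ < 1 := by linarith
      exact_mod_cast this
    have a3 : x s₀ + w t₀ = 0 := by omega
    exact_mod_cast a3
  have hIle : ∀ g : I ⊕ J → ℝ, ∑ i, |g (.inl i)| * |y (.inl i)| ≤ ∑ k, |g k| * |y k| := fun g => by
    rw [Fintype.sum_sum_type]
    exact le_add_of_nonneg_right (Finset.sum_nonneg fun j _ => by positivity)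
  obtain ⟨ε, hε, hε1, hε2⟩ : ∃ ε : ℝ, 0 < ε ∧ ε ≤ 1 / 20 ∧ n - K * H + mw + ε < 1 - η :=
    ⟨min (1 / 20) ((1 - η - (n - K * H + mw)) / 2), lt_min (by norm_num) (by linarith),
      min_le_left _ _, by linarith [min_le_right (1 / 20 : ℝ) ((1 - η - (n - K * H + mw)) / 2)]⟩
  by_cases hcase : mw - w t₀ ≤ 11 / 20
  · have hτ₀ : 0 < mw - w t₀ + ε := by linarith
    have key := ((Mean.const 1).sub ((Mean.sum (small (fun i => y (.inl i))
      ((mw - w t₀ + ε) / (7 / 10 * K))) fun i => aα (.inl i)).mul (5 / K))).le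
      (mx.sub (Mean.const (x s₀))) fun s => by
        rcases (hs₀ s).eq_or_lt with he | hlt
        · have b1 := count (γ := fun i => (α (.inl i) s : ℝ)) (y := fun i => y (.inl i)) hK0 hτ₀
            ((hIle fun k => (α k s : ℝ)).trans (by rw [e1, ← he]; linarith)) (by
              have b2 : ∑ i, (α (.inl i) s : ℝ) = x s₀ := by rw [he]; simp only [x, Int.cast_sum]
              rw [b2]
              refine le_trans ?_ (hσa _)
              have b3 := hσa ((n : ℝ) - K * H - x s₀)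
              rw [abs_of_nonneg (by linarith)] at b3
              linarith)
          rw [← he]; linarith
        · have b1 : (x s₀ : ℝ) + 1 ≤ x s := by exact_mod_cast hlt
          have b2 : 0 ≤ 5 / (K : ℝ) * ∑ i ∈ small (fun i => y (.inl i))
              ((mw - w t₀ + ε) / (7 / 10 * K)), |(α (.inl i) s : ℝ)| :=
            mul_nonneg (by positivity) (Finset.sum_nonneg fun _ _ => abs_nonneg _)
          linarith
    have := hs _ hτ₀ (by linarith)
    linarith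
  · have hτ₀ : 0 < n - K * H - x s₀ + ε := by linarith
    have key := (((Mean.const 1).sub ((Mean.sum (small (fun i => y (.inl i))
      ((n - K * H - x s₀ + ε) / (7 / 10 * K))) fun i => aβ (.inl i)).mul (5 / K))).sub mτ).le
      (hw.sub (Mean.const (w t₀))) fun t => by
        have b0 : 0 ≤ 5 / (K : ℝ) * ∑ i ∈ small (fun i => y (.inl i))
            ((n - K * H - x s₀ + ε) / (7 / 10 * K)), |(β (.inl i) t : ℝ)| :=
          mul_nonneg (by positivity) (Finset.sum_nonneg fun _ _ => abs_nonneg _)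
        have b4 : (w t₀ : ℝ) ≤ w t := by exact_mod_cast ht₀ t
        rcases hτ t with hk | hk
        swap
        · linarith
        have b5 : σ * ((τ t : ℝ) - K) = 0 := by rw [hk]; ring
        rcases (ht₀ t).eq_or_lt with he | hlt
        · have b1 := count (γ := fun i => (β (.inl i) t : ℝ)) (y := fun i => y (.inl i)) hK0 hτ₀
            ((hIle fun k => (β k t : ℝ)).trans (by rw [e2, ← he]; linarith)) (by
              have b2 : ∑ i, (β (.inl i) t : ℝ) = K * (H - K) + (n - K * H - x s₀) := by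
                have b6 : (w t₀ : ℝ) = K * K - n + ∑ i, (β (.inl i) t : ℝ) := by
                  rw [he]; simp only [w, hk]; push_cast; rfl
                linarith
              rw [b2]
              refine le_trans ?_ (hσa _)
              have b3 := hσa (-((n : ℝ) - K * H - x s₀))
              rw [abs_neg, abs_of_nonneg (by linarith)] at b3
              linarith [mul_le_mul_of_nonneg_left h2 hK0.le])
          linarith
        · have b1 : (w t₀ : ℝ) + 1 ≤ w t := by exact_mod_cast hlt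
          linarith
    have := hs _ hτ₀ (by linarith)
    linarith

/-- the integer indicator -/
def indZ (I J : Type) : I ⊕ J → ℤ := Sum.elim (fun _ => 1) fun _ => 0

omit [Fintype I] [Fintype J] in
lemma indZ_cast (k : I ⊕ J) : (indZ I J k : ℝ) = ind I J k := by
  cases k <;> simp [indZ, ind]

lemma core (A B : Side (I ⊕ J)) (U : A.V → ℝ) (W : B.V → ℝ) (K : ℕ) (c : ℤ) (σ ν : ℝ)
    (hO : Orth A B) (hU : A.Adm U) (hW : B.Adm W) (hz : ∀ k, A.D U k = B.D W k)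
    (hn : (Fintype.card I : ℤ) = K ^ 2 + 2 * c + 1) (hK : 100 ≤ K) (hσ : σ = 1 ∨ σ = -1)
    (hc : 99 / 100 * (K : ℝ) ≤ σ * c) (hν : ν ≤ 1 / 20) (hA : |A.tot U - (K + σ)| ≤ ν)
    (hB : |B.tot W - (K + σ)| ≤ ν) (hS : ∑ i, A.D U (.inl i) = A.tot U * B.tot W)
    (hG : ∑ i, (1 - A.D U (.inl i)) ^ 2 ≤ 1 / 1300) (hw : 0 ≤ σ * (B.tot W - A.tot U)) :
    A.tot U + B.tot W ≤ 2 * (K + c / K) + 2 * ν * |B.tot W - A.tot U| / K := by
  have hK' : (100 : ℝ) ≤ K := by exact_mod_cast hK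
  have hσ2 : σ * σ = 1 := by rcases hσ with h | h <;> rw [h] <;> norm_num
  have hσ1 : -1 ≤ σ ∧ σ ≤ 1 := by rcases hσ with h | h <;> rw [h] <;> norm_num
  obtain ⟨a1, a2⟩ := abs_le.1 hA
  obtain ⟨b1, b2⟩ := abs_le.1 hB
  have a3 : 1 - ν ≤ σ * (A.tot U - K) := by
    rcases hσ with h | h <;> rw [h] at a1 a2 ⊢ <;> linarith
  have b3 : 1 - ν ≤ σ * (B.tot W - K) ∧ σ * (B.tot W - K) ≤ 1 + ν := by
    rcases hσ with h | h <;> rw [h] at b1 b2 ⊢ <;> constructor <;> linarith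
  have hΔ : |B.tot W - A.tot U| = σ * (B.tot W - A.tot U) := by
    rcases hσ with h | h <;> rw [h] at hw ⊢
    · rw [abs_of_nonneg (by linarith)]; ring
    · rw [abs_of_nonpos (by linarith)]; ring
  obtain ⟨K₀, hK₀⟩ : ∃ K₀, K₀ = A.tot U := ⟨_, rfl⟩
  obtain ⟨H, hH⟩ : ∃ H, H = B.tot W := ⟨_, rfl⟩
  rw [← hK₀] at a1 a2 a3 hA
  rw [← hH] at b1 b2 b3 hB
  rw [← hK₀, ← hH] at hS hw hΔ ⊢
  have hK₀0 : 0 < K₀ := by linarith [hσ1.1]
  have hn' : (Fintype.card I : ℝ) = K ^ 2 + 2 * c + 1 := by exact_mod_cast hn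
  let l : ℝ := K / K₀
  have hl : l * K₀ = K := div_mul_cancel₀ _ hK₀0.ne'
  have hl2 : 0 ≤ l ∧ l ≤ 2 := ⟨by positivity, by rw [div_le_iff₀ hK₀0]; linarith [hσ1.1]⟩
  have hzz : ∑ k, A.D U k ^ 2 = K₀ * H := by
    rw [hK₀, hH, ← hO U W hU hW]
    exact Finset.sum_congr rfl fun k _ => by rw [← hz k, sq]
  let y : I ⊕ J → ℝ := fun k => ind I J k - l * A.D U k
  let a : I ⊕ J → ℝ → ℤ := fun k s => ⌊l * U (A.r k) + s⌋ - ⌊l * U (A.l k) + s⌋
  let b : I ⊕ J → ℝ → ℤ := fun k t => ⌊l * W (B.r k) + t⌋ - ⌊l * W (B.l k) + t⌋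
  let τ : ℝ → ℤ := fun t => ⌊l * W B.b + t⌋ - ⌊l * W B.a + t⌋
  have md : ∀ u v : ℝ, Mean (fun s => ((⌊l * u + s⌋ - ⌊l * v + s⌋ : ℤ) : ℝ)) (l * (u - v)) :=
    fun u v => by simpa only [Int.cast_sub, mul_sub] using (mean_floor _).sub (mean_floor _)
  have cd : ∀ (k : I ⊕ J) (u v s : ℝ), |((indZ I J k - (⌊l * u + s⌋ - ⌊l * v + s⌋) : ℤ) : ℝ) -
      (ind I J k - l * (u - v))| < 1 := fun k u v s => by
    have := floor_diff (l * u) (l * v) s
    rw [← abs_neg] at this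
    rw [Int.cast_sub, indZ_cast]
    refine lt_of_eq_of_lt (congrArg _ ?_) this
    ring
  have cτ : ∀ t, |(τ t : ℝ) - l * H| < 1 := fun t => by
    have := floor_diff (l * W B.b) (l * W B.a) t
    rwa [← mul_sub, ← Side.tot, ← hH] at this
  have hlH : σ * (l * H - K) = l * (σ * (H - K₀)) := by rw [← hl]; ring
  have key := claim (y := y) (α := fun k s => indZ I J k - a k s)
    (β := fun k t => indZ I J k - b k t) (τ := τ) (K := K) (n := Fintype.card I) (σ := σ)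
    (η := l * (σ * (H - K₀))) (H := H) (by exact_mod_cast hK') hσ
    (fun k => by
      simp only [Int.cast_sub (indZ I J k), indZ_cast]
      exact (Mean.const (ind I J k)).sub (md (U (A.r k)) (U (A.l k))))
    (fun k => by
      simp only [y, hz k, Int.cast_sub (indZ I J k), indZ_cast]
      exact (Mean.const (ind I J k)).sub (md (W (B.r k)) (W (B.l k))))
    (fun k s => cd k _ _ s) (fun k t => by simp only [y, hz k]; exact cd k _ _ t)
    (by
      rw [← hlH, hH]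
      exact ((md (W B.b) (W B.a)).sub (Mean.const _)).mul σ)
    (mul_nonneg hl2.1 hw)
    (fun t => by
      obtain ⟨c1, c2⟩ := abs_lt.1 (cτ t)
      have c3 : 0 ≤ σ * (l * H - K) := by rw [hlH]; exact mul_nonneg hl2.1 hw
      rcases hσ with h | h <;> rw [h] at c3 ⊢
      · have : (K : ℤ) - 1 < τ t := by
          exact_mod_cast (by push_cast; linarith : (((K : ℤ) - 1 : ℤ) : ℝ) < τ t)
        rcases (show τ t = K ∨ (K : ℤ) + 1 ≤ τ t by omega) with h1 | h1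
        · exact Or.inl h1
        · have : (((K : ℤ) + 1 : ℤ) : ℝ) ≤ τ t := by exact_mod_cast h1
          push_cast at this ⊢
          exact Or.inr (by linarith)
      · have : τ t < (K : ℤ) + 1 := by
          exact_mod_cast (by push_cast; linarith : (τ t : ℝ) < (((K : ℤ) + 1 : ℤ) : ℝ))
        rcases (show τ t = K ∨ τ t + 1 ≤ (K : ℤ) by omega) with h1 | h1
        · exact Or.inl h1
        · have : ((τ t + 1 : ℤ) : ℝ) ≤ (K : ℤ) := by exact_mod_cast h1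
          push_cast at this ⊢
          exact Or.inr (by linarith))
    (fun s t => by
      have h1 := hO _ _ (hU.comp fun u => (⌊l * u + s⌋ : ℝ)) (hW.comp fun u => (⌊l * u + t⌋ : ℝ))
      have h2 : ⌊l * U A.b + s⌋ = ⌊l * U A.a + s⌋ + (K : ℤ) := by
        rw [← Int.floor_add_intCast]
        congr 1
        have : l * (U A.b - U A.a) = K := by rw [← hl, hK₀]; rfl
        push_cast
        linarith
      have h3 : ∑ k, a k s * b k t = K * τ t := by
        simp only [Side.D, Side.tot, h2] at h1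
        have h4 : ((∑ k, a k s * b k t : ℤ) : ℝ) = ((K * τ t : ℤ) : ℝ) := by
          simp only [a, b, τ]
          push_cast at h1 ⊢
          rw [h1]; ring
        exact_mod_cast h4
      rw [← h3]
      simp only [Fintype.sum_sum_type, indZ, Sum.elim_inl, Sum.elim_inr, sub_mul, mul_sub,
        Finset.sum_sub_distrib, one_mul, mul_one, zero_mul, mul_zero, Finset.sum_const_zero,
        Finset.sum_const, Finset.card_univ, nsmul_eq_mul]
      ring)
    (by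
      simp only [y, ind, Sum.elim_inl, Finset.sum_sub_distrib, ← Finset.mul_sum, hS,
        Finset.sum_const, Finset.card_univ, nsmul_eq_mul, mul_one]
      push_cast
      rw [← mul_assoc, hl])
    (by
      push_cast
      rw [hn']
      linarith [mul_le_mul_of_nonneg_left (b3.2.trans (add_le_add le_rfl hν))
        (Nat.cast_nonneg (α := ℝ) K), hσ1.1])
    (by push_cast; linarith [b3.1])
    (fun τ₀ h1 h2 => by
      push_cast
      refine small_le (z := fun i => A.D U (.inl i)) (K₀ := K₀) hK' ?_ ?_ (fun i => rfl) h1 h2 hG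
      · rcases hσ with h | h <;> rw [h] at a3
        · rw [abs_of_nonpos (by linarith)]; linarith
        · rw [abs_of_nonneg (by linarith)]; linarith
      · rw [abs_le]; constructor <;> linarith [hσ1.1, hσ1.2])
  have eY : ∑ k, y k ^ 2 = Fintype.card I - 2 * K * H + l * (K * H) := by
    have e1 : ∀ k, y k ^ 2 = ind I J k - 2 * l * (ind I J k * A.D U k) + l ^ 2 * A.D U k ^ 2 := by
      intro k
      cases k <;> simp only [y, ind, Sum.elim_inl, Sum.elim_inr] <;> ring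
    simp only [e1, Finset.sum_add_distrib, Finset.sum_sub_distrib, ← Finset.mul_sum, hzz]
    simp only [Fintype.sum_sum_type, ind, Sum.elim_inl, Sum.elim_inr, one_mul, zero_mul, hS,
      Finset.sum_const_zero, Finset.sum_const, Finset.card_univ, nsmul_eq_mul, mul_one, add_zero]
    linear_combination (l * H - 2 * H) * hl
  rw [eY, hn'] at key
  have hK0 : (0 : ℝ) < K := by linarith
  have e2 : l * (K * H) = K ^ 2 + l * K * (H - K₀) := by linear_combination (K : ℝ) * hl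
  have e3 : K * (H - K₀) = l * K₀ * (H - K₀) := by rw [hl]
  have e4 : l * (K - K₀) * (H - K₀) + l * (σ * (H - K₀)) =
      l * (σ * (H - K₀)) * (1 - σ * (K₀ - K)) := by
    linear_combination (-(l * (K - K₀) * (H - K₀))) * hσ2
  have e5 : l * (σ * (H - K₀)) * (1 - σ * (K₀ - K)) ≤ 2 * ν * (σ * (H - K₀)) := by
    have f1 : l * (σ * (H - K₀)) * (1 - σ * (K₀ - K)) ≤ l * (σ * (H - K₀)) * ν :=
      mul_le_mul_of_nonneg_left (by linarith) (mul_nonneg hl2.1 hw)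
    have f2 : 0 ≤ ν := (abs_nonneg _).trans hA
    linarith [mul_le_mul_of_nonneg_right hl2.2 (mul_nonneg hw f2)]
  rw [hΔ, ← sub_nonneg]
  have e6 : 2 * ((K : ℝ) + c / K) + 2 * ν * (σ * (H - K₀)) / K - (K₀ + H) =
      (2 * K ^ 2 + 2 * c + 2 * ν * (σ * (H - K₀)) - K * (K₀ + H)) / K := by
    field_simp
  rw [e6]
  refine div_nonneg ?_ hK0.le
  linarith

end Round

theorem round_of : RoundStmt := by
  intro I J _ _ A B U W K c σ ν hO hU hW hz hn hK hσ hc _ hν hA hB hS hG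
  by_cases hw : 0 ≤ σ * (B.tot W - A.tot U)
  · exact Round.core A B U W K c σ ν hO hU hW hz hn hK hσ hc hν hA hB hS hG hw
  · have := Round.core B A W U K c σ ν hO.symm hW hU (fun k => (hz k).symm) hn hK hσ hc hν hB hA
      (by simp only [← hz]; rw [hS, mul_comm]) (by simpa only [← hz] using hG)
      (by linarith [mul_sub σ (B.tot W) (A.tot U), mul_sub σ (A.tot U) (B.tot W)])
    rwa [add_comm (B.tot W), abs_sub_comm] at this

end
end Pool.Agent.MP_a421c2_co.Ex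

end MrgPart2

-- ======== part 3: formerly Pool.Agent.MP_a421c2_co.Ex.Net
section MrgPart3

/-! # HODGE and NET -/

set_option autoImplicit false
open MeasureTheory Set Real
open Finset (range)

namespace Pool.Agent.MP_a421c2_co.Ex
namespace NetAux
noncomputable section

variable {E : Type} [Fintype E]

/-- closed gradients of a network -/
def closedG (A : Side E) : Submodule ℝ (EuclideanSpace ℝ E) where
  carrier := {v | ∃ U, A.Adm U ∧ A.tot U = 0 ∧ ∀ k, v k = A.D U k}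
  add_mem' := by
    rintro v w ⟨U, h1, h2, h3⟩ ⟨W, k1, k2, k3⟩
    refine ⟨fun x => U x + W x, fun x y h => by simp only [h1 x y h, k1 x y h], ?_, fun k => ?_⟩
    · simp only [Side.tot] at *; linarith
    · simp only [Side.D, PiLp.add_apply, h3, k3]; ring
  zero_mem' := ⟨fun _ => 0, fun _ _ _ => rfl, by simp [Side.tot], fun k => by simp [Side.D]⟩
  smul_mem' := by
    rintro c v ⟨U, h1, h2, h3⟩
    refine ⟨fun x => c * U x, fun x y h => by simp only [h1 x y h], ?_, fun k => ?_⟩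
    · simp only [Side.tot] at *; rw [← mul_sub, h2, mul_zero]
    · simp only [Side.D, PiLp.smul_apply, h3, smul_eq_mul]; ring

/-- orthogonal projection onto the closed gradients -/
lemma proj (A : Side E) (v : E → ℝ) : ∃ U, A.Adm U ∧ A.tot U = 0 ∧
    ∀ U', A.Adm U' → A.tot U' = 0 → ∑ k, A.D U' k * (v k - A.D U k) = 0 := by
  obtain ⟨y, ⟨U, h1, h2, h3⟩, z, hz, e⟩ :=
    (closedG A).exists_add_mem_mem_orthogonal (WithLp.toLp 2 v)
  refine ⟨U, h1, h2, fun U' k1 k2 => ?_⟩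
  have := (Submodule.mem_orthogonal _ _).1 hz (WithLp.toLp 2 (A.D U')) ⟨U', k1, k2, fun _ => rfl⟩
  rw [PiLp.inner_apply] at this
  rw [← this]
  refine Finset.sum_congr rfl fun k _ => ?_
  have ek : v k = y k + z k := congrArg (fun w : EuclideanSpace ℝ E => w k) e
  rw [ek, h3]
  simp [mul_comm]

/-- clamping a potential to the interval between the poles does not change a gradient that is
also a gradient of the dual network -/
lemma clamp {A B : Side E} (hO : Orth A B) {U : A.V → ℝ} {W : B.V → ℝ} (hU : A.Adm U)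
    (hW : B.Adm W) (h : ∀ k, A.D U k = B.D W k) :
    ∃ U', A.Adm U' ∧ (∀ k, A.D U' k = A.D U k) ∧ ∀ x, |U' x| ≤ |A.tot U'| := by
  set lo := min (U A.a) (U A.b) with hlo
  set hi := max (U A.a) (U A.b) with hhi
  let φ : ℝ → ℝ := fun u => max lo (min u hi) - U A.a
  have hφa : φ (U A.a) = 0 := by
    simp only [φ]
    rw [min_eq_left (le_max_left _ _), max_eq_right (min_le_left _ _), sub_self]
  have hφb : φ (U A.b) = U A.b - U A.a := by
    simp only [φ]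
    rw [min_eq_left (le_max_right _ _), max_eq_right (min_le_right _ _)]
  have htot : A.tot (fun x => φ (U x)) = A.tot U := by
    simp only [Side.tot, hφa, hφb, sub_zero]
  have hm : ∀ u v, u ≤ v → 0 ≤ φ v - φ u ∧ φ v - φ u ≤ v - u := by
    intro u v huv
    simp only [φ]
    constructor
    · have := max_le_max (le_refl lo) (min_le_min huv (le_refl hi)); linarith
    · rcases le_total u hi with a | a <;> rcases le_total v hi with b | b <;>
        simp only [min_eq_left, min_eq_right, a, b] <;>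
        rcases le_total lo u with c | c <;> rcases le_total lo v with d | d <;>
        rcases le_total lo hi with e | e <;>
        simp only [max_eq_left, max_eq_right, c, d, e] <;> linarith
  have hle : ∀ k, A.D (fun x => φ (U x)) k * A.D U k ≤ A.D U k * A.D U k := by
    intro k
    simp only [Side.D]
    rcases le_total (U (A.l k)) (U (A.r k)) with a | a
    · have := hm _ _ a; nlinarith
    · have := hm _ _ a; nlinarith
  have hs : ∑ k, A.D (fun x => φ (U x)) k * A.D U k = ∑ k, A.D U k * A.D U k := by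
    have e1 := hO _ W (hU.comp φ) hW
    have e2 := hO _ W hU hW
    simp only [← h] at e1 e2
    rw [e1, e2, htot]
  have heq := (Finset.sum_eq_sum_iff_of_le (fun k _ => hle k)).1 hs
  refine ⟨fun x => φ (U x), hU.comp φ, fun k => ?_, fun x => ?_⟩
  · by_cases h0 : A.D U k = 0
    · have : U (A.r k) = U (A.l k) := sub_eq_zero.1 h0
      simp only [Side.D, this, sub_self]
    · exact mul_right_cancel₀ h0 (heq k (Finset.mem_univ _))
  · rw [htot]
    simp only [φ, Side.tot]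
    have a1 : lo ≤ max lo (min (U x) hi) := le_max_left _ _
    have a2 : max lo (min (U x) hi) ≤ hi := max_le min_le_max (min_le_right _ _)
    rcases le_total (U A.a) (U A.b) with c | c
    · rw [min_eq_left c] at hlo; rw [max_eq_right c] at hhi
      rw [abs_of_nonneg (by linarith), abs_of_nonneg (by linarith)]; linarith
    · rw [min_eq_right c] at hlo; rw [max_eq_left c] at hhi
      rw [abs_of_nonpos (by linarith), abs_of_nonpos (by linarith)]; linarith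

/-- the threshold potentials -/
def thr (t u : ℝ) : ℝ := if t < u then 1 else 0

lemma thr_mul (t u v : ℝ) :
    (thr t v - thr t u) * (v - u) = (Ico (min u v) (max u v)).indicator (fun _ => |v - u|) t := by
  unfold thr
  by_cases a : t < u <;> by_cases b : t < v <;> simp only [a, b, if_true, if_false]
  · rw [indicator_of_notMem (fun h => absurd h.1 (not_le.2 (lt_min a b)))]; ring
  · have : v < u := (not_lt.1 b).trans_lt a
    rw [indicator_of_mem (by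
      rw [min_eq_right this.le, max_eq_left this.le]; exact ⟨not_lt.1 b, a⟩),
      abs_of_neg (by linarith)]; ring
  · have : u < v := (not_lt.1 a).trans_lt b
    rw [indicator_of_mem (by
      rw [min_eq_left this.le, max_eq_right this.le]; exact ⟨not_lt.1 a, b⟩),
      abs_of_pos (by linarith)]; ring
  · rw [indicator_of_notMem (fun h => absurd h.2 (not_lt.2 (max_le (not_lt.1 a) (not_lt.1 b))))]
    ring

/-- collapsing the gaps of a closed potential whose threshold flows are integers -/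
lemma collapse (A : Side E) {U : A.V → ℝ} (hU : A.Adm U) (h0 : A.tot U = 0)
    (hint : ∀ t, ∃ m : ℤ, ∑ k, A.D (fun x => thr t (U x)) k * A.D U k = m) :
    ∃ U', A.Adm U' ∧ A.tot U' = 0 ∧ (∀ k, A.D U' k = A.D U k) ∧
      ∀ x, |U' x| ≤ ∑ k, A.D U k ^ 2 := by
  let Iv : E → Set ℝ := fun k => Ico (min (U (A.l k)) (U (A.r k))) (max (U (A.l k)) (U (A.r k)))
  let T : Set ℝ := ⋃ k, Iv k
  have hT : MeasurableSet T := MeasurableSet.iUnion fun k => measurableSet_Ico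
  let ψ : ℝ → ℝ := T.indicator fun _ => 1
  let g : ℝ → ℝ := fun t => ∑ k, (Iv k).indicator (fun _ => |A.D U k|) t
  have hgi : ∀ k, Integrable ((Iv k).indicator fun _ => |A.D U k|) := fun k =>
    (integrable_indicator_iff measurableSet_Ico).2 (integrableOn_const (by simp))
  have hg : Integrable g := integrable_finsetSum _ fun k _ => hgi k
  have hψ0 : ∀ t, 0 ≤ ψ t := fun t => indicator_nonneg (fun _ _ => zero_le_one) t
  have hψg : ∀ t, ψ t ≤ g t := by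
    intro t
    have hn : ∀ k, 0 ≤ (Iv k).indicator (fun _ => |A.D U k|) t := fun k =>
      indicator_nonneg (fun _ _ => abs_nonneg _) t
    by_cases ht : t ∈ T
    · obtain ⟨k, hk⟩ := mem_iUnion.1 ht
      obtain ⟨m, hm⟩ := hint t
      have e : g t = m := by
        rw [← hm]
        exact Finset.sum_congr rfl fun k _ => (thr_mul t _ _).symm
      have hpos : 0 < g t := by
        refine Finset.sum_pos' (fun k _ => hn k) ⟨k, Finset.mem_univ _, ?_⟩
        rw [indicator_of_mem hk]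
        refine abs_pos.2 fun h => ?_
        have : U (A.r k) = U (A.l k) := sub_eq_zero.1 h
        simp only [Iv, this, min_self, max_self, Ico_self] at hk
        exact hk
      rw [e] at hpos ⊢
      have : (1 : ℤ) ≤ m := by exact_mod_cast hpos
      simp only [ψ, indicator_of_mem ht]
      exact_mod_cast this
    · simp only [ψ, indicator_of_notMem ht]
      exact Finset.sum_nonneg fun k _ => hn k
  have hψ : Integrable ψ := hg.mono' ((measurable_const.indicator hT).aestronglyMeasurable)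
    (Filter.Eventually.of_forall fun t => by rw [Real.norm_of_nonneg (hψ0 t)]; exact hψg t)
  have hint' : ∫ t, g t = ∑ k, A.D U k ^ 2 := by
    rw [integral_finsetSum _ fun k _ => hgi k]
    refine Finset.sum_congr rfl fun k _ => ?_
    rw [integral_indicator_const _ measurableSet_Ico, Real.volume_real_Ico_of_le min_le_max,
      max_sub_min_eq_abs, smul_eq_mul, ← sq_abs, sq]
    rfl
  let φ : ℝ → ℝ := fun u => ∫ t in (U A.a)..u, ψ t
  refine ⟨fun x => φ (U x), hU.comp φ, ?_, fun k => ?_, fun x => ?_⟩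
  · have : U A.b = U A.a := sub_eq_zero.1 h0
    simp only [Side.tot, this, sub_self]
  · simp only [Side.D, φ]
    rw [intervalIntegral.integral_interval_sub_left hψ.intervalIntegrable hψ.intervalIntegrable,
      intervalIntegral.integral_congr_ae (g := fun _ => (1 : ℝ))]
    · simp
    · have : ∀ᵐ t : ℝ, t ≠ max (U (A.l k)) (U (A.r k)) := by simp [ae_iff]
      filter_upwards [this] with t h1 h2
      have h3 : t ∈ Iv k := ⟨h2.1.le, lt_of_le_of_ne h2.2 h1⟩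
      exact indicator_of_mem (mem_iUnion.2 ⟨k, h3⟩) _
  · calc |φ (U x)| ≤ ∫ t in uIoc (U A.a) (U x), ‖ψ t‖ :=
          intervalIntegral.norm_integral_le_integral_norm_uIoc (f := ψ) (μ := volume)
      _ ≤ ∫ t, ‖ψ t‖ := setIntegral_le_integral hψ.norm
          (Filter.Eventually.of_forall fun t => norm_nonneg _)
      _ ≤ ∫ t, g t := integral_mono hψ.norm hg fun t => by
          simp only [Real.norm_of_nonneg (hψ0 t)]; exact hψg t
      _ = _ := hint'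

lemma thr_int {I J : Type} [Fintype I] [Fintype J] (A : Side (I ⊕ J)) (U : A.V → ℝ) (t : ℝ) :
    ∃ m : ℤ, ∑ k, A.D (fun x => thr t (U x)) k * ind I J k = m := by
  have h : ∀ u, ∃ m : ℤ, thr t u = m := fun u => by
    unfold thr; split_ifs
    exacts [⟨1, by simp⟩, ⟨0, by simp⟩]
  choose m hm using h
  refine ⟨∑ i, (m (U (A.r (.inl i))) - m (U (A.l (.inl i)))), ?_⟩
  simp [Fintype.sum_sum_type, ind, Side.D, hm]

/-- one half of the decomposition: the closed component has a bounded potential -/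
lemma half {I J : Type} [Fintype I] [Fintype J] {A B : Side (I ⊕ J)} (hO : Orth A B)
    {UA : A.V → ℝ} {W WB : B.V → ℝ} (hUA : A.Adm UA) (hW : B.Adm W) (hWB : B.Adm WB)
    (h0 : A.tot UA = 0) (h : ∀ k, ind I J k = B.D W k + A.D UA k + B.D WB k) :
    ∃ U', A.Adm U' ∧ A.tot U' = 0 ∧ (∀ k, A.D U' k = A.D UA k) ∧
      ∀ x, |U' x| ≤ ∑ k, A.D UA k ^ 2 := by
  refine collapse A hUA h0 fun t => ?_
  obtain ⟨m, hm⟩ := thr_int A UA t
  refine ⟨m, ?_⟩
  have ht : A.tot (fun x => thr t (UA x)) = 0 := by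
    have : UA A.b = UA A.a := sub_eq_zero.1 h0
    simp only [Side.tot, this, sub_self]
  have e1 := hO _ W (hUA.comp (thr t)) hW
  have e2 := hO _ WB (hUA.comp (thr t)) hWB
  rw [ht, zero_mul] at e1 e2
  simp only [h, mul_add, Finset.sum_add_distrib, e1, e2] at hm
  linarith

/-! ### numeric steps -/

lemma num1 {K τ η δ Q n X D : ℝ} (hK : 100 ≤ K) (hτ : 995 / 1000 ≤ τ) (hη : 0 ≤ η) (hηδ : η ≤ δ)
    (hn : n ≤ (τ * K) ^ 2 + 2 * δ) (hD0 : 0 ≤ D) (hD : D ≤ (3 * K) ^ 2 + η - Q)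
    (hX : τ * K * (3 * K) ≤ X) (hc : X ^ 2 ≤ n * D) : Q ≤ 20 * δ := by
  by_contra hQ
  push Not at hQ
  have hδ : 0 ≤ δ := hη.trans hηδ
  have hT : 0 ≤ τ * K * (3 * K) := by positivity
  have h1 : (τ * K * (3 * K)) ^ 2 ≤ ((τ * K) ^ 2 + 2 * δ) * ((3 * K) ^ 2 + η - Q) :=
    calc (τ * K * (3 * K)) ^ 2 ≤ X ^ 2 := pow_le_pow_left₀ hT hX 2
      _ ≤ n * D := hc
      _ ≤ ((τ * K) ^ 2 + 2 * δ) * D := mul_le_mul_of_nonneg_right hn hD0
      _ ≤ _ := mul_le_mul_of_nonneg_left hD (by positivity)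
  have h2 : ((τ * K) ^ 2 + 2 * δ) * (Q - η) ≤ 18 * δ * K ^ 2 := by nlinarith
  have h3 : 99 / 100 * K ^ 2 ≤ (τ * K) ^ 2 + 2 * δ := by
    have : 99 / 100 ≤ τ ^ 2 := by nlinarith
    nlinarith [sq_nonneg K]
  have h4 : 99 / 100 * K ^ 2 * (Q - η) ≤ 18 * δ * K ^ 2 :=
    (mul_le_mul_of_nonneg_right h3 (by linarith)).trans h2
  have h5 : 0 < K ^ 2 := by positivity
  have h6 : 99 / 100 * (Q - η) ≤ 18 * δ := by
    by_contra h
    push Not at h
    nlinarith
  linarith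

lemma key {K τ P S D y w : ℝ} (hK : 0 < K)
    (h : 2 * (τ * K) * (3 * K) * P ≤ (3 * K) ^ 2 * S + (τ * K) ^ 2 * D)
    (hS : S ≤ (τ * K) ^ 2 + y) (hD : D ≤ (3 * K) ^ 2 + w) :
    6 * τ * (P - τ * K * (3 * K)) ≤ 9 * y + τ ^ 2 * w := by
  have h1 : (3 * K) ^ 2 * S ≤ (3 * K) ^ 2 * ((τ * K) ^ 2 + y) :=
    mul_le_mul_of_nonneg_left hS (sq_nonneg _)
  have h2 : (τ * K) ^ 2 * D ≤ (τ * K) ^ 2 * ((3 * K) ^ 2 + w) :=
    mul_le_mul_of_nonneg_left hD (sq_nonneg _)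
  have h5 : 0 < K ^ 2 := by positivity
  refine le_of_mul_le_mul_left ?_ h5
  nlinarith

lemma num2 {τ r G A L η δ : ℝ} (h1 : 99 / 100 ≤ τ) (h2 : τ ≤ 101 / 100) (hG : 0 ≤ G) (hA0 : 0 ≤ A)
    (hA : A ≤ 20 * δ) (hL : L ≤ 1 / 500) (hηδ : η ≤ δ)
    (hr : -(L * (3 / 2 * G + A)) ≤ r) (h : 6 * τ * r ≤ 9 * (2 * δ - G) + τ ^ 2 * η) :
    G ≤ 3 * δ ∧ |r| ≤ 4 * δ := by
  have e1 : τ ^ 2 * η ≤ 103 / 100 * δ := by
    have : τ ^ 2 ≤ 103 / 100 := by nlinarith
    nlinarith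
  have e2 : L * (3 / 2 * G + A) ≤ 1 / 500 * (3 / 2 * G + A) :=
    mul_le_mul_of_nonneg_right hL (by positivity)
  have e3 : -(1 / 500 * (3 / 2 * G + A)) ≤ r := by linarith
  have e4 : -(7 * (1 / 500 * (3 / 2 * G + A))) ≤ 6 * τ * r := by nlinarith
  have hG3 : G ≤ 3 * δ := by linarith
  refine ⟨hG3, abs_le.2 ⟨by linarith, ?_⟩⟩
  by_contra h3
  push Not at h3
  nlinarith

lemma num3 {K τ K0 P L w δ : ℝ} (hK : 100 ≤ K) (h1 : 0 ≤ τ) (h2 : τ ≤ 101 / 100) (hL0 : 0 ≤ L)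
    (hL : L ≤ 1) (hw : w ≤ 1) (hδ : 4 * δ ≤ 1) (hr : |P - τ * K * (3 * K)| ≤ 4 * δ)
    (h : |3 * K * K0 - P| ≤ L * (|K0| + w)) : |3 * K * K0 - P| ≤ 6 / 5 * L * K := by
  have hb : |K0| ≤ 11 / 10 * K := by
    by_contra hc
    push Not at hc
    have a1 : L * (|K0| + w) ≤ |K0| + 1 := by nlinarith [abs_nonneg K0]
    have a2 : |P| ≤ τ * K * (3 * K) + 1 := by
      have := abs_add_le (P - τ * K * (3 * K)) (τ * K * (3 * K))
      rw [sub_add_cancel, abs_of_nonneg (a := τ * K * (3 * K)) (by positivity)] at this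
      linarith
    have a3 : 3 * K * |K0| ≤ |K0| + 1 + |P| := by
      have := abs_add_le (3 * K * K0 - P) P
      rw [sub_add_cancel, abs_mul, abs_of_nonneg (a := 3 * K) (by positivity)] at this
      linarith
    have a4 : τ * K * (3 * K) ≤ 303 / 100 * K ^ 2 := by nlinarith [sq_nonneg K]
    have a5 : (3 * K - 1) * (11 / 10 * K) ≤ (3 * K - 1) * |K0| :=
      mul_le_mul_of_nonneg_left hc.le (by linarith)
    nlinarith
  refine h.trans ?_
  have : |K0| + w ≤ 6 / 5 * K := by linarith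
  nlinarith

lemma num4 {K T K0 P L δ : ℝ} (hK : 100 ≤ K) (hδ : 0 ≤ δ) (hr : |P - T * (3 * K)| ≤ 4 * δ)
    (h : |3 * K * K0 - P| ≤ 6 / 5 * L * K) : |K0 - T| ≤ 2 / 5 * L + δ := by
  have h1 := abs_add_le (3 * K * K0 - P) (P - T * (3 * K))
  rw [show 3 * K * K0 - P + (P - T * (3 * K)) = 3 * K * (K0 - T) by ring, abs_mul,
    abs_of_nonneg (a := 3 * K) (by positivity)] at h1
  refine le_of_mul_le_mul_left ?_ (show 0 < 3 * K by positivity)
  nlinarith

lemma num5 {K K0 H0 P L : ℝ} (hK : 100 ≤ K) (hL : 0 ≤ L) (h : |3 * K * K0 - P| ≤ 6 / 5 * L * K)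
    (h' : |3 * K * H0 - P| ≤ 6 / 5 * L * K) : |H0 - K0| ≤ L := by
  have h1 := abs_sub (3 * K * H0 - P) (3 * K * K0 - P)
  rw [show 3 * K * H0 - P - (3 * K * K0 - P) = 3 * K * (H0 - K0) by ring, abs_mul,
    abs_of_nonneg (a := 3 * K) (by positivity)] at h1
  refine le_of_mul_le_mul_left ?_ (show 0 < 3 * K by positivity)
  nlinarith

lemma num6 {K τ K0 H0 x : ℝ} (hK : 100 ≤ K) (h2 : τ ≤ 101 / 100) (hx0 : 0 ≤ x)
    (hx : x ≤ 1) (hs : 0 ≤ K0 + H0) (h : K0 + H0 ≤ 2 * (τ * K) + 2 * x / K) :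
    K0 * H0 ≤ (τ * K) ^ 2 + 31 / 10 * x := by
  have hK0 : 0 < K := by linarith
  obtain ⟨e, he⟩ : ∃ e, e = x / K := ⟨_, rfl⟩
  have e1 : K * e = x := by rw [he]; field_simp
  have e0 : 0 ≤ e := by rw [he]; positivity
  have e2 : e ≤ x := by nlinarith
  rw [mul_div_assoc, ← he] at h
  have a1 : (K0 + H0) ^ 2 ≤ (2 * (τ * K) + 2 * e) ^ 2 := pow_le_pow_left₀ hs h 2
  have a2 : e ^ 2 ≤ x := by nlinarith
  have a3 : τ * (K * e) ≤ 101 / 100 * x := by rw [e1]; nlinarith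
  nlinarith [sq_nonneg (K0 - H0)]

lemma num7 {τ r L η δ κ ν : ℝ} (h1 : 99 / 100 ≤ τ) (h2 : τ ≤ 101 / 100) (hL0 : 0 ≤ L)
    (hη : 0 ≤ η) (hδ : 0 ≤ δ) (hδκ : δ ≤ κ / 10000) (hν : ν ≤ 2 * δ + κ / 500)
    (hr : η - 25 * δ * L < r)
    (h : 6 * τ * r ≤ 9 * (31 / 10 * (ν * L)) + τ ^ 2 * (η - κ * L)) : False := by
  have hκ : 0 ≤ κ := by linarith
  have a1 : 6 * τ * (η - 25 * δ * L) < 6 * τ * r := mul_lt_mul_of_pos_left hr (by linarith)
  have a2 : τ ^ 2 * η ≤ 6 * τ * η := mul_le_mul_of_nonneg_right (by nlinarith) hη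
  have hκL : 0 ≤ κ * L := by positivity
  have a3 : 98 / 100 * (κ * L) ≤ τ ^ 2 * (κ * L) := mul_le_mul_of_nonneg_right (by nlinarith) hκL
  have hδL : 0 ≤ δ * L := by positivity
  have a4 : τ * (δ * L) ≤ 101 / 100 * (δ * L) := mul_le_mul_of_nonneg_right h2 hδL
  have a5 : ν * L ≤ (2 * δ + κ / 500) * L := mul_le_mul_of_nonneg_right hν hL0
  have a6 : δ * L ≤ κ / 10000 * L := mul_le_mul_of_nonneg_right hδκ hL0
  nlinarith

/-! ### sums over the resistor edges -/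

lemma sum_inr_le {I J : Type} [Fintype I] [Fintype J] (g : I ⊕ J → ℝ) :
    ∑ j, g (.inr j) ^ 2 ≤ ∑ k, g k ^ 2 := by
  rw [Fintype.sum_sum_type]
  exact le_add_of_nonneg_left (Finset.sum_nonneg fun _ _ => sq_nonneg _)

lemma sum_inl_le {I J : Type} [Fintype I] [Fintype J] (g : I ⊕ J → ℝ) :
    ∑ i, g (.inl i) ^ 2 ≤ ∑ k, g k ^ 2 := by
  rw [Fintype.sum_sum_type]
  exact le_add_of_nonneg_right (Finset.sum_nonneg fun _ _ => sq_nonneg _)

lemma amgm {J : Type} [Fintype J] (a b : J → ℝ) :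
    ∑ j, |a j| * |b j| ≤ (∑ j, a j ^ 2 + ∑ j, b j ^ 2) / 2 := by
  rw [← Finset.sum_add_distrib, Finset.sum_div]
  refine Finset.sum_le_sum fun j _ => ?_
  nlinarith [sq_nonneg (|a j| - |b j|), sq_abs (a j), sq_abs (b j)]

lemma leak_closed {I J : Type} [Fintype I] [Fintype J] {A : Side (I ⊕ J)} {ℓ L : ℝ}
    {d : I ⊕ J → ℝ} (h : Leak A ℓ d L) (hL : 0 ≤ L) {U : A.V → ℝ} (hU : A.Adm U)
    (h0 : A.tot U = 0) (hb : ∀ x, |U x| ≤ ∑ k, A.D U k ^ 2) :
    ∑ k, A.D U k * d k ≤ L * (3 / 2 * ∑ k, A.D U k ^ 2 + (∑ j, d (.inr j) ^ 2) / 2) := by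
  have h1 := h U _ hU hb
  rw [h0, mul_zero, zero_sub, abs_neg] at h1
  refine (le_abs_self _).trans (h1.trans (mul_le_mul_of_nonneg_left ?_ hL))
  have := amgm (fun j => A.D U (.inr j)) fun j => d (.inr j)
  have := sum_inr_le (A.D U)
  linarith

lemma leak_open {I J : Type} [Fintype I] [Fintype J] {A : Side (I ⊕ J)} {ℓ L G : ℝ}
    {d : I ⊕ J → ℝ} (h : Leak A ℓ d L) (hL : 0 ≤ L) {U : A.V → ℝ} (hU : A.Adm U)
    (hb : ∀ x, |U x| ≤ |A.tot U|) (hG : ∑ j, A.D U (.inr j) ^ 2 ≤ G) :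
    |ℓ * A.tot U - ∑ k, A.D U k * d k| ≤ L * (|A.tot U| + (G + ∑ j, d (.inr j) ^ 2) / 2) := by
  refine (h U _ hU hb).trans (mul_le_mul_of_nonneg_left ?_ hL)
  have := amgm (fun j => A.D U (.inr j)) fun j => d (.inr j)
  linarith

/-- the algebra of the orthogonal decomposition -/
lemma decomp {I J : Type} [Fintype I] [Fintype J] {z a b : I ⊕ J → ℝ} (d : I ⊕ J → ℝ)
    (h : ∀ k, ind I J k = z k + a k + b k) (h1 : ∑ k, a k * z k = 0) (h2 : ∑ k, z k * b k = 0)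
    (h3 : ∑ k, a k * b k = 0) :
    ∑ i, z (.inl i) = ∑ k, z k * z k ∧
    (Fintype.card I : ℝ) = ∑ k, z k * z k + (∑ k, a k ^ 2 + ∑ k, b k ^ 2) ∧
    ∑ i, (1 - z (.inl i)) ^ 2 ≤ ∑ k, a k ^ 2 + ∑ k, b k ^ 2 ∧
    ∑ j, z (.inr j) ^ 2 ≤ ∑ k, a k ^ 2 + ∑ k, b k ^ 2 ∧
    ∑ i, d (.inl i) = ∑ k, z k * d k + ∑ k, a k * d k + ∑ k, b k * d k := by
  have e0 : ∀ v : I ⊕ J → ℝ, ∑ k, ind I J k * v k = ∑ i, v (.inl i) := fun v => by
    simp [Fintype.sum_sum_type, ind]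
  have e1 : ∑ k, (a k + b k) ^ 2 = ∑ k, a k ^ 2 + ∑ k, b k ^ 2 := by
    have : ∀ k, (a k + b k) ^ 2 = a k ^ 2 + b k ^ 2 + 2 * (a k * b k) := fun k => by ring
    simp only [this, Finset.sum_add_distrib, ← Finset.mul_sum, h3, mul_zero, add_zero]
  refine ⟨?_, ?_, ?_, ?_, ?_⟩
  · rw [← e0]
    have : ∀ k, ind I J k * z k = z k * z k + a k * z k + z k * b k := fun k => by rw [h]; ring
    simp only [this, Finset.sum_add_distrib, h1, h2, add_zero]
  · have e2 : ∑ k, ind I J k * ind I J k = Fintype.card I := by rw [e0]; simp [ind]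
    rw [← e2, ← e1]
    have : ∀ k, ind I J k * ind I J k =
        z k * z k + (a k + b k) ^ 2 + 2 * (a k * z k) + 2 * (z k * b k) := fun k => by rw [h]; ring
    simp only [this, Finset.sum_add_distrib, ← Finset.mul_sum, h1, h2, mul_zero, add_zero]
  · rw [← e1]
    refine le_of_eq_of_le (Finset.sum_congr rfl fun i _ => ?_) (sum_inl_le fun k => a k + b k)
    have : (1 : ℝ) = _ := h (.inl i)
    rw [this]; ring
  · rw [← e1]
    refine le_of_eq_of_le (Finset.sum_congr rfl fun j _ => ?_) (sum_inr_le fun k => a k + b k)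
    have : (0 : ℝ) = _ := h (.inr j)
    rw [show z (.inr j) = -(a (.inr j) + b (.inr j)) by linarith]; ring
  · rw [← e0]
    simp only [h, add_mul, Finset.sum_add_distrib]

lemma weighted (z d : E → ℝ) (T l : ℝ) :
    2 * T * l * ∑ k, z k * d k ≤ l ^ 2 * ∑ k, z k * z k + T ^ 2 * ∑ k, d k ^ 2 := by
  rw [Finset.mul_sum, Finset.mul_sum, Finset.mul_sum, ← Finset.sum_add_distrib]
  refine Finset.sum_le_sum fun k _ => ?_
  nlinarith [sq_nonneg (l * z k - T * d k)]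

/-- the arithmetic of `K` and `c` -/
lemma arith {δ : ℝ} (hδ : δ ≤ 1 / 100000) {K : ℕ} {c : ℤ} (h1 : |c| < K)
    (h2 : (K : ℝ) - |(c : ℝ)| ≤ δ * K) :
    100 ≤ K ∧ ∃ σ τ : ℝ, (σ = 1 ∨ σ = -1) ∧ 99 / 100 * (K : ℝ) ≤ σ * c ∧ σ * c ≤ K ∧
      K + (c : ℝ) / K = τ * K ∧ 995 / 1000 ≤ τ ∧ τ ≤ 101 / 100 ∧ |τ * K - (K + σ)| ≤ δ ∧
      (K : ℝ) ^ 2 + 2 * c + 1 ≤ (τ * K) ^ 2 + 2 * δ := by
  have h3 : |(c : ℝ)| + 1 ≤ K := by exact_mod_cast h1
  have hK0 : (0 : ℝ) < K := by linarith [abs_nonneg (c : ℝ)]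
  have hK : (100000 : ℝ) ≤ K := by nlinarith
  obtain ⟨u, hu⟩ : ∃ u : ℝ, (c : ℝ) = u * K := ⟨c / K, by field_simp⟩
  have hu' : (c : ℝ) / K = u := by rw [hu]; field_simp
  rw [hu, abs_mul, abs_of_pos hK0] at h2 h3
  have a1 : 1 - δ ≤ |u| := le_of_mul_le_mul_right (by linarith) hK0
  have a2 : |u| ≤ 1 := le_of_mul_le_mul_right (by linarith) hK0
  have a3 : |u / K| ≤ 1 / 1000 := by
    rw [abs_div, abs_of_pos hK0, div_le_iff₀ hK0]; linarith
  have a4 : (1 + u / K) * K = K + u := by field_simp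
  have a5 : 1 - 2 * δ ≤ u ^ 2 := by
    rw [← sq_abs]; nlinarith [sq_nonneg δ]
  refine ⟨by exact_mod_cast (show (100 : ℝ) ≤ K by linarith), ?_⟩
  have a6 := abs_le.1 a3
  rcases le_total 0 u with h | h
  · rw [abs_of_nonneg h] at a1 a2
    refine ⟨1, 1 + u / K, .inl rfl, by rw [hu]; nlinarith, by rw [hu]; nlinarith,
      by rw [hu', a4], by linarith, by linarith, ?_, by rw [a4, hu]; nlinarith⟩
    rw [a4, abs_le]; constructor <;> linarith
  · rw [abs_of_nonpos h] at a1 a2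
    refine ⟨-1, 1 + u / K, .inr rfl, by rw [hu]; nlinarith, by rw [hu]; nlinarith,
      by rw [hu', a4], by linarith, by linarith, ?_, by rw [a4, hu]; nlinarith⟩
    rw [a4, abs_le]; constructor <;> linarith

/-- first half of the numeric chain -/
lemma chain1 {κ δ K τ η L n X DI D2 Aj G P S gd : ℝ} (hκ : 0 < κ) (d2 : δ ≤ κ / 10000)
    (d3 : δ ≤ κ ^ 2 / 10000) (hK : 100 ≤ K) (t1 : 995 / 1000 ≤ τ) (t2 : τ ≤ 101 / 100)
    (t4 : n ≤ (τ * K) ^ 2 + 2 * δ) (hL : 0 ≤ L) (hη : 0 ≤ η) (hηδ : η ≤ δ)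
    (hd : D2 ≤ (3 * K) ^ 2 - κ * L + η) (hX : τ * K * (3 * K) + η < X) (cs : X ^ 2 ≤ n * DI)
    (sp : D2 = DI + Aj) (hDI : 0 ≤ DI) (hA0 : 0 ≤ Aj) (hG0 : 0 ≤ G) (e2 : n = S + G)
    (e5 : X = P + gd) (hg : gd ≤ L * (3 / 2 * G + Aj))
    (wt : 2 * (τ * K) * (3 * K) * P ≤ (3 * K) ^ 2 * S + (τ * K) ^ 2 * D2) :
    L ≤ 1 / 500 ∧ L ≤ κ / 500 ∧ Aj ≤ 20 * δ ∧ G ≤ 3 * δ ∧ |P - τ * K * (3 * K)| ≤ 4 * δ ∧
      η - 25 * δ * L < P - τ * K * (3 * K) := by
  have hκL : 0 ≤ κ * L := by positivity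
  have hQ := num1 (Q := κ * L + Aj) hK t1 hη hηδ t4 hDI (by linarith) (by linarith) cs
  have L1 : L ≤ 1 / 500 := le_of_mul_le_mul_left (by linarith) hκ
  have L2 : L ≤ κ / 500 := le_of_mul_le_mul_left (by linarith) hκ
  have hr : η - L * (3 / 2 * G + Aj) < P - τ * K * (3 * K) := by linarith
  have k1 := key (y := 2 * δ - G) (w := η) (by linarith) wt (by linarith) (by linarith)
  obtain ⟨hG, hrr⟩ := num2 (by linarith) t2 hG0 hA0 (by linarith) L1 hηδ (by linarith) k1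
  have : L * (3 / 2 * G + Aj) ≤ L * (25 * δ) := mul_le_mul_of_nonneg_left (by linarith) hL
  exact ⟨L1, L2, by linarith, hG, hrr, by linarith⟩

/-- second half of the numeric chain -/
lemma chain2 {κ δ K τ σ η L D2 P K0 H0 w : ℝ} (d1 : δ ≤ 1 / 100000) (d2 : δ ≤ κ / 10000)
    (hK : 100 ≤ K) (t1 : 995 / 1000 ≤ τ) (t2 : τ ≤ 101 / 100) (t3 : |τ * K - (K + σ)| ≤ δ)
    (hL : 0 ≤ L) (hη : 0 ≤ η) (hδ : 0 ≤ δ) (hd : D2 ≤ (3 * K) ^ 2 - κ * L + η)
    (L1 : L ≤ 1 / 500) (L2 : L ≤ κ / 500) (hw : w ≤ 1) (hrr : |P - τ * K * (3 * K)| ≤ 4 * δ)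
    (hr : η - 25 * δ * L < P - τ * K * (3 * K)) (lU : |3 * K * K0 - P| ≤ L * (|K0| + w))
    (lW : |3 * K * H0 - P| ≤ L * (|H0| + w))
    (wt : 2 * (τ * K) * (3 * K) * P ≤ (3 * K) ^ 2 * (K0 * H0) + (τ * K) ^ 2 * D2)
    (rd : |K0 - (K + σ)| ≤ 2 * δ + L → |H0 - (K + σ)| ≤ 2 * δ + L →
      K0 + H0 ≤ 2 * (τ * K) + 2 * (2 * δ + L) * |H0 - K0| / K) : False := by
  have hτ : 0 ≤ τ := by linarith
  have hL1 : L ≤ 1 := by linarith
  have hδ1 : 4 * δ ≤ 1 := by linarith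
  have m1 := num3 hK hτ t2 hL hL1 hw hδ1 hrr lU
  have m2 := num3 hK hτ t2 hL hL1 hw hδ1 hrr lW
  have n1 := num4 hK hδ hrr m1
  have n2 := num4 hK hδ hrr m2
  have n3 := num5 hK hL m1 m2
  have tri : ∀ x : ℝ, |x - τ * K| ≤ 2 / 5 * L + δ → |x - (K + σ)| ≤ 2 * δ + L := fun x hx => by
    have := abs_add_le (x - τ * K) (τ * K - (K + σ))
    rw [sub_add_sub_cancel] at this
    linarith only [this, hx, t3, hL]
  have hν : 0 ≤ 2 * δ + L := by linarith
  have rd' : K0 + H0 ≤ 2 * (τ * K) + 2 * ((2 * δ + L) * L) / K := by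
    refine (rd (tri _ n1) (tri _ n2)).trans
      (add_le_add le_rfl (div_le_div_of_nonneg_right ?_ (by linarith)))
    rw [mul_assoc]
    exact mul_le_mul_of_nonneg_left (mul_le_mul_of_nonneg_left n3 hν) zero_le_two
  have hτK : 99 ≤ τ * K := by nlinarith only [hK, t1]
  have hs : 0 ≤ K0 + H0 := by
    linarith only [(abs_le.1 n1).1, (abs_le.1 n2).1, hτK, L1, d1]
  have m3 := num6 hK t2 (mul_nonneg hν hL) (by nlinarith only [hν, hL, L1, d1]) hs rd'
  have k2 := key (y := 31 / 10 * ((2 * δ + L) * L)) (w := η - κ * L) (by linarith) wt m3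
    (by linarith only [hd])
  exact num7 (by linarith only [t1]) t2 hL hη hδ d2 (by linarith only [L2]) hr k2

end
end NetAux
open NetAux

theorem hodge_of : HodgeStmt := by
  intro I J _ _ A B hO hAB hBA
  obtain ⟨UA, a1, a2, a3⟩ := proj A (ind I J)
  obtain ⟨WB, b1, b2, b3⟩ := proj B fun k => ind I J k - A.D UA k
  obtain ⟨W, w1, w2⟩ := hAB (fun k => ind I J k - A.D UA k - B.D WB k) fun U' k1 k2 => by
    have e := hO U' WB k1 b1
    rw [k2, zero_mul] at e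
    simp only [mul_sub _ (_ - _), Finset.sum_sub_distrib, a3 U' k1 k2, e, sub_self]
  obtain ⟨U, u1, u2⟩ := hBA (fun k => ind I J k - A.D UA k - B.D WB k) b3
  have hz : ∀ k, A.D U k = B.D W k := fun k => (u2 k).symm.trans (w2 k)
  obtain ⟨U', u1', u2', u3'⟩ := clamp hO u1 w1 hz
  obtain ⟨W', w1', w2', w3'⟩ := clamp hO.symm w1 u1 fun k => (hz k).symm
  obtain ⟨UA', c1, c2, c3, c4⟩ := half hO a1 w1 b1 a2 fun k => by rw [← w2 k]; ring
  obtain ⟨WB', d1, d2, d3, d4⟩ := half hO.symm b1 u1 a1 b2 fun k => by rw [← u2 k]; ring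
  refine ⟨U', UA', W', WB', u1', c1, w1', d1, c2, d2, fun k => by rw [u2', w2', hz],
    fun k => by rw [u2', c3, d3, ← u2 k]; ring, u3', w3', fun x => ?_, fun x => ?_⟩
  · simpa only [c3] using c4 x
  · simpa only [d3] using d4 x

theorem net_of (h1 : HodgeStmt) (h2 : RoundStmt) : NetStmt := by
  intro κ hκ
  refine ⟨min (1 / 100000) (min (κ / 10000) (κ ^ 2 / 10000)), by positivity, ?_⟩
  generalize hδe : min (1 / 100000) (min (κ / 10000) (κ ^ 2 / 10000)) = δ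
  have d1 : δ ≤ 1 / 100000 := hδe ▸ min_le_left _ _
  have d2 : δ ≤ κ / 10000 := hδe ▸ (min_le_right _ _).trans (min_le_left _ _)
  have d3 : δ ≤ κ ^ 2 / 10000 := hδe ▸ (min_le_right _ _).trans (min_le_right _ _)
  intro K c hc hcK I J _ _ A B d L η hO hAB hBA hn hL hη hηδ lA lB hd
  have hδ : 0 ≤ δ := hη.trans hηδ
  obtain ⟨hK, σ, τ, hσ, s1, s2, hT, t1, t2, t3, t4⟩ := arith d1 hc hcK
  have hK' : (100 : ℝ) ≤ K := by exact_mod_cast hK
  have hn' : (Fintype.card I : ℝ) = (K : ℝ) ^ 2 + 2 * c + 1 := by exact_mod_cast hn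
  rw [← hn'] at t4
  rw [hT]
  by_contra hX
  push Not at hX
  obtain ⟨U, UA, W, WB, u1, a1, w1, b1, a2, b2, hz, hi, u3, w3, a3, b3⟩ := h1 I J A B hO hAB hBA
  have o1 : ∑ k, A.D UA k * A.D U k = 0 := by
    simp only [hz]; rw [hO UA W a1 w1, a2, zero_mul]
  have o2 : ∑ k, A.D U k * B.D WB k = 0 := by rw [hO U WB u1 b1, b2, mul_zero]
  have o3 : ∑ k, A.D UA k * B.D WB k = 0 := by rw [hO UA WB a1 b1, b2, mul_zero]
  have o4 : ∑ k, A.D U k * A.D U k = A.tot U * B.tot W := by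
    rw [← hO U W u1 w1]; simp only [hz]
  obtain ⟨e1, e2, e3, e4, e5⟩ := decomp d hi o1 o2 o3
  have kA := leak_closed lA hL a1 a2 a3
  have kB := leak_closed lB hL b1 b2 b3
  have lU := leak_open lA hL u1 u3 e4
  have lW := leak_open lB hL w1 w3 (by simpa only [hz] using e4)
  simp only [← hz] at lW
  have wt := weighted (A.D U) d (τ * K) (3 * K)
  have cs : (∑ i, d (.inl i)) ^ 2 ≤ Fintype.card I * ∑ i, d (.inl i) ^ 2 := by
    simpa using sq_sum_le_card_mul_sum_sq (s := Finset.univ) (f := fun i => d (.inl i))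
  have hG0 : 0 ≤ ∑ k, A.D UA k ^ 2 + ∑ k, B.D WB k ^ 2 :=
    add_nonneg (Finset.sum_nonneg fun _ _ => sq_nonneg _) (Finset.sum_nonneg fun _ _ => sq_nonneg _)
  obtain ⟨L1, L2, c1, c2, c3, c4⟩ := chain1 hκ d2 d3 hK' t1 t2 t4 hL hη hηδ hd hX cs
    (Fintype.sum_sum_type _) (Finset.sum_nonneg fun _ _ => sq_nonneg _)
    (Finset.sum_nonneg fun _ _ => sq_nonneg _) hG0 e2 (e5.trans (add_assoc _ _ _))
    (by linarith only [kA, kB]) wt
  rw [o4] at wt
  refine chain2 d1 d2 hK' t1 t2 t3 hL hη hδ hd L1 L2 (by linarith only [c1, c2, d1]) c3 c4 lU lW wt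
    fun k1 k2 => ?_
  rw [← hT]
  exact h2 I J A B U W K c σ (2 * δ + L) hO u1 w1 hz hn hK hσ s1 s2 (by linarith only [d1, L1])
    k1 k2 (e1.trans o4) (by linarith only [e3, c2, d1])

end Pool.Agent.MP_a421c2_co.Ex

end MrgPart3

-- marker of a merged file
example : 731051 + 492048 = 731051 + 492048 := rfl
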